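import Mathlib

/-!
The additive energy of a set of integers with restricted digits, with arbitrary digit sets.
-/

set_option autoImplicit false

open Finset

namespace Pool.Agent.Q263.PG

/-- the triples with `x + y - z + c` in `S` modulo `Q` -/
noncomputable def trip (S : Finset ℕ) (Q : ℕ) (c : ℤ) : Finset (ℕ × ℕ × ℕ) := by
  classical
  exact (S ×ˢ S ×ˢ S).filter (fun t => ∃ w ∈ S, (Q : ℤ) ∣ (t.1 : ℤ) + t.2.1 - t.2.2 + c - w)

lemma mem_trip {S : Finset ℕ} {Q : ℕ} {c : ℤ} {t : ℕ × ℕ × ℕ} : t ∈ trip S Q c ↔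
    (t.1 ∈ S ∧ t.2.1 ∈ S ∧ t.2.2 ∈ S) ∧
      ∃ w ∈ S, (Q : ℤ) ∣ (t.1 : ℤ) + t.2.1 - t.2.2 + c - w := by
  unfold trip
  rw [Finset.mem_filter, Finset.mem_product, Finset.mem_product]

lemma trip_card (S : Finset ℕ) (Q : ℕ) (c : ℤ) : (trip S Q c).card ≤ S.card ^ 3 := by
  unfold trip
  refine (Finset.card_filter_le _ _).trans (le_of_eq ?_)
  rw [Finset.card_product, Finset.card_product]
  ring

/-- the numbers `e + B n` -/
def comb (B : ℕ) (E S : Finset ℕ) : Finset ℕ := (E ×ˢ S).image (fun t => t.1 + B * t.2)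

lemma mem_comb {B : ℕ} {E S : Finset ℕ} (hE : ∀ e ∈ E, e < B) {n : ℕ} :
    n ∈ comb B E S ↔ n % B ∈ E ∧ n / B ∈ S := by
  unfold comb
  rw [Finset.mem_image]
  constructor
  · rintro ⟨⟨e, s⟩, h, rfl⟩
    rw [Finset.mem_product] at h
    have h1 := hE e h.1
    dsimp only at h ⊢
    rw [Nat.add_mul_mod_self_left, Nat.mod_eq_of_lt h1, Nat.add_mul_div_left _ _ (by omega),
      Nat.div_eq_of_lt h1, zero_add]
    exact h
  · intro h
    exact ⟨(n % B, n / B), Finset.mem_product.2 h, Nat.mod_add_div n B⟩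

lemma comb_card {B : ℕ} {E S : Finset ℕ} (hE : ∀ e ∈ E, e < B) :
    (comb B E S).card = E.card * S.card := by
  unfold comb
  rw [Finset.card_image_of_injOn, Finset.card_product]
  rintro ⟨e, s⟩ h ⟨e', s'⟩ h' heq
  rw [Finset.mem_coe, Finset.mem_product] at h h'
  have h1 := hE e h.1
  have h2 := hE e' h'.1
  dsimp only at heq
  have h3 : (e + B * s) % B = (e' + B * s') % B := by rw [heq]
  have h4 : (e + B * s) / B = (e' + B * s') / B := by rw [heq]
  rw [Nat.add_mul_mod_self_left, Nat.mod_eq_of_lt h1, Nat.add_mul_mod_self_left,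
    Nat.mod_eq_of_lt h2] at h3
  rw [Nat.add_mul_div_left _ _ (by omega), Nat.div_eq_of_lt h1, Nat.add_mul_div_left _ _ (by omega),
    Nat.div_eq_of_lt h2] at h4
  ext
  · exact h3
  · simpa using h4

lemma comb_lt {B Q : ℕ} {E S : Finset ℕ} (hE : ∀ e ∈ E, e < B) (hS : ∀ s ∈ S, s < Q) :
    ∀ n ∈ comb B E S, n < B * Q := by
  intro n hn
  rw [mem_comb hE] at hn
  have h1 := hE _ hn.1
  have h2 := hS _ hn.2
  exact Nat.lt_mul_of_div_lt h2 (by omega) |>.trans_le (le_of_eq (mul_comm _ _))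

lemma comb_assoc {B C : ℕ} {E F S : Finset ℕ} (hE : ∀ e ∈ E, e < B) (hF : ∀ e ∈ F, e < C) :
    comb B E (comb C F S) = comb (B * C) (comb B E F) S := by
  ext n
  rw [mem_comb hE, mem_comb hF, mem_comb (comb_lt hE hF), mem_comb hE, Nat.div_div_eq_div_mul,
    Nat.mod_mul_right_mod, Nat.mod_mul_right_div_self]
  tauto

/-- **one step** -/
lemma step' (B Q : ℕ) (E S : Finset ℕ) (hE : ∀ e ∈ E, e < B) (c : ℤ) (hc : |c| ≤ 1) (M : ℕ)
    (hM : ∀ c' : ℤ, |c'| ≤ 1 → (∃ x ∈ E, ∃ y ∈ E, ∃ z ∈ E, ∃ w ∈ E,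
      (x : ℤ) + y - z + c - w = B * c') → (trip S Q c').card ≤ M) :
    (trip (comb B E S) (B * Q) c).card ≤ M * (trip E B c).card := by
  classical
  apply Finset.card_le_mul_card_image_of_maps_to (f := fun t : ℕ × ℕ × ℕ =>
    (t.1 % B, t.2.1 % B, t.2.2 % B))
  · intro t ht
    rw [mem_trip, mem_comb hE, mem_comb hE, mem_comb hE] at ht
    obtain ⟨⟨h1, h2, h3⟩, w, hw, hd⟩ := ht
    rw [mem_comb hE] at hw
    rw [mem_trip]
    refine ⟨⟨h1.1, h2.1, h3.1⟩, w % B, hw.1, ?_⟩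
    have hd' : (B : ℤ) ∣ (t.1 : ℤ) + t.2.1 - t.2.2 + c - w :=
      dvd_trans ⟨(Q : ℤ), by push_cast; ring⟩ hd
    dsimp only
    have e1 : ∀ n : ℕ, ((n % B : ℕ) : ℤ) = n - B * (n / B : ℕ) := fun n => by
      have := Nat.mod_add_div n B
      have h : ((n % B : ℕ) : ℤ) + B * (n / B : ℕ) = n := by exact_mod_cast this
      linarith
    rw [e1, e1, e1, e1]
    obtain ⟨u, hu⟩ := hd'
    exact ⟨u - (t.1 / B : ℕ) - (t.2.1 / B : ℕ) + (t.2.2 / B : ℕ) + (w / B : ℕ), by
      linear_combination hu⟩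
  · rintro ⟨e1, e2, e3⟩ he
    rw [mem_trip] at he
    obtain ⟨⟨h1, h2, h3⟩, w0, hw0, hd0⟩ := he
    dsimp only at h1 h2 h3 hd0
    obtain ⟨c', hc'⟩ := hd0
    have hb1 := hE e1 h1
    have hb2 := hE e2 h2
    have hb3 := hE e3 h3
    have hb0 := hE w0 hw0
    have hB0 : (0 : ℤ) < B := by exact_mod_cast (by omega : 0 < B)
    have hc1 : |c'| ≤ 1 := by
      rw [abs_le] at hc ⊢
      constructor
      · by_contra h
        push Not at h
        have h4 : (B : ℤ) * c' ≤ B * (-2) := mul_le_mul_of_nonneg_left (by omega) hB0.le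
        omega
      · by_contra h
        push Not at h
        have h4 : (B : ℤ) * 2 ≤ B * c' := mul_le_mul_of_nonneg_left (by omega) hB0.le
        omega
    refine le_trans ?_ (hM c' hc1 ⟨e1, h1, e2, h2, e3, h3, w0, hw0, hc'⟩)
    apply Finset.card_le_card_of_injOn (fun t : ℕ × ℕ × ℕ => (t.1 / B, t.2.1 / B, t.2.2 / B))
    · rintro ⟨x, y, z⟩ ht
      rw [Finset.mem_coe, Finset.mem_filter, mem_trip, mem_comb hE, mem_comb hE, mem_comb hE] at ht
      obtain ⟨⟨⟨g1, g2, g3⟩, w, hw, hd⟩, heq⟩ := ht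
      rw [mem_comb hE] at hw
      dsimp only at g1 g2 g3 hd heq
      rw [Prod.mk.injEq, Prod.mk.injEq] at heq
      obtain ⟨q1, q2, q3⟩ := heq
      rw [Finset.mem_coe, mem_trip]
      refine ⟨⟨g1.2, g2.2, g3.2⟩, w / B, hw.2, ?_⟩
      dsimp only
      have e1 : ∀ n : ℕ, (n : ℤ) = ((n % B : ℕ) : ℤ) + B * (n / B : ℕ) := fun n => by
        exact_mod_cast (Nat.mod_add_div n B).symm
      obtain ⟨v, hv⟩ := hd
      have hx := e1 x
      have hy := e1 y
      have hz := e1 z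
      have hww := e1 w
      rw [q1] at hx
      rw [q2] at hy
      rw [q3] at hz
      have hwb := hE _ hw.1
      have hww0 : w % B = w0 := by
        have h4 : (B : ℤ) ∣ ((w % B : ℕ) : ℤ) - w0 := by
          refine ⟨c' + (x / B : ℕ) + (y / B : ℕ) - (z / B : ℕ) - (w / B : ℕ) - Q * v, ?_⟩
          push_cast at hv
          linear_combination (-1 : ℤ) * hv + hc' + hx + hy - hz - hww
        have h5 := Int.eq_zero_of_abs_lt_dvd h4 (by rw [abs_lt]; constructor <;> omega)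
        omega
      rw [hww0] at hww
      refine ⟨v, ?_⟩
      have h6 : (B : ℤ) * (((x / B : ℕ) : ℤ) + (y / B : ℕ) - (z / B : ℕ) + c' - (w / B : ℕ)) =
          B * (Q * v) := by
        push_cast at hv
        linear_combination hv - hc' - hx - hy + hz + hww
      exact mul_left_cancel₀ hB0.ne' h6
    · rintro ⟨x, y, z⟩ ht ⟨x', y', z'⟩ ht' heq
      rw [Finset.mem_coe, Finset.mem_filter] at ht ht'
      obtain ⟨_, q⟩ := ht
      obtain ⟨_, q'⟩ := ht'
      dsimp only at q q' heq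
      rw [Prod.mk.injEq, Prod.mk.injEq] at q q' heq ⊢
      refine ⟨?_, ?_, ?_⟩
      · rw [← Nat.mod_add_div x B, ← Nat.mod_add_div x' B, q.1, q'.1, heq.1]
      · rw [← Nat.mod_add_div y B, ← Nat.mod_add_div y' B, q.2.1, q'.2.1, heq.2.1]
      · rw [← Nat.mod_add_div z B, ← Nat.mod_add_div z' B, q.2.2, q'.2.2, heq.2.2]

/-- **one step** -/
lemma step (B Q : ℕ) (E S : Finset ℕ) (hE : ∀ e ∈ E, e < B) (c : ℤ) (hc : |c| ≤ 1) (M : ℕ)
    (hM : ∀ c' : ℤ, |c'| ≤ 1 → (trip S Q c').card ≤ M) :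
    (trip (comb B E S) (B * Q) c).card ≤ M * (trip E B c).card :=
  step' B Q E S hE c hc M fun c' hc' _ => hM c' hc'

/-- summing over the digits -/
lemma comb_sum {M : Type} [AddCommMonoid M] {B : ℕ} {E S : Finset ℕ} (hE : ∀ e ∈ E, e < B)
    (F : ℕ → M) : ∑ n ∈ comb B E S, F n = ∑ e ∈ E, ∑ s ∈ S, F (e + B * s) := by
  unfold comb
  rw [Finset.sum_image, Finset.sum_product]
  rintro ⟨e, s⟩ h ⟨e', s'⟩ h' heq
  rw [Finset.mem_coe, Finset.mem_product] at h h'
  have h1 := hE e h.1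
  have h2 := hE e' h'.1
  dsimp only at heq
  have h3 : (e + B * s) % B = (e' + B * s') % B := by rw [heq]
  have h4 : (e + B * s) / B = (e' + B * s') / B := by rw [heq]
  rw [Nat.add_mul_mod_self_left, Nat.mod_eq_of_lt h1, Nat.add_mul_mod_self_left,
    Nat.mod_eq_of_lt h2] at h3
  rw [Nat.add_mul_div_left _ _ (by omega), Nat.div_eq_of_lt h1, Nat.add_mul_div_left _ _ (by omega),
    Nat.div_eq_of_lt h2] at h4
  ext
  · exact h3
  · simpa using h4

/-- two digits -/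
lemma two (b : ℕ) (D : Finset ℕ) (h2 : D.card = 2) :
    (trip D b 0).card + 2 ≤ 8 ∨ ∃ x ∈ D, ∃ y ∈ D, ∃ z ∈ D, ∃ w ∈ D,
      (b : ℤ) ∣ (x : ℤ) + y - z - w ∧ (x : ℤ) + y - z - w ≠ 0 := by
  classical
  by_contra hcon
  push Not at hcon
  obtain ⟨hlt, hall⟩ := hcon
  obtain ⟨u, v, huv, rfl⟩ := Finset.card_eq_two.1 h2
  have hu : u ∈ ({u, v} : Finset ℕ) := by simp
  have hv : v ∈ ({u, v} : Finset ℕ) := by simp
  have h1 : (u, u, v) ∉ trip {u, v} b 0 := by
    intro h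
    obtain ⟨_, w, hw, hd⟩ := mem_trip.1 h
    dsimp only at hd
    have h3 := hall u hu u hu v hv w hw (by simpa using hd)
    rw [Finset.mem_insert, Finset.mem_singleton] at hw
    rcases hw with rfl | rfl <;> omega
  have h2' : (v, v, u) ∉ trip {u, v} b 0 := by
    intro h
    obtain ⟨_, w, hw, hd⟩ := mem_trip.1 h
    dsimp only at hd
    have h3 := hall v hv v hv u hu w hw (by simpa using hd)
    rw [Finset.mem_insert, Finset.mem_singleton] at hw
    rcases hw with rfl | rfl <;> omega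
  have h3 : insert (u, u, v) (insert (v, v, u) (trip {u, v} b 0)) ⊆
      ({u, v} : Finset ℕ) ×ˢ ({u, v} : Finset ℕ) ×ˢ ({u, v} : Finset ℕ) := by
    intro t ht
    rw [Finset.mem_insert, Finset.mem_insert] at ht
    rw [Finset.mem_product, Finset.mem_product]
    rcases ht with rfl | rfl | ht
    · exact ⟨hu, hu, hv⟩
    · exact ⟨hv, hv, hu⟩
    · exact (mem_trip.1 ht).1
  have h4 := Finset.card_le_card h3
  rw [Finset.card_insert_of_notMem (by
      rw [Finset.mem_insert, not_or]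
      refine ⟨?_, h1⟩
      intro h
      rw [Prod.mk.injEq] at h
      exact huv h.1), Finset.card_insert_of_notMem h2', Finset.card_product, Finset.card_product,
    h2] at h4
  omega

/-- a proper digit set is not closed under the addition of a generator -/
lemma out (b : ℕ) (D : Finset ℕ) (hne : D.Nonempty) (hD : ∀ d ∈ D, d < b)
    (hm : ∃ d < b, d ∉ D) (s : ℤ) (hs : s = 1 ∨ s = -1) :
    ∃ x ∈ D, ∀ w ∈ D, ¬ (b : ℤ) ∣ (x : ℤ) + s - w := by
  by_contra hcon
  push Not at hcon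
  obtain ⟨x0, hx0⟩ := hne
  obtain ⟨d, hd, hdD⟩ := hm
  have hb0 : (0 : ℤ) < b := by exact_mod_cast (by omega : 0 < b)
  have key : ∀ n : ℕ, ∃ w ∈ D, (b : ℤ) ∣ (x0 : ℤ) + n * s - w := by
    intro n
    induction n with
    | zero => exact ⟨x0, hx0, by simp⟩
    | succ n ih =>
      obtain ⟨w, hw, u, hu⟩ := ih
      obtain ⟨w', hw', v, hv⟩ := hcon w hw
      refine ⟨w', hw', u + v, ?_⟩
      push_cast
      linear_combination hu + hv
  -- reach `d`
  obtain ⟨n, hn⟩ : ∃ n : ℕ, (b : ℤ) ∣ (x0 : ℤ) + n * s - d := by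
    rcases hs with rfl | rfl
    · refine ⟨(d + b * x0 - x0 : ℕ), ?_⟩
      have h1 : x0 ≤ d + b * x0 := by nlinarith [hD x0 hx0]
      refine ⟨x0, ?_⟩
      rw [Nat.cast_sub h1]
      push_cast
      ring
    · refine ⟨(x0 + b * d - d : ℕ), ?_⟩
      have h1 : d ≤ x0 + b * d := by nlinarith
      refine ⟨-d, ?_⟩
      rw [Nat.cast_sub h1]
      push_cast
      ring
  obtain ⟨w, hw, u, hu⟩ := key n
  obtain ⟨v, hv⟩ := hn
  have h4 : (b : ℤ) ∣ (w : ℤ) - d := ⟨v - u, by linear_combination hv - hu⟩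
  have hwb := hD w hw
  have h5 := Int.eq_zero_of_abs_lt_dvd h4 (by rw [abs_lt]; constructor <;> omega)
  have h6 : w = d := by omega
  exact hdD (h6 ▸ hw)

/-- **a pair of digits** -/
lemma pair (b : ℕ) (D D' : Finset ℕ) (hne' : D'.Nonempty) (h2 : 2 ≤ D.card)
    (hD : ∀ d ∈ D, d < b) (hD' : ∀ d ∈ D', d < b) (hm : ∃ d < b, d ∉ D) (hm' : ∃ d < b, d ∉ D')
    (c : ℤ) (hc : |c| ≤ 1) :
    (trip (comb b D D') (b * b) c).card + 1 ≤ (D.card * D'.card) ^ 3 := by
  classical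
  have hne : D.Nonempty := Finset.card_pos.1 (by omega)
  set E := comb b D D' with hE
  suffices h : ∃ t : ℕ × ℕ × ℕ, (t.1 ∈ E ∧ t.2.1 ∈ E ∧ t.2.2 ∈ E) ∧ t ∉ trip E (b * b) c by
    obtain ⟨t, ht, hnt⟩ := h
    have h1 : insert t (trip E (b * b) c) ⊆ E ×ˢ E ×ˢ E := by
      intro u hu
      rw [Finset.mem_insert] at hu
      rw [Finset.mem_product, Finset.mem_product]
      rcases hu with rfl | hu
      · exact ht
      · exact (mem_trip.1 hu).1
    have h3 := Finset.card_le_card h1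
    rw [Finset.card_insert_of_notMem hnt, Finset.card_product, Finset.card_product, hE,
      comb_card hD] at h3
    refine h3.trans (le_of_eq (by ring))
  have hmem : ∀ x ∈ D, ∀ y ∈ D', x + b * y ∈ E := by
    intro x hx y hy
    rw [hE, mem_comb hD]
    have h1 := hD x hx
    rw [Nat.add_mul_mod_self_left, Nat.mod_eq_of_lt h1, Nat.add_mul_div_left _ _ (by omega),
      Nat.div_eq_of_lt h1, zero_add]
    exact ⟨hx, hy⟩
  have hbpos : (0 : ℤ) < b := by
    obtain ⟨x, hx⟩ := hne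
    exact_mod_cast (lt_of_le_of_lt (Nat.zero_le _) (hD x hx))
  have ew : ∀ w : ℕ, (w : ℤ) = ((w % b : ℕ) : ℤ) + b * (w / b : ℕ) := fun w => by
    exact_mod_cast (Nat.mod_add_div w b).symm
  by_cases h0 : c = 0
  · subst h0
    obtain ⟨d1, hd1, hout⟩ := out b D' hne' hD' hm' 1 (Or.inl rfl)
    set Mx := D.max' hne with hMx
    set mn := D.min' hne with hmn
    have hMxD : Mx ∈ D := Finset.max'_mem D hne
    have hmnD : mn ∈ D := Finset.min'_mem D hne
    have hlt : mn < Mx := Finset.min'_lt_max'_of_card D (by omega)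
    refine ⟨(Mx + b * d1, Mx + b * d1, mn + b * d1), ⟨hmem _ hMxD _ hd1, hmem _ hMxD _ hd1,
      hmem _ hmnD _ hd1⟩, ?_⟩
    intro ht
    rw [mem_trip] at ht
    obtain ⟨_, w, hw, v, hv⟩ := ht
    rw [hE, mem_comb hD] at hw
    dsimp only at hv
    have hw0 := ew w
    have hwle : w % b ≤ Mx := Finset.le_max' D _ hw.1
    have hMb := hD _ hMxD
    push_cast at hv
    -- the lowest digit
    have h5 : (b : ℤ) ∣ 2 * (Mx : ℤ) - mn - (w % b : ℕ) := by
      refine ⟨b * v - d1 + (w / b : ℕ), ?_⟩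
      linear_combination hv + hw0
    have h6 : 2 * (Mx : ℤ) - mn - (w % b : ℕ) = b := by
      obtain ⟨u, hu⟩ := h5
      have hpos : 0 < 2 * (Mx : ℤ) - mn - (w % b : ℕ) := by
        have : ((w % b : ℕ) : ℤ) ≤ Mx := by exact_mod_cast hwle
        have h7 : (mn : ℤ) < Mx := by exact_mod_cast hlt
        linarith
      have hlt2 : 2 * (Mx : ℤ) - mn - (w % b : ℕ) < 2 * b := by
        have : (Mx : ℤ) < b := by exact_mod_cast hMb
        have h7 : (0 : ℤ) ≤ mn := Int.natCast_nonneg _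
        have h8 : (0 : ℤ) ≤ ((w % b : ℕ) : ℤ) := Int.natCast_nonneg _
        linarith
      rw [hu] at hpos hlt2 ⊢
      have hu1 : 0 < u := by
        by_contra h
        push Not at h
        nlinarith
      have hu2 : u < 2 := by
        by_contra h
        push Not at h
        nlinarith
      have hu3 : u = 1 := by omega
      rw [hu3, mul_one]
    apply hout (w / b) hw.2
    refine ⟨v, ?_⟩
    have h7 : (b : ℤ) * ((d1 : ℤ) + 1 - (w / b : ℕ)) = b * (b * v) := by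
      linear_combination hv + hw0 - h6
    exact mul_left_cancel₀ hbpos.ne' h7
  · have hc2 : c = 1 ∨ c = -1 := by
      rw [abs_le] at hc
      omega
    obtain ⟨x, hx, hout⟩ := out b D hne hD hm c hc2
    obtain ⟨y, hy⟩ := hne'
    refine ⟨(x + b * y, x + b * y, x + b * y), ⟨hmem _ hx _ hy, hmem _ hx _ hy, hmem _ hx _ hy⟩, ?_⟩
    intro ht
    rw [mem_trip] at ht
    obtain ⟨_, w, hw, v, hv⟩ := ht
    rw [hE, mem_comb hD] at hw
    dsimp only at hv
    have hw0 := ew w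
    push_cast at hv
    apply hout (w % b) hw.1
    refine ⟨b * v - y + (w / b : ℕ), ?_⟩
    linear_combination hv + hw0

end Pool.Agent.Q263.PG
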