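import Mathlib
import Pool.Agent.Q263.PG.Dig

/-!
The sets of integers with restricted digits and their additive energy.
-/

set_option autoImplicit false

open Finset

namespace Pool.Agent.Q263.PG

/-- the integers with `k` digits, the `i`-th one in `D i` -/
def SD (b : ℕ) : ℕ → (ℕ → Finset ℕ) → Finset ℕ
  | 0, _ => {0}
  | k + 1, D => comb b (D 0) (SD b k (fun i => D (i + 1)))

/-- nonempty sets of digits, with a missing digit -/
def Prp (b k : ℕ) (D : ℕ → Finset ℕ) : Prop :=
  ∀ i < k, (D i).Nonempty ∧ (∀ d ∈ D i, d < b) ∧ ∃ d < b, d ∉ D i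

lemma Prp.tail {b k : ℕ} {D : ℕ → Finset ℕ} (h : Prp b (k + 1) D) :
    Prp b k (fun i => D (i + 1)) := fun i hi => h (i + 1) (by omega)

lemma Prp.shift {b k m : ℕ} {D : ℕ → Finset ℕ} (j : ℕ) (h : Prp b k D) (hm : j + m ≤ k) :
    Prp b m (fun i => D (j + i)) := fun i hi => h (j + i) (by omega)

lemma Prp.mono {b k m : ℕ} {D : ℕ → Finset ℕ} (h : Prp b k D) (hm : m ≤ k) :
    Prp b m D := fun i hi => h i (by omega)

lemma Prp.lt {b k : ℕ} {D : ℕ → Finset ℕ} (h : Prp b (k + 1) D) : ∀ d ∈ D 0, d < b :=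
  (h 0 (by omega)).2.1

lemma SD_card (b : ℕ) : ∀ (k : ℕ) (D : ℕ → Finset ℕ), Prp b k D →
    (SD b k D).card = ∏ i ∈ range k, (D i).card := by
  intro k
  induction k with
  | zero => intro D _; simp [SD]
  | succ k ih =>
    intro D h
    rw [SD, comb_card h.lt, ih _ h.tail, Finset.prod_range_succ', mul_comm]

lemma SD_lt (b : ℕ) : ∀ (k : ℕ) (D : ℕ → Finset ℕ), Prp b k D → ∀ n ∈ SD b k D, n < b ^ k := by
  intro k
  induction k with
  | zero => intro D _ n hn; simp [SD] at hn; simp [hn]
  | succ k ih =>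
    intro D h n hn
    rw [pow_succ, mul_comm]
    exact comb_lt h.lt (ih _ h.tail) n hn

lemma mem_SD (b : ℕ) : ∀ (k : ℕ) (D : ℕ → Finset ℕ), Prp b k D → ∀ n, n ∈ SD b k D ↔
    n < b ^ k ∧ ∀ i < k, n / b ^ i % b ∈ D i := by
  intro k
  induction k with
  | zero =>
    intro D _ n
    simp [SD]
  | succ k ih =>
    intro D h n
    have hb0 : 0 < b := by
      obtain ⟨d, hd⟩ := (h 0 (by omega)).1
      exact lt_of_le_of_lt (Nat.zero_le _) (h.lt d hd)
    rw [SD, mem_comb h.lt, ih _ h.tail]
    constructor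
    · rintro ⟨h1, h2, h3⟩
      refine ⟨?_, fun i hi => ?_⟩
      · rw [pow_succ, mul_comm]
        exact (Nat.div_lt_iff_lt_mul hb0).1 h2 |>.trans_le (le_of_eq (mul_comm _ _))
      · rcases Nat.eq_zero_or_pos i with rfl | hi0
        · rw [pow_zero, Nat.div_one]
          exact h1
        · have h4 := h3 (i - 1) (by omega)
          rw [Nat.div_div_eq_div_mul, ← pow_succ', show i - 1 + 1 = i by omega] at h4
          exact h4
    · rintro ⟨h1, h2⟩
      refine ⟨?_, ?_, fun i hi => ?_⟩
      · have := h2 0 (by omega)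
        rwa [pow_zero, Nat.div_one] at this
      · rw [Nat.div_lt_iff_lt_mul hb0, ← pow_succ]
        exact h1
      · have h4 := h2 (i + 1) (by omega)
        rw [Nat.div_div_eq_div_mul, ← pow_succ']
        exact h4

/-- cutting the digits -/
lemma SD_add (b : ℕ) : ∀ (j m : ℕ) (D : ℕ → Finset ℕ), Prp b (j + m) D →
    SD b (j + m) D = comb (b ^ j) (SD b j D) (SD b m (fun i => D (j + i))) := by
  intro j
  induction j with
  | zero =>
    intro m D h
    ext n
    rw [mem_comb (by intro e he; simp [SD] at he; simp [he])]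
    simp [SD, Nat.mod_one]
  | succ j ih =>
    intro m D h
    have h0 : j + 1 + m = (j + m) + 1 := by ring
    rw [h0] at h ⊢
    have h1 : Prp b (j + m) (fun i => D (i + 1)) := h.tail
    rw [SD, ih m _ h1, SD, comb_assoc h.lt (SD_lt b j _ (h1.mono (by omega))), pow_succ']
    have e : (fun i => D (j + 1 + i)) = (fun i => D (j + i + 1)) := by
      funext i
      congr 1
      ring
    rw [e]

/-- the number of the places with at least two digits -/
def Gd (D : ℕ → Finset ℕ) (k : ℕ) : ℕ := ∑ i ∈ range k, if 2 ≤ (D i).card then 1 else 0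

lemma Gd_succ (D : ℕ → Finset ℕ) (k : ℕ) :
    Gd D (k + 1) = Gd (fun i => D (i + 1)) k + if 2 ≤ (D 0).card then 1 else 0 := by
  unfold Gd
  rw [Finset.sum_range_succ']

lemma card_le_Gd (b : ℕ) : ∀ (k : ℕ) (D : ℕ → Finset ℕ), Prp b k D →
    (SD b k D).card ≤ b ^ Gd D k := by
  intro k
  induction k with
  | zero => intro D _; simp [SD, Gd]
  | succ k ih =>
    intro D h
    rw [SD, comb_card h.lt, Gd_succ, pow_add, mul_comm]
    apply Nat.mul_le_mul (ih _ h.tail)
    split_ifs with h2
    · rw [pow_one]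
      have h3 : D 0 ⊆ range b := fun d hd => Finset.mem_range.2 (h.lt d hd)
      have := Finset.card_le_card h3
      rwa [Finset.card_range] at this
    · rw [pow_zero]
      omega

/-- **the additive energy** -/
theorem energy (b : ℕ) (hb : 2 ≤ b) : ∀ (k : ℕ) (D : ℕ → Finset ℕ), Prp b k D →
    ∀ c : ℤ, |c| ≤ 1 → ((trip (SD b k D) (b ^ k) c).card : ℝ) ≤
      (1 - 1 / (b : ℝ) ^ 6) ^ (Gd D k / 2) * ((SD b k D).card : ℝ) ^ 3 := by
  classical
  have hb0 : (0 : ℝ) < b := by exact_mod_cast (by omega : 0 < b)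
  have hb1 : (1 : ℝ) ≤ b := by exact_mod_cast (by omega : 1 ≤ b)
  set ρ : ℝ := 1 - 1 / (b : ℝ) ^ 6 with hρ
  have hρ0 : 0 ≤ ρ := by
    rw [hρ, sub_nonneg, div_le_one (by positivity)]
    exact one_le_pow₀ hb1
  have hρ1 : ρ ≤ 1 := by
    rw [hρ]
    have : 0 ≤ 1 / (b : ℝ) ^ 6 := by positivity
    linarith
  intro k
  induction k using Nat.strong_induction_on with
  | _ k ih =>
  intro D h c hc
  have htriv : ((trip (SD b k D) (b ^ k) c).card : ℝ) ≤ ((SD b k D).card : ℝ) ^ 3 := by
    exact_mod_cast trip_card _ _ _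
  match k, ih, h, htriv with
  | 0, _, _, htriv =>
    have h0 : Gd D 0 / 2 = 0 := by simp [Gd]
    rw [h0, pow_zero ρ, one_mul]
    exact htriv
  | 1, _, _, htriv =>
    have : Gd D 1 / 2 = 0 := by
      unfold Gd
      rw [Finset.sum_range_one]
      split_ifs <;> rfl
    rw [this, pow_zero ρ, one_mul]
    exact htriv
  | k + 2, ih, h, _ =>
    by_cases h2 : 2 ≤ (D 0).card
    · -- two digits
      have ht : Prp b k (fun i => D (i + 1 + 1)) := h.tail.tail
      obtain ⟨hne0, hlt0, hm0⟩ := h 0 (by omega)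
      obtain ⟨hne1, hlt1, hm1⟩ := h 1 (by omega)
      set S := SD b k (fun i => D (i + 1 + 1)) with hS
      have e1 : SD b (k + 2) D = comb (b * b) (comb b (D 0) (D 1)) S := by
        rw [SD, SD, comb_assoc hlt0 hlt1]
      have hE : ∀ e ∈ comb b (D 0) (D 1), e < b * b := comb_lt hlt0 hlt1
      have e2 : b ^ (k + 2) = b * b * b ^ k := by ring
      set M : ℕ := ⌊ρ ^ (Gd (fun i => D (i + 1 + 1)) k / 2) * (S.card : ℝ) ^ 3⌋₊ with hM
      have h3 := step (b * b) (b ^ k) (comb b (D 0) (D 1)) S hE c hc M (by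
        intro c' hc'
        exact Nat.le_floor (ih k (by omega) _ ht c' hc'))
      rw [← e1, ← e2] at h3
      have h4 := pair b (D 0) (D 1) hne1 h2 hlt0 hlt1 hm0 hm1 c hc
      have h5 : ((trip (comb b (D 0) (D 1)) (b * b) c).card : ℝ) ≤
          ρ * (((D 0).card : ℝ) * (D 1).card) ^ 3 := by
        have h6 : ((trip (comb b (D 0) (D 1)) (b * b) c).card : ℝ) + 1 ≤
            (((D 0).card : ℝ) * (D 1).card) ^ 3 := by exact_mod_cast h4
        have h7 : (((D 0).card : ℝ) * (D 1).card) ^ 3 ≤ (b : ℝ) ^ 6 := by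
          have g0 : ((D 0).card : ℝ) ≤ b := by
            have h8 : D 0 ⊆ range b := fun d hd => Finset.mem_range.2 (hlt0 d hd)
            have := Finset.card_le_card h8
            rw [Finset.card_range] at this
            exact_mod_cast this
          have g1 : ((D 1).card : ℝ) ≤ b := by
            have h8 : D 1 ⊆ range b := fun d hd => Finset.mem_range.2 (hlt1 d hd)
            have := Finset.card_le_card h8
            rw [Finset.card_range] at this
            exact_mod_cast this
          calc (((D 0).card : ℝ) * (D 1).card) ^ 3 ≤ ((b : ℝ) * b) ^ 3 :=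
                pow_le_pow_left₀ (by positivity) (mul_le_mul g0 g1 (Nat.cast_nonneg _) hb0.le) 3
            _ = _ := by ring
        have h9 : (((D 0).card : ℝ) * (D 1).card) ^ 3 / (b : ℝ) ^ 6 ≤ 1 := by
          rw [div_le_one (by positivity)]
          exact h7
        have e3 : ρ * (((D 0).card : ℝ) * (D 1).card) ^ 3 = (((D 0).card : ℝ) * (D 1).card) ^ 3 -
            (((D 0).card : ℝ) * (D 1).card) ^ 3 / (b : ℝ) ^ 6 := by
          rw [hρ]
          ring
        rw [e3]
        linarith
      have h10 : (M : ℝ) ≤ ρ ^ (Gd (fun i => D (i + 1 + 1)) k / 2) * (S.card : ℝ) ^ 3 :=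
        Nat.floor_le (by positivity)
      have h11 : ((trip (SD b (k + 2) D) (b ^ (k + 2)) c).card : ℝ) ≤
          M * ((trip (comb b (D 0) (D 1)) (b * b) c).card : ℝ) := by exact_mod_cast h3
      have hcard : ((SD b (k + 2) D).card : ℝ) = ((D 0).card * (D 1).card) * S.card := by
        rw [e1, comb_card hE, comb_card hlt0]
        push_cast
        ring
      have hG : Gd D (k + 2) / 2 ≤ Gd (fun i => D (i + 1 + 1)) k / 2 + 1 := by
        have g1 := Gd_succ D (k + 1)
        have g2 := Gd_succ (fun i => D (i + 1)) k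
        have g3 : Gd D (k + 2) ≤ Gd (fun i => D (i + 1 + 1)) k + 2 := by
          have e0 : k + 1 + 1 = k + 2 := rfl
          rw [e0] at g1
          rw [g1, g2]
          split_ifs <;> omega
        omega
      calc ((trip (SD b (k + 2) D) (b ^ (k + 2)) c).card : ℝ)
          ≤ M * ((trip (comb b (D 0) (D 1)) (b * b) c).card : ℝ) := h11
        _ ≤ (ρ ^ (Gd (fun i => D (i + 1 + 1)) k / 2) * (S.card : ℝ) ^ 3) *
            (ρ * (((D 0).card : ℝ) * (D 1).card) ^ 3) :=
            mul_le_mul h10 h5 (Nat.cast_nonneg _) (by positivity)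
        _ = ρ ^ (Gd (fun i => D (i + 1 + 1)) k / 2 + 1) * ((SD b (k + 2) D).card : ℝ) ^ 3 := by
            rw [hcard, pow_succ]
            ring
        _ ≤ _ := by
            apply mul_le_mul_of_nonneg_right _ (by positivity)
            exact pow_le_pow_of_le_one hρ0 hρ1 hG
    · -- one digit
      have ht : Prp b (k + 1) (fun i => D (i + 1)) := h.tail
      obtain ⟨hne0, hlt0, hm0⟩ := h 0 (by omega)
      set S := SD b (k + 1) (fun i => D (i + 1)) with hS
      have e1 : SD b (k + 2) D = comb b (D 0) S := rfl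
      have e2 : b ^ (k + 2) = b * b ^ (k + 1) := by ring
      set M : ℕ := ⌊ρ ^ (Gd (fun i => D (i + 1)) (k + 1) / 2) * (S.card : ℝ) ^ 3⌋₊ with hM
      have h3 := step b (b ^ (k + 1)) (D 0) S hlt0 c hc M (by
        intro c' hc'
        exact Nat.le_floor (ih (k + 1) (by omega) _ ht c' hc'))
      rw [← e1, ← e2] at h3
      have h10 : (M : ℝ) ≤ ρ ^ (Gd (fun i => D (i + 1)) (k + 1) / 2) * (S.card : ℝ) ^ 3 :=
        Nat.floor_le (by positivity)
      have h11 : ((trip (SD b (k + 2) D) (b ^ (k + 2)) c).card : ℝ) ≤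
          M * ((trip (D 0) b c).card : ℝ) := by exact_mod_cast h3
      have hcard : ((SD b (k + 2) D).card : ℝ) = (D 0).card * S.card := by
        rw [e1, comb_card hlt0]
        push_cast
        ring
      have hG : Gd D (k + 2) = Gd (fun i => D (i + 1)) (k + 1) := by
        have g1 := Gd_succ D (k + 1)
        rw [if_neg h2, add_zero] at g1
        exact g1
      have h12 : ((trip (D 0) b c).card : ℝ) ≤ ((D 0).card : ℝ) ^ 3 := by
        exact_mod_cast trip_card _ _ _
      calc ((trip (SD b (k + 2) D) (b ^ (k + 2)) c).card : ℝ)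
          ≤ M * ((trip (D 0) b c).card : ℝ) := h11
        _ ≤ (ρ ^ (Gd (fun i => D (i + 1)) (k + 1) / 2) * (S.card : ℝ) ^ 3) *
            ((D 0).card : ℝ) ^ 3 :=
            mul_le_mul h10 h12 (Nat.cast_nonneg _) (by positivity)
        _ = _ := by
            rw [hcard, hG]
            ring

end Pool.Agent.Q263.PG
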