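import Mathlib
import Pool.Agent.Q263.PG.Set

/-!
The third moment of the number of representations as a difference.
-/

set_option autoImplicit false

open Finset

namespace Pool.Agent.Q263.PG

/-- triples of pairs with equal differences -/
noncomputable def t3 (Y : Finset ℕ) : Finset ((ℕ × ℕ) × (ℕ × ℕ) × (ℕ × ℕ)) := by
  classical
  exact ((Y ×ˢ Y) ×ˢ (Y ×ˢ Y) ×ˢ (Y ×ˢ Y)).filter (fun t =>
    t.1.1 + t.2.1.2 = t.1.2 + t.2.1.1 ∧ t.1.1 + t.2.2.2 = t.1.2 + t.2.2.1)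

lemma mem_t3 {Y : Finset ℕ} {t : (ℕ × ℕ) × (ℕ × ℕ) × (ℕ × ℕ)} : t ∈ t3 Y ↔
    ((t.1.1 ∈ Y ∧ t.1.2 ∈ Y) ∧ (t.2.1.1 ∈ Y ∧ t.2.1.2 ∈ Y) ∧ (t.2.2.1 ∈ Y ∧ t.2.2.2 ∈ Y)) ∧
      t.1.1 + t.2.1.2 = t.1.2 + t.2.1.1 ∧ t.1.1 + t.2.2.2 = t.1.2 + t.2.2.1 := by
  unfold t3
  rw [Finset.mem_filter, Finset.mem_product, Finset.mem_product, Finset.mem_product,
    Finset.mem_product, Finset.mem_product]

/-- the third moment and the energy -/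
lemma t3_le (Y : Finset ℕ) (Q : ℕ) : (t3 Y).card ≤ Y.card * (trip Y Q 0).card := by
  rw [← Finset.card_product]
  apply Finset.card_le_card_of_injOn (fun t : (ℕ × ℕ) × (ℕ × ℕ) × (ℕ × ℕ) =>
    (t.2.2.2, (t.1.1, t.2.1.2, t.1.2)))
  · rintro ⟨⟨y1, y2⟩, ⟨y3, y4⟩, ⟨y5, y6⟩⟩ ht
    have h := mem_t3.1 (Finset.mem_coe.1 ht)
    dsimp only at h
    rw [Finset.mem_coe, Finset.mem_product, mem_trip]
    refine ⟨h.1.2.2.2, ⟨h.1.1.1, h.1.2.1.2, h.1.1.2⟩, y3, h.1.2.1.1, ?_⟩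
    have g : (y1 : ℤ) + y4 - y2 + 0 - y3 = 0 := by
      have : (y1 : ℤ) + y4 = y2 + y3 := by exact_mod_cast h.2.1
      linarith
    dsimp only
    rw [g]
    exact dvd_zero _
  · rintro ⟨⟨y1, y2⟩, ⟨y3, y4⟩, ⟨y5, y6⟩⟩ ht ⟨⟨z1, z2⟩, ⟨z3, z4⟩, ⟨z5, z6⟩⟩ ht' heq
    have h := (mem_t3.1 (Finset.mem_coe.1 ht)).2
    have h' := (mem_t3.1 (Finset.mem_coe.1 ht')).2
    dsimp only at h h'
    simp only [Prod.mk.injEq] at heq ⊢
    omega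

/-- no carries -/
lemma t3_comb (B : ℕ) (E S : Finset ℕ) (hE : ∀ e ∈ E, e < B)
    (hno : ∀ x ∈ E, ∀ y ∈ E, ∀ z ∈ E, ∀ w ∈ E,
      (B : ℤ) ∣ (x : ℤ) + y - z - w → (x : ℤ) + y - z - w = 0) :
    (t3 (comb B E S)).card ≤ (t3 E).card * (t3 S).card := by
  classical
  rw [← Finset.card_product]
  have key : ∀ a ∈ comb B E S, ∀ b ∈ comb B E S, ∀ c ∈ comb B E S, ∀ d ∈ comb B E S,
      a + b = c + d → a % B + b % B = c % B + d % B ∧ a / B + b / B = c / B + d / B := by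
    intro a ha b hb c hc d hd h
    rw [mem_comb hE] at ha hb hc hd
    have hB : 0 < B := by
      have := hE _ ha.1
      omega
    have hB0 : (B : ℤ) ≠ 0 := by exact_mod_cast hB.ne'
    have e1 : ∀ n : ℕ, (n : ℤ) = ((n % B : ℕ) : ℤ) + B * (n / B : ℕ) := fun n => by
      exact_mod_cast (Nat.mod_add_div n B).symm
    have ea := e1 a
    have eb := e1 b
    have ec := e1 c
    have ed := e1 d
    have hZ : (a : ℤ) + b = c + d := by exact_mod_cast h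
    have h1 : ((a % B : ℕ) : ℤ) + (b % B : ℕ) - (c % B : ℕ) - (d % B : ℕ) =
        B * (((c / B : ℕ) : ℤ) + (d / B : ℕ) - (a / B : ℕ) - (b / B : ℕ)) := by
      linear_combination hZ - ea - eb + ec + ed
    have h2 := hno _ ha.1 _ hb.1 _ hc.1 _ hd.1 ⟨_, h1⟩
    have h3 : ((c / B : ℕ) : ℤ) + (d / B : ℕ) - (a / B : ℕ) - (b / B : ℕ) = 0 := by
      rw [h2] at h1
      exact (mul_eq_zero.1 h1.symm).resolve_left hB0
    constructor <;> omega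
  apply Finset.card_le_card_of_injOn (fun t : (ℕ × ℕ) × (ℕ × ℕ) × (ℕ × ℕ) =>
    (((t.1.1 % B, t.1.2 % B), (t.2.1.1 % B, t.2.1.2 % B), (t.2.2.1 % B, t.2.2.2 % B)),
      ((t.1.1 / B, t.1.2 / B), (t.2.1.1 / B, t.2.1.2 / B), (t.2.2.1 / B, t.2.2.2 / B))))
  · rintro ⟨⟨y1, y2⟩, ⟨y3, y4⟩, ⟨y5, y6⟩⟩ ht
    obtain ⟨⟨⟨g1, g2⟩, ⟨g3, g4⟩, g5, g6⟩, k1, k2⟩ := mem_t3.1 (Finset.mem_coe.1 ht)
    dsimp only at g1 g2 g3 g4 g5 g6 k1 k2
    have l1 := key y1 g1 y4 g4 y2 g2 y3 g3 k1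
    have l2 := key y1 g1 y6 g6 y2 g2 y5 g5 k2
    rw [mem_comb hE] at g1 g2 g3 g4 g5 g6
    rw [Finset.mem_coe, Finset.mem_product, mem_t3, mem_t3]
    exact ⟨⟨⟨⟨g1.1, g2.1⟩, ⟨g3.1, g4.1⟩, g5.1, g6.1⟩, l1.1, l2.1⟩,
      ⟨⟨g1.2, g2.2⟩, ⟨g3.2, g4.2⟩, g5.2, g6.2⟩, l1.2, l2.2⟩
  · rintro ⟨⟨y1, y2⟩, ⟨y3, y4⟩, ⟨y5, y6⟩⟩ _ ⟨⟨z1, z2⟩, ⟨z3, z4⟩, ⟨z5, z6⟩⟩ _ heq
    simp only [Prod.mk.injEq] at heq ⊢
    obtain ⟨⟨⟨a1, a2⟩, ⟨a3, a4⟩, a5, a6⟩, ⟨b1, b2⟩, ⟨b3, b4⟩, b5, b6⟩ := heq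
    refine ⟨⟨?_, ?_⟩, ⟨?_, ?_⟩, ?_, ?_⟩
    · rw [← Nat.mod_add_div y1 B, ← Nat.mod_add_div z1 B, a1, b1]
    · rw [← Nat.mod_add_div y2 B, ← Nat.mod_add_div z2 B, a2, b2]
    · rw [← Nat.mod_add_div y3 B, ← Nat.mod_add_div z3 B, a3, b3]
    · rw [← Nat.mod_add_div y4 B, ← Nat.mod_add_div z4 B, a4, b4]
    · rw [← Nat.mod_add_div y5 B, ← Nat.mod_add_div z5 B, a5, b5]
    · rw [← Nat.mod_add_div y6 B, ← Nat.mod_add_div z6 B, a6, b6]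

/-- nonempty sets of digits which are Sidon sets modulo `b` -/
def Sid (b k : ℕ) (D : ℕ → Finset ℕ) : Prop :=
  ∀ i < k, (D i).Nonempty ∧ (∀ d ∈ D i, d < b) ∧
    ∀ x ∈ D i, ∀ y ∈ D i, ∀ z ∈ D i, ∀ w ∈ D i, (x + y) % b = (z + w) % b →
      (x = z ∧ y = w) ∨ (x = w ∧ y = z)

lemma Sid.tail {b k : ℕ} {D : ℕ → Finset ℕ} (h : Sid b (k + 1) D) :
    Sid b k (fun i => D (i + 1)) := fun i hi => h (i + 1) (by omega)

lemma Sid.mono {b k m : ℕ} {D : ℕ → Finset ℕ} (h : Sid b k D) (hm : m ≤ k) :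
    Sid b m D := fun i hi => h i (by omega)

lemma Sid.prp {b k : ℕ} (hb : 3 ≤ b) {D : ℕ → Finset ℕ} (h : Sid b k D) : Prp b k D := by
  intro i hi
  obtain ⟨h1, h2, h3⟩ := h i hi
  refine ⟨h1, h2, ?_⟩
  by_contra hcon
  push Not at hcon
  have h4 := h3 0 (hcon 0 (by omega)) 0 (hcon 0 (by omega)) 1 (hcon 1 (by omega)) (b - 1)
    (hcon (b - 1) (by omega)) (by
      rw [show 1 + (b - 1) = b by omega, Nat.mod_self, Nat.zero_mod])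
  omega

/-- no carries -/
lemma Sid.nocarry {b k : ℕ} {D : ℕ → Finset ℕ} (h : Sid b (k + 1) D) :
    ∀ x ∈ D 0, ∀ y ∈ D 0, ∀ z ∈ D 0, ∀ w ∈ D 0,
      (b : ℤ) ∣ (x : ℤ) + y - z - w → (x : ℤ) + y - z - w = 0 := by
  obtain ⟨_, _, h3⟩ := h 0 (by omega)
  intro x hx y hy z hz w hw hd
  have h4 : (x + y) % b = (z + w) % b := by
    have h5 : (b : ℤ) ∣ ((x + y : ℕ) : ℤ) - ((z + w : ℕ) : ℤ) := by
      push_cast
      have e : (x : ℤ) + y - (z + w) = x + y - z - w := by ring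
      rw [e]
      exact hd
    exact ((Nat.modEq_iff_dvd.2 h5).symm : _)
  rcases h3 x hx y hy z hz w hw h4 with ⟨rfl, rfl⟩ | ⟨rfl, rfl⟩ <;> ring

/-- Sidon sets of digits -/
lemma t3_sidon (D : Finset ℕ)
    (h : ∀ x ∈ D, ∀ y ∈ D, ∀ z ∈ D, ∀ w ∈ D, x + y = z + w → (x = z ∧ y = w) ∨ (x = w ∧ y = z)) :
    (t3 D).card + D.card ≤ D.card ^ 3 + D.card ^ 2 := by
  classical
  have h1 : t3 D ⊆ ((D ×ˢ D) ×ˢ D).image (fun s => ((s.1.1, s.1.1), (s.1.2, s.1.2), (s.2, s.2))) ∪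
      D.offDiag.image (fun s => ((s.1, s.2), (s.1, s.2), (s.1, s.2))) := by
    rintro ⟨⟨y1, y2⟩, ⟨y3, y4⟩, ⟨y5, y6⟩⟩ ht
    obtain ⟨⟨⟨g1, g2⟩, ⟨g3, g4⟩, g5, g6⟩, k1, k2⟩ := mem_t3.1 ht
    dsimp only at g1 g2 g3 g4 g5 g6 k1 k2
    rw [Finset.mem_union, Finset.mem_image, Finset.mem_image]
    by_cases h12 : y1 = y2
    · left
      refine ⟨((y1, y3), y5), ?_, ?_⟩
      · rw [Finset.mem_product, Finset.mem_product]
        exact ⟨⟨g1, g3⟩, g5⟩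
      · have e1 : y3 = y4 := by omega
        have e2 : y5 = y6 := by omega
        subst h12
        subst e1
        subst e2
        rfl
    · right
      refine ⟨(y1, y2), Finset.mem_offDiag.2 ⟨g1, g2, h12⟩, ?_⟩
      rcases h y1 g1 y4 g4 y2 g2 y3 g3 k1 with ⟨a1, a2⟩ | ⟨a1, a2⟩
      · exact absurd a1 h12
      · rcases h y1 g1 y6 g6 y2 g2 y5 g5 k2 with ⟨b1, b2⟩ | ⟨b1, b2⟩
        · exact absurd b1 h12
        · subst a1
          subst a2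
          subst b1
          subst b2
          rfl
  have h2 := (Finset.card_le_card h1).trans (Finset.card_union_le _ _)
  have h3 : (((D ×ˢ D) ×ˢ D).image
      (fun s : (ℕ × ℕ) × ℕ => ((s.1.1, s.1.1), (s.1.2, s.1.2), (s.2, s.2)))).card ≤
      D.card ^ 3 := by
    refine Finset.card_image_le.trans (le_of_eq ?_)
    rw [Finset.card_product, Finset.card_product]
    ring
  have h4 : (D.offDiag.image
      (fun s : ℕ × ℕ => ((s.1, s.2), (s.1, s.2), (s.1, s.2)))).card ≤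
      D.card * D.card - D.card := by
    refine Finset.card_image_le.trans (le_of_eq ?_)
    rw [Finset.offDiag_card]
  have h5 : D.card ≤ D.card * D.card := Nat.le_mul_self _
  have h6 : D.card ^ 2 = D.card * D.card := sq _
  omega

/-- `m ^ 3 + m ^ 2 - m ≤ m ^ 3.325` -/
lemma exp_le (m : ℕ) (hm : 1 ≤ m) : ((m : ℝ) ^ 3 + (m : ℝ) ^ 2 - m) ≤ (m : ℝ) ^ (133 / 40 : ℝ) := by
  have hm0 : (0 : ℝ) < m := by exact_mod_cast hm
  -- the fortieth power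
  have h40 : ∀ x : ℝ, 0 ≤ x → x ^ 40 ≤ (m : ℝ) ^ 133 → x ≤ (m : ℝ) ^ (133 / 40 : ℝ) := by
    intro x hx h
    have h1 : ((m : ℝ) ^ (133 / 40 : ℝ)) ^ 40 = (m : ℝ) ^ 133 := by
      rw [← Real.rpow_natCast ((m : ℝ) ^ (133 / 40 : ℝ)), ← Real.rpow_mul hm0.le,
        ← Real.rpow_natCast]
      norm_num
    rw [← h1] at h
    exact (pow_le_pow_iff_left₀ hx (by positivity) (by norm_num)).1 h
  rcases Nat.lt_or_ge m 3 with h3 | h3
  · have h4 : m = 1 ∨ m = 2 := by omega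
    rcases h4 with rfl | rfl
    · norm_num
    · apply h40 _ (by norm_num)
      norm_num
  · have h3' : (3 : ℝ) ≤ m := by exact_mod_cast h3
    have h5 : (m : ℝ) ^ 3 + (m : ℝ) ^ 2 - m ≤ (4 / 3) * (m : ℝ) ^ 3 := by
      have h6 : (m : ℝ) ^ 2 * 3 ≤ (m : ℝ) ^ 2 * m := mul_le_mul_of_nonneg_left h3' (by positivity)
      have h7 : (m : ℝ) ^ 2 * m = (m : ℝ) ^ 3 := by ring
      linarith
    refine h5.trans (h40 _ (by positivity) ?_)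
    rw [mul_pow, ← pow_mul]
    calc (4 / 3 : ℝ) ^ 40 * (m : ℝ) ^ (3 * 40) ≤ (3 : ℝ) ^ 13 * (m : ℝ) ^ (3 * 40) :=
          mul_le_mul_of_nonneg_right (by norm_num) (by positivity)
      _ ≤ (m : ℝ) ^ 13 * (m : ℝ) ^ (3 * 40) :=
          mul_le_mul_of_nonneg_right (pow_le_pow_left₀ (by norm_num) h3' 13) (by positivity)
      _ = _ := by rw [← pow_add]

/-- **the third moment of a set with Sidon sets of digits** -/
theorem t3_digits (b : ℕ) : ∀ (k : ℕ) (D : ℕ → Finset ℕ), Sid b k D →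
    ((t3 (SD b k D)).card : ℝ) ≤ ((SD b k D).card : ℝ) ^ (133 / 40 : ℝ) := by
  intro k
  induction k with
  | zero =>
    intro D _
    have h0 := t3_le (SD b 0 D) 1
    have h1 := trip_card (SD b 0 D) 1 0
    have h2 : (SD b 0 D).card = 1 := by simp [SD]
    rw [h2] at h0 h1 ⊢
    have h3 : (t3 (SD b 0 D)).card ≤ 1 := h0.trans (by rw [one_mul]; simpa using h1)
    rw [Nat.cast_one, Real.one_rpow]
    exact_mod_cast h3
  | succ k ih =>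
    intro D h
    obtain ⟨h1, h2, h3⟩ := h 0 (by omega)
    have h5 := t3_comb b (D 0) (SD b k (fun i => D (i + 1))) h2 (Sid.nocarry h)
    have h6 := t3_sidon (D 0) (fun x hx y hy z hz w hw e => h3 x hx y hy z hz w hw (by rw [e]))
    have h7 := exp_le (D 0).card (Finset.card_pos.2 h1)
    have h8 : ((t3 (D 0)).card : ℝ) ≤ ((D 0).card : ℝ) ^ (133 / 40 : ℝ) := by
      have h9 : ((t3 (D 0)).card : ℝ) + (D 0).card ≤ ((D 0).card : ℝ) ^ 3 + ((D 0).card : ℝ) ^ 2 := by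
        exact_mod_cast h6
      linarith
    rw [SD, comb_card h2]
    push_cast
    rw [Real.mul_rpow (Nat.cast_nonneg _) (Nat.cast_nonneg _)]
    calc ((t3 (comb b (D 0) (SD b k (fun i => D (i + 1))))).card : ℝ) ≤
          ((t3 (D 0)).card : ℝ) * ((t3 (SD b k (fun i => D (i + 1)))).card : ℝ) := by
          exact_mod_cast h5
      _ ≤ _ := mul_le_mul h8 (ih _ h.tail) (Nat.cast_nonneg _) (by positivity)

end Pool.Agent.Q263.PG
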