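import Pool.Agent.W27.BG.Good
import Pool.Agent.TH322.CS.Core

/-!
Moments of `∑ χ (u + w) conj (χ (v + w))` over the plane, and the core estimate for weights on the
plane with small `ℓ²` norm.
-/

set_option autoImplicit false

namespace Pool.Agent.Q263.PG

open Finset Pool.Agent.H471R4.BW Pool.Agent.H435R3.Paley Pool.Agent.W27.BG

theorem expand2 {N : ℕ} [NeZero N] (χ : DirichletCharacter ℂ N) (r n : ℕ) (w : Fin n → ZMod N)
    (x y : ZMod N) :
    ((‖∑ j, χ (x + w j) * (starRingEnd ℂ) (χ (y + w j))‖ ^ (2 * r) : ℝ) : ℂ) =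
      ∑ b : Fin r → Fin n, ∑ c : Fin r → Fin n,
        term χ r n w b c x * (starRingEnd ℂ) (term χ r n w b c y) := by
  set S : ℂ := ∑ j, χ (x + w j) * (starRingEnd ℂ) (χ (y + w j)) with hS
  have h1 : ((‖S‖ ^ (2 * r) : ℝ) : ℂ) = S ^ r * (starRingEnd ℂ) S ^ r := by
    rw [← mul_pow, Complex.mul_conj, Complex.normSq_eq_norm_sq, pow_mul]
    push_cast
    ring
  have h2 : S ^ r = ∑ b : Fin r → Fin n,
      ∏ i, (χ (x + w (b i)) * (starRingEnd ℂ) (χ (y + w (b i)))) := by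
    rw [hS, ← Fin.prod_const, Finset.prod_univ_sum, Fintype.piFinset_univ]
  have h3 : (starRingEnd ℂ) S ^ r = ∑ c : Fin r → Fin n,
      ∏ i, ((starRingEnd ℂ) (χ (x + w (c i))) * χ (y + w (c i))) := by
    rw [hS, map_sum, ← Fin.prod_const, Finset.prod_univ_sum, Fintype.piFinset_univ]
    simp only [map_mul, Complex.conj_conj]
  rw [h1, h2, h3, Finset.sum_mul_sum]
  refine Finset.sum_congr rfl fun b _ => Finset.sum_congr rfl fun c _ => ?_
  rw [Finset.prod_mul_distrib, Finset.prod_mul_distrib]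
  unfold term
  rw [map_mul, map_prod, map_prod]
  simp only [Complex.conj_conj]
  ring

open Classical in
/-- high moment over all pairs of shifts, for one character -/
theorem momB2 {N : ℕ} [NeZero N] (χ : DirichletCharacter ℂ N) (r n : ℕ) (K : ℝ) (hr : 1 ≤ r)
    (w : Fin n → ZMod N) (hw : Function.Injective w) (hC : Complete N χ r N K) :
    ∑ x : ZMod N, ∑ y : ZMod N, ‖∑ j, χ (x + w j) * (starRingEnd ℂ) (χ (y + w j))‖ ^ (2 * r) ≤
      (r : ℝ) ^ (2 * r) * (n : ℝ) ^ r * (N : ℝ) ^ 2 + K ^ 2 * (n : ℝ) ^ (2 * r) * N := by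
  have hW : ((∑ x : ZMod N, ∑ y : ZMod N,
      ‖∑ j, χ (x + w j) * (starRingEnd ℂ) (χ (y + w j))‖ ^ (2 * r) : ℝ) : ℂ) =
      ∑ u : (Fin r → Fin n) × (Fin r → Fin n),
        ((‖∑ x : ZMod N, term χ r n w u.1 u.2 x‖ ^ 2 : ℝ) : ℂ) := by
    have e1 : ∀ u : (Fin r → Fin n) × (Fin r → Fin n),
        ((‖∑ x : ZMod N, term χ r n w u.1 u.2 x‖ ^ 2 : ℝ) : ℂ) =
        ∑ x : ZMod N, ∑ y : ZMod N,
          term χ r n w u.1 u.2 x * (starRingEnd ℂ) (term χ r n w u.1 u.2 y) := by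
      intro u
      rw [← Complex.normSq_eq_norm_sq, ← Complex.mul_conj, map_sum, Finset.sum_mul_sum]
    have e2 : ∑ u : (Fin r → Fin n) × (Fin r → Fin n), ∑ x : ZMod N, ∑ y : ZMod N,
          term χ r n w u.1 u.2 x * (starRingEnd ℂ) (term χ r n w u.1 u.2 y) =
        ∑ x : ZMod N, ∑ y : ZMod N, ∑ u : (Fin r → Fin n) × (Fin r → Fin n),
          term χ r n w u.1 u.2 x * (starRingEnd ℂ) (term χ r n w u.1 u.2 y) := by
      rw [Finset.sum_comm]
      refine Finset.sum_congr rfl fun x _ => ?_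
      rw [Finset.sum_comm]
    rw [Finset.sum_congr rfl (fun u _ => e1 u), e2, Complex.ofReal_sum]
    apply Finset.sum_congr rfl
    intro x _
    rw [Complex.ofReal_sum]
    apply Finset.sum_congr rfl
    intro y _
    rw [expand2 χ r n w x y, ← Finset.univ_product_univ, Finset.sum_product]
  have hW1 : ∑ x : ZMod N, ∑ y : ZMod N,
      ‖∑ j, χ (x + w j) * (starRingEnd ℂ) (χ (y + w j))‖ ^ (2 * r) =
      ∑ u : (Fin r → Fin n) × (Fin r → Fin n),
        ‖∑ x : ZMod N, term χ r n w u.1 u.2 x‖ ^ 2 := by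
    exact_mod_cast hW
  rw [hW1]
  rw [← Finset.sum_filter_add_sum_filter_not Finset.univ
    (fun u : (Fin r → Fin n) × (Fin r → Fin n) =>
      ¬ Uniq (fun i => (u.1 i : ℕ)) (fun i => (u.2 i : ℕ)))]
  refine add_le_add ?_ ?_
  · have h1 : ∀ u ∈ Finset.univ.filter (fun u : (Fin r → Fin n) × (Fin r → Fin n) =>
        ¬ Uniq (fun i => (u.1 i : ℕ)) (fun i => (u.2 i : ℕ))),
        ‖∑ x : ZMod N, term χ r n w u.1 u.2 x‖ ^ 2 ≤ (N : ℝ) ^ 2 := by
      intro u _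
      refine pow_le_pow_left₀ (norm_nonneg _) ?_ 2
      refine (norm_sum_le _ _).trans ?_
      calc ∑ x : ZMod N, ‖term χ r n w u.1 u.2 x‖ ≤ ∑ _x : ZMod N, (1 : ℝ) :=
            Finset.sum_le_sum fun x _ => term_norm_le χ r n w u.1 u.2 x
        _ = N := by simp
    refine (Finset.sum_le_card_nsmul _ _ _ h1).trans ?_
    rw [nsmul_eq_mul]
    have h2 : (((Finset.univ.filter (fun u : (Fin r → Fin n) × (Fin r → Fin n) =>
        ¬ Uniq (fun i => (u.1 i : ℕ)) (fun i => (u.2 i : ℕ)))).card : ℕ) : ℝ) ≤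
        (r : ℝ) ^ (2 * r) * (n : ℝ) ^ r := by
      exact_mod_cast tup r n hr
    exact mul_le_mul_of_nonneg_right h2 (by positivity)
  · have h1 : ∀ u ∈ Finset.univ.filter (fun u : (Fin r → Fin n) × (Fin r → Fin n) =>
        ¬ ¬ Uniq (fun i => (u.1 i : ℕ)) (fun i => (u.2 i : ℕ))),
        ‖∑ x : ZMod N, term χ r n w u.1 u.2 x‖ ^ 2 ≤ K ^ 2 * N := by
      intro u hu
      rw [Finset.mem_filter] at hu
      have h3 := hC (fun i => (w (u.1 i)).val) (fun i => (w (u.2 i)).val)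
        (fun i => ZMod.val_lt _) (fun i => ZMod.val_lt _)
        (uniq_val w hw u.1 u.2 (not_not.1 hu.2))
      simp only [ZMod.natCast_zmod_val] at h3
      have h4 : ‖∑ x : ZMod N, term χ r n w u.1 u.2 x‖ ≤ K * Real.sqrt N := h3
      calc ‖∑ x : ZMod N, term χ r n w u.1 u.2 x‖ ^ 2 ≤ (K * Real.sqrt N) ^ 2 :=
            pow_le_pow_left₀ (norm_nonneg _) h4 2
        _ = K ^ 2 * N := by
            rw [mul_pow, Real.sq_sqrt (Nat.cast_nonneg _)]
    refine (Finset.sum_le_card_nsmul _ _ _ h1).trans ?_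
    rw [nsmul_eq_mul]
    have h2 : (((Finset.univ.filter (fun u : (Fin r → Fin n) × (Fin r → Fin n) =>
        ¬ ¬ Uniq (fun i => (u.1 i : ℕ)) (fun i => (u.2 i : ℕ)))).card : ℕ) : ℝ) ≤
        (n : ℝ) ^ (2 * r) := by
      have h3 := Finset.card_filter_le (Finset.univ : Finset ((Fin r → Fin n) × (Fin r → Fin n)))
        (fun u => ¬ ¬ Uniq (fun i => (u.1 i : ℕ)) (fun i => (u.2 i : ℕ)))
      have h4 : (Finset.univ : Finset ((Fin r → Fin n) × (Fin r → Fin n))).card = n ^ (2 * r) := by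
        rw [Finset.card_univ, Fintype.card_prod, Fintype.card_fun, Fintype.card_fin,
          Fintype.card_fin, two_mul, pow_add]
      rw [h4] at h3
      exact_mod_cast h3
    calc _ ≤ (n : ℝ) ^ (2 * r) * (K ^ 2 * N) :=
          mul_le_mul_of_nonneg_right h2 (by positivity)
      _ = K ^ 2 * (n : ℝ) ^ (2 * r) * N := by ring

/-- the same bound for a finite set of shifts -/
theorem momF2 {p : ℕ} [Fact p.Prime] (χ : DirichletCharacter ℂ p) (hχ : χ ≠ 1) (r : ℕ)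
    (hr : 1 ≤ r) (s : Finset (ZMod p)) :
    ∑ x : ZMod p, ∑ y : ZMod p,
      ‖∑ b ∈ s, χ (x + b) * (starRingEnd ℂ) (χ (y + b))‖ ^ (2 * r) ≤
      (r : ℝ) ^ (2 * r) * (s.card : ℝ) ^ r * (p : ℝ) ^ 2 +
        (2 * r) ^ 2 * (s.card : ℝ) ^ (2 * r) * p := by
  classical
  have h := momB2 χ r s.card (2 * r) hr (fun j => (s.equivFin.symm j : ZMod p))
    (fun i j hij => s.equivFin.symm.injective (Subtype.ext hij)) (complete_all p χ hχ r)
  have e : ∀ x y : ZMod p, ∑ j : Fin s.card, χ (x + (s.equivFin.symm j : ZMod p)) *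
      (starRingEnd ℂ) (χ (y + (s.equivFin.symm j : ZMod p))) =
      ∑ b ∈ s, χ (x + b) * (starRingEnd ℂ) (χ (y + b)) := by
    intro x y
    rw [Equiv.sum_comp s.equivFin.symm (fun b : s => χ (x + (b : ZMod p)) *
      (starRingEnd ℂ) (χ (y + (b : ZMod p))))]
    exact Finset.sum_coe_sort s (fun b => χ (x + b) * (starRingEnd ℂ) (χ (y + b)))
  simp only [e] at h
  exact h

/-- The core estimate on the plane: if `W` has at least `p^ε` elements and `α ≥ 0` satisfies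
`‖α‖₂² ≤ p^(-1-η) ‖α‖₁²` then `∑ α(u,v) |∑_{w ∈ W} χ(u+w) conj χ(v+w)| ≤ p^(-τ) ‖α‖₁ |W|`. -/
theorem core2 (ε η : ℝ) (hε : 0 < ε) (hη : 0 < η) :
    ∃ τ : ℝ, 0 < τ ∧ ∃ P : ℕ, ∀ p : ℕ, ∀ _ : Fact p.Prime, P ≤ p →
      ∀ χ : DirichletCharacter ℂ p, χ ≠ 1 → ∀ W : Finset (ZMod p), (p : ℝ) ^ ε ≤ W.card →
        ∀ α : ZMod p × ZMod p → ℝ, (∀ u, 0 ≤ α u) →
          ∑ u, α u ^ 2 ≤ (p : ℝ) ^ (-1 - η) * (∑ u, α u) ^ 2 →
          ∑ u, α u * ‖∑ w ∈ W, χ (u.1 + w) * (starRingEnd ℂ) (χ (u.2 + w))‖ ≤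
            (p : ℝ) ^ (-τ) * ((∑ u, α u) * W.card) := by
  set k : ℕ := ⌈1 / ε⌉₊ + 1 with hk
  have hk1 : 1 ≤ k := by omega
  have hkε : 1 ≤ k * ε := by
    have h1 : 1 / ε ≤ (⌈1 / ε⌉₊ : ℝ) := Nat.le_ceil _
    have h2 : (k : ℝ) = (⌈1 / ε⌉₊ : ℝ) + 1 := by rw [hk]; push_cast; ring
    have h3 : 1 ≤ (⌈1 / ε⌉₊ : ℝ) * ε := by
      calc (1 : ℝ) = 1 / ε * ε := by field_simp
        _ ≤ _ := mul_le_mul_of_nonneg_right h1 hε.le
    rw [h2]
    nlinarith
  set C : ℝ := (k : ℝ) ^ (2 * k) + (2 * k) ^ 2 with hC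
  have hC0 : 0 < C := by positivity
  have hkpos : (0 : ℝ) < k := by exact_mod_cast hk1
  refine ⟨η / (4 * k), by positivity, ⌈C ^ (2 / η)⌉₊ + 2, ?_⟩
  intro p _ hp χ hχ W hW α hα hE
  have hpp : p.Prime := Fact.out
  have hp1 : (1 : ℝ) < p := by exact_mod_cast hpp.one_lt
  have hp0 : (0 : ℝ) < p := by linarith
  have hCp : C ≤ (p : ℝ) ^ (η / 2) := by
    have h1 : C ^ (2 / η) ≤ p := by
      refine (Nat.le_ceil _).trans ?_
      exact_mod_cast (by omega : ⌈C ^ (2 / η)⌉₊ ≤ p)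
    have h2 := Real.rpow_le_rpow (by positivity) h1 (by positivity : 0 ≤ η / 2)
    rw [← Real.rpow_mul hC0.le] at h2
    have h3 : 2 / η * (η / 2) = 1 := by field_simp
    rw [h3, Real.rpow_one] at h2
    exact h2
  set n : ℝ := (W.card : ℝ) with hn
  have hn0 : 0 ≤ n := Nat.cast_nonneg _
  set F : ZMod p × ZMod p → ℝ :=
    fun u => ‖∑ w ∈ W, χ (u.1 + w) * (starRingEnd ℂ) (χ (u.2 + w))‖ with hF
  set S : ℝ := ∑ u, α u with hS
  have hS0 : 0 ≤ S := Finset.sum_nonneg fun u _ => hα u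
  have hmom : ∑ u, F u ^ (2 * k) ≤ C * n ^ (2 * k) * p := by
    have h1 := momF2 χ hχ k hk1 W
    rw [← Fintype.sum_prod_type'
      (f := fun x y => ‖∑ b ∈ W, χ (x + b) * (starRingEnd ℂ) (χ (y + b))‖ ^ (2 * k))] at h1
    refine h1.trans ?_
    have h2 : (p : ℝ) ≤ n ^ k := by
      calc (p : ℝ) = (p : ℝ) ^ (1 : ℝ) := (Real.rpow_one _).symm
        _ ≤ (p : ℝ) ^ (ε * k) :=
            Real.rpow_le_rpow_of_exponent_le hp1.le (by linarith)
        _ = ((p : ℝ) ^ ε) ^ k := by rw [Real.rpow_mul hp0.le, Real.rpow_natCast]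
        _ ≤ n ^ k := pow_le_pow_left₀ (by positivity) hW k
    have h3 : (n : ℝ) ^ k * (p : ℝ) ^ 2 ≤ n ^ (2 * k) * p := by
      calc n ^ k * (p : ℝ) ^ 2 = n ^ k * (p * p) := by ring
        _ ≤ n ^ k * (n ^ k * p) := by
            refine mul_le_mul_of_nonneg_left ?_ (by positivity)
            exact mul_le_mul_of_nonneg_right h2 hp0.le
        _ = n ^ (2 * k) * p := by rw [two_mul, pow_add]; ring
    have h4 : (k : ℝ) ^ (2 * k) * n ^ k * (p : ℝ) ^ 2 ≤ (k : ℝ) ^ (2 * k) * (n ^ (2 * k) * p) := by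
      rw [mul_assoc]
      exact mul_le_mul_of_nonneg_left h3 (by positivity)
    rw [hC]
    nlinarith [h4]
  have hH := Pool.Agent.TH322.CS.holder Finset.univ α F (fun u _ => hα u)
    (fun u _ => norm_nonneg _) k hk1
  have hmain : (∑ u, α u * F u) ^ (2 * k) ≤ ((p : ℝ) ^ (-(η / (4 * k))) * (S * n)) ^ (2 * k) := by
    have e1 : S ^ (2 * (k - 1)) * S ^ 2 = S ^ (2 * k) := by
      rw [← pow_add]
      congr 1
    have e2 : ((p : ℝ) ^ (-(η / (4 * k)))) ^ (2 * k) = (p : ℝ) ^ (-(η / 2)) := by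
      rw [← Real.rpow_natCast, ← Real.rpow_mul hp0.le]
      congr 1
      push_cast
      field_simp
      norm_num
    calc (∑ u, α u * F u) ^ (2 * k) ≤
          S ^ (2 * (k - 1)) * ((∑ u, α u ^ 2) * ∑ u, F u ^ (2 * k)) := hH
      _ ≤ S ^ (2 * (k - 1)) * (((p : ℝ) ^ (-1 - η) * S ^ 2) *
            (C * n ^ (2 * k) * p)) := by
          refine mul_le_mul_of_nonneg_left ?_ (by positivity)
          exact mul_le_mul hE hmom (Finset.sum_nonneg fun u _ => by positivity) (by positivity)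
      _ = (S ^ (2 * (k - 1)) * S ^ 2) * n ^ (2 * k) * C *
            ((p : ℝ) ^ (-1 - η) * (p : ℝ) ^ (1 : ℝ)) := by
          rw [Real.rpow_one]; ring
      _ = S ^ (2 * k) * n ^ (2 * k) * C * (p : ℝ) ^ (-η) := by
          rw [e1, ← Real.rpow_add hp0]
          congr 2
          ring
      _ ≤ S ^ (2 * k) * n ^ (2 * k) * (p : ℝ) ^ (η / 2) * (p : ℝ) ^ (-η) := by
          refine mul_le_mul_of_nonneg_right ?_ (by positivity)
          exact mul_le_mul_of_nonneg_left hCp (by positivity)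
      _ = S ^ (2 * k) * n ^ (2 * k) * (p : ℝ) ^ (-(η / 2)) := by
          rw [mul_assoc, ← Real.rpow_add hp0]
          congr 2
          ring
      _ = _ := by
          rw [mul_pow, mul_pow, e2]
          ring
  have h2k : 2 * k ≠ 0 := by omega
  refine le_of_pow_le_pow_left₀ h2k (by positivity) hmain

end Pool.Agent.Q263.PG
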