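import Mathlib
import Pool.Agent.Q263.PG.E3
import Pool.Agent.Q263.PG.Mom2
import Pool.Agent.TH322.CS.Tri

/-!
Collisions in the plane.
-/

set_option autoImplicit false

open Finset

namespace Pool.Agent.Q263.PG

/-- Hoelder's inequality -/
lemma holder3 {K : Type} (S : Finset K) (a b : K → ℝ) (ha : ∀ κ, 0 ≤ a κ) (hb : ∀ κ, 0 ≤ b κ) :
    (∑ κ ∈ S, a κ * b κ ^ 2) ^ 3 ≤ (∑ κ ∈ S, a κ ^ 3) * (∑ κ ∈ S, b κ ^ 3) ^ 2 := by
  have hpq : (3 : ℝ).HolderConjugate (3 / 2) := by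
    rw [Real.holderConjugate_iff]
    norm_num
  have h := Real.inner_le_Lp_mul_Lq_of_nonneg S hpq (f := a) (g := fun κ => b κ ^ 2)
    (fun κ _ => ha κ) (fun κ _ => by positivity)
  have hA : 0 ≤ ∑ κ ∈ S, a κ ^ 3 := Finset.sum_nonneg fun κ _ => pow_nonneg (ha κ) 3
  have hB : 0 ≤ ∑ κ ∈ S, b κ ^ 3 := Finset.sum_nonneg fun κ _ => pow_nonneg (hb κ) 3
  have e1 : ∑ κ ∈ S, a κ ^ (3 : ℝ) = ∑ κ ∈ S, a κ ^ 3 :=
    Finset.sum_congr rfl fun κ _ => by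
      rw [← Real.rpow_natCast]
      norm_num
  have e2 : ∑ κ ∈ S, (b κ ^ 2) ^ (3 / 2 : ℝ) = ∑ κ ∈ S, b κ ^ 3 :=
    Finset.sum_congr rfl fun κ _ => by
      rw [← Real.rpow_natCast, ← Real.rpow_natCast, ← Real.rpow_mul (hb κ)]
      norm_num
  rw [e1, e2] at h
  have h0 : 0 ≤ ∑ κ ∈ S, a κ * b κ ^ 2 :=
    Finset.sum_nonneg fun κ _ => mul_nonneg (ha κ) (by positivity)
  have h3 := pow_le_pow_left₀ h0 h 3
  refine h3.trans (le_of_eq ?_)
  rw [mul_pow, ← Real.rpow_natCast, ← Real.rpow_natCast, ← Real.rpow_mul hA, ← Real.rpow_mul hB,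
    ← Real.rpow_natCast _ 2]
  norm_num

/-- cubes of the fibres -/
lemma cube_fiber {ι K : Type} [DecidableEq ι] [DecidableEq K] (A : Finset ι) (d : ι → K)
    (S : Finset K) : ∑ κ ∈ S, (A.filter fun a => d a = κ).card ^ 3 ≤
      ((A ×ˢ A ×ˢ A).filter fun t => d t.1 = d t.2.1 ∧ d t.1 = d t.2.2).card := by
  have h0 : ∀ κ ∈ S, (A.filter fun a => d a = κ).card ^ 3 ≤
      (((A ×ˢ A ×ˢ A).filter fun t => d t.1 = d t.2.1 ∧ d t.1 = d t.2.2).filter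
        fun t => d t.1 = κ).card := by
    intro κ _
    have e : (A.filter fun a => d a = κ).card ^ 3 =
        ((A.filter fun a => d a = κ) ×ˢ (A.filter fun a => d a = κ) ×ˢ
          (A.filter fun a => d a = κ)).card := by
      rw [Finset.card_product, Finset.card_product]
      ring
    rw [e]
    apply Finset.card_le_card
    intro t ht
    rw [Finset.mem_product, Finset.mem_product] at ht
    have h1 := Finset.mem_filter.1 ht.1
    have h2 := Finset.mem_filter.1 ht.2.1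
    have h3 := Finset.mem_filter.1 ht.2.2
    rw [Finset.mem_filter, Finset.mem_filter, Finset.mem_product, Finset.mem_product]
    exact ⟨⟨⟨h1.1, h2.1, h3.1⟩, by rw [h1.2, h2.2], by rw [h1.2, h3.2]⟩, h1.2⟩
  refine (Finset.sum_le_sum h0).trans ?_
  rw [← Finset.card_biUnion]
  · apply Finset.card_le_card
    intro q hq
    rw [Finset.mem_biUnion] at hq
    obtain ⟨κ, _, hq⟩ := hq
    exact (Finset.mem_filter.1 hq).1
  · intro κ _ κ' _ hne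
    rw [Function.onFun, Finset.disjoint_left]
    intro q hq hq'
    exact hne ((Finset.mem_filter.1 hq).2.symm.trans (Finset.mem_filter.1 hq').2)

/-- **collisions** -/
lemma coll3 {β K : Type} [DecidableEq β] [DecidableEq K] (Y : Finset ℕ) (B : Finset β)
    (dY : ℕ → ℕ → K) (dB : β → β → K)
    (hadd : ∀ y1 ∈ Y, ∀ y2 ∈ Y, ∀ y3 ∈ Y, ∀ y4 ∈ Y, dY y1 y2 = dY y3 y4 → y1 + y4 = y2 + y3) :
    ((((Y ×ˢ B ×ˢ B) ×ˢ (Y ×ˢ B ×ˢ B)).filter fun t => dY t.1.1 t.2.1 = dB t.1.2.1 t.2.2.1 ∧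
      dY t.1.1 t.2.1 = dB t.1.2.2 t.2.2.2).card) ^ 3 ≤
      (t3 Y).card * (((B ×ˢ B) ×ˢ (B ×ˢ B) ×ˢ (B ×ˢ B)).filter fun s =>
        dB s.1.1 s.1.2 = dB s.2.1.1 s.2.1.2 ∧ dB s.1.1 s.1.2 = dB s.2.2.1 s.2.2.2).card ^ 2 := by
  classical
  set T := ((Y ×ˢ B ×ˢ B) ×ˢ (Y ×ˢ B ×ˢ B)).filter fun t =>
    dY t.1.1 t.2.1 = dB t.1.2.1 t.2.2.1 ∧ dY t.1.1 t.2.1 = dB t.1.2.2 t.2.2.2 with hT
  set S : Finset K := (Y ×ˢ Y).image (fun u => dY u.1 u.2) with hS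
  set rY : K → ℕ := fun κ => ((Y ×ˢ Y).filter fun u => dY u.1 u.2 = κ).card with hrY
  set rB : K → ℕ := fun κ => ((B ×ˢ B).filter fun u => dB u.1 u.2 = κ).card with hrB
  have hT1 : T.card ≤ ∑ κ ∈ S, rY κ * rB κ ^ 2 := by
    have h1 : T.card = ∑ κ ∈ S, (T.filter fun t => dY t.1.1 t.2.1 = κ).card :=
      Finset.card_eq_sum_card_fiberwise fun t ht => by
        have h2 := (Finset.mem_filter.1 (Finset.mem_coe.1 ht)).1
        simp only [Finset.mem_product] at h2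
        exact Finset.mem_coe.2 (Finset.mem_image.2 ⟨(t.1.1, t.2.1),
          Finset.mem_product.2 ⟨h2.1.1, h2.2.1⟩, rfl⟩)
    rw [h1]
    apply Finset.sum_le_sum
    intro κ _
    rw [hrY, hrB]
    dsimp only
    rw [sq, ← Finset.card_product, ← Finset.card_product]
    apply Finset.card_le_card_of_injOn (fun t : (ℕ × β × β) × (ℕ × β × β) =>
      ((t.1.1, t.2.1), ((t.1.2.1, t.2.2.1), (t.1.2.2, t.2.2.2))))
    · intro t ht
      have h2 := Finset.mem_filter.1 (Finset.mem_coe.1 ht)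
      have h3 := Finset.mem_filter.1 h2.1
      obtain ⟨h4, h5, h6⟩ := h3
      rw [Finset.mem_product, Finset.mem_product, Finset.mem_product, Finset.mem_product,
        Finset.mem_product] at h4
      rw [Finset.mem_coe, Finset.mem_product, Finset.mem_product, Finset.mem_filter,
        Finset.mem_filter, Finset.mem_filter, Finset.mem_product, Finset.mem_product,
        Finset.mem_product]
      refine ⟨⟨⟨h4.1.1, h4.2.1⟩, h2.2⟩, ⟨⟨h4.1.2.1, h4.2.2.1⟩, ?_⟩, ⟨h4.1.2.2, h4.2.2.2⟩, ?_⟩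
      · dsimp only
        rw [← h5]
        exact h2.2
      · dsimp only
        rw [← h6]
        exact h2.2
    · rintro ⟨⟨y1, x1, z1⟩, ⟨y2, x2, z2⟩⟩ _ ⟨⟨y1', x1', z1'⟩, ⟨y2', x2', z2'⟩⟩ _ heq
      simp only [Prod.mk.injEq] at heq ⊢
      tauto
  have hY : ∑ κ ∈ S, rY κ ^ 3 ≤ (t3 Y).card := by
    refine (cube_fiber (Y ×ˢ Y) (fun u => dY u.1 u.2) S).trans ?_
    apply Finset.card_le_card
    intro t ht
    obtain ⟨h1, h2, h3⟩ := Finset.mem_filter.1 ht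
    rw [Finset.mem_product, Finset.mem_product, Finset.mem_product, Finset.mem_product,
      Finset.mem_product] at h1
    rw [mem_t3]
    exact ⟨h1, hadd _ h1.1.1 _ h1.1.2 _ h1.2.1.1 _ h1.2.1.2 h2,
      hadd _ h1.1.1 _ h1.1.2 _ h1.2.2.1 _ h1.2.2.2 h3⟩
  have hB := cube_fiber (B ×ˢ B) (fun u => dB u.1 u.2) S
  have hH := holder3 S (fun κ => (rY κ : ℝ)) (fun κ => (rB κ : ℝ)) (fun κ => Nat.cast_nonneg _)
    (fun κ => Nat.cast_nonneg _)
  have hH' : (∑ κ ∈ S, rY κ * rB κ ^ 2) ^ 3 ≤ (∑ κ ∈ S, rY κ ^ 3) * (∑ κ ∈ S, rB κ ^ 3) ^ 2 := by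
    exact_mod_cast hH
  calc T.card ^ 3 ≤ (∑ κ ∈ S, rY κ * rB κ ^ 2) ^ 3 := Nat.pow_le_pow_left hT1 3
    _ ≤ _ := hH'
    _ ≤ _ := Nat.mul_le_mul hY (Nat.pow_le_pow_left hB 2)

/-- the core estimate for functions with values in the plane whose values collide rarely -/
theorem core2_fun (ε η : ℝ) (hε : 0 < ε) (hη : 0 < η) :
    ∃ τ : ℝ, 0 < τ ∧ ∃ P : ℕ, ∀ p : ℕ, ∀ _ : Fact p.Prime, P ≤ p →
      ∀ χ : DirichletCharacter ℂ p, χ ≠ 1 → ∀ W : Finset (ZMod p), (p : ℝ) ^ ε ≤ W.card →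
        ∀ (ι : Type) (s : Finset ι) (f : ι → ZMod p × ZMod p),
          (((s ×ˢ s).filter fun t => f t.1 = f t.2).card : ℝ) ≤
            (p : ℝ) ^ (-1 - η) * (s.card : ℝ) ^ 2 →
          ∑ x ∈ s, ‖∑ w ∈ W, χ ((f x).1 + w) * (starRingEnd ℂ) (χ ((f x).2 + w))‖ ≤
            (p : ℝ) ^ (-τ) * ((s.card : ℝ) * W.card) := by
  obtain ⟨τ, hτ, P, h⟩ := core2 ε η hε hη
  refine ⟨τ, hτ, P, ?_⟩
  intro p _ hp χ hχ W hW ι s f hE
  have h1 := h p inferInstance hp χ hχ W hW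
    (fun u => ((s.filter fun x => f x = u).card : ℝ)) (fun u => Nat.cast_nonneg _)
  rw [Pool.Agent.TH322.CS.sum_sq_fiber, Pool.Agent.TH322.CS.sum_card_fiber] at h1
  rw [Pool.Agent.TH322.CS.sum_fiber s f
    (fun u => ‖∑ w ∈ W, χ (u.1 + w) * (starRingEnd ℂ) (χ (u.2 + w))‖)]
  exact h1 hE

end Pool.Agent.Q263.PG
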