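import Mathlib
import Pool.Agent.Q263.PG.Set

/-!
Collisions, and the place where the digits are cut.
-/

set_option autoImplicit false

open Finset

namespace Pool.Agent.Q263.PG

/-- **collisions**: Cauchy-Schwarz -/
lemma coll {β K : Type} [DecidableEq β] [DecidableEq K] (Y : Finset ℕ) (B : Finset β)
    (dY : ℕ → ℕ → K) (dB : β → β → K) (Q : ℕ)
    (hadd : ∀ y1 ∈ Y, ∀ y2 ∈ Y, ∀ y3 ∈ Y, ∀ y4 ∈ Y, dY y1 y2 = dY y3 y4 → y1 + y4 = y2 + y3) :
    ((((Y ×ˢ B) ×ˢ (Y ×ˢ B)).filter fun t => dY t.1.1 t.2.1 = dB t.1.2 t.2.2).card) ^ 2 ≤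
      (trip Y Q 0).card *
        (((B ×ˢ B) ×ˢ (B ×ˢ B)).filter fun s => dB s.1.1 s.1.2 = dB s.2.1 s.2.2).card := by
  classical
  set T := ((Y ×ˢ B) ×ˢ (Y ×ˢ B)).filter fun t => dY t.1.1 t.2.1 = dB t.1.2 t.2.2 with hT
  set S : Finset K := (Y ×ˢ Y).image (fun u => dY u.1 u.2) with hS
  set rY : K → ℕ := fun κ => ((Y ×ˢ Y).filter fun u => dY u.1 u.2 = κ).card with hrY
  set rB : K → ℕ := fun κ => ((B ×ˢ B).filter fun u => dB u.1 u.2 = κ).card with hrB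
  have hT1 : T.card ≤ ∑ κ ∈ S, rY κ * rB κ := by
    have h1 : T.card = ∑ κ ∈ S, (T.filter fun t => dY t.1.1 t.2.1 = κ).card :=
      Finset.card_eq_sum_card_fiberwise fun t ht => by
        have h2 := Finset.mem_filter.1 (Finset.mem_coe.1 ht)
        rw [Finset.mem_product, Finset.mem_product, Finset.mem_product] at h2
        exact Finset.mem_coe.2 (Finset.mem_image.2 ⟨(t.1.1, t.2.1),
          Finset.mem_product.2 ⟨h2.1.1.1, h2.1.2.1⟩, rfl⟩)
    rw [h1]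
    apply Finset.sum_le_sum
    intro κ _
    rw [hrY, hrB]
    dsimp only
    rw [← Finset.card_product]
    apply Finset.card_le_card_of_injOn (fun t : (ℕ × β) × (ℕ × β) =>
      ((t.1.1, t.2.1), (t.1.2, t.2.2)))
    · intro t ht
      have h2 := Finset.mem_filter.1 (Finset.mem_coe.1 ht)
      have h3 := Finset.mem_filter.1 h2.1
      rw [Finset.mem_product, Finset.mem_product, Finset.mem_product] at h3
      rw [Finset.mem_coe, Finset.mem_product, Finset.mem_filter, Finset.mem_filter,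
        Finset.mem_product, Finset.mem_product]
      exact ⟨⟨⟨h3.1.1.1, h3.1.2.1⟩, h2.2⟩, ⟨h3.1.1.2, h3.1.2.2⟩, by
        dsimp only
        rw [← h3.2]
        exact h2.2⟩
    · rintro ⟨⟨y1, x1⟩, ⟨y2, x2⟩⟩ _ ⟨⟨y1', x1'⟩, ⟨y2', x2'⟩⟩ _ heq
      simp only [Prod.mk.injEq] at heq ⊢
      tauto
  have hY : ∑ κ ∈ S, rY κ ^ 2 ≤ (trip Y Q 0).card := by
    have h1 : (((Y ×ˢ Y) ×ˢ (Y ×ˢ Y)).filter fun q => dY q.1.1 q.1.2 = dY q.2.1 q.2.2).card =
        ∑ κ ∈ S, ((((Y ×ˢ Y) ×ˢ (Y ×ˢ Y)).filter fun q => dY q.1.1 q.1.2 =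
          dY q.2.1 q.2.2).filter fun q => dY q.1.1 q.1.2 = κ).card :=
      Finset.card_eq_sum_card_fiberwise fun q hq => by
        have h2 := Finset.mem_filter.1 (Finset.mem_coe.1 hq)
        rw [Finset.mem_product, Finset.mem_product, Finset.mem_product] at h2
        exact Finset.mem_coe.2 (Finset.mem_image.2 ⟨q.1, Finset.mem_product.2 h2.1.1, rfl⟩)
    have h2 : ∑ κ ∈ S, rY κ ^ 2 ≤
        (((Y ×ˢ Y) ×ˢ (Y ×ˢ Y)).filter fun q => dY q.1.1 q.1.2 = dY q.2.1 q.2.2).card := by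
      rw [h1]
      apply Finset.sum_le_sum
      intro κ _
      rw [hrY]
      dsimp only
      rw [sq, ← Finset.card_product]
      apply Finset.card_le_card
      intro q hq
      rw [Finset.mem_product] at hq
      have ha := Finset.mem_filter.1 hq.1
      have hb := Finset.mem_filter.1 hq.2
      rw [Finset.mem_filter, Finset.mem_filter, Finset.mem_product]
      exact ⟨⟨⟨ha.1, hb.1⟩, by rw [ha.2, hb.2]⟩, ha.2⟩
    refine h2.trans ?_
    apply Finset.card_le_card_of_injOn (fun q : (ℕ × ℕ) × (ℕ × ℕ) => (q.1.1, q.2.2, q.1.2))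
    · rintro ⟨⟨y1, y2⟩, ⟨y3, y4⟩⟩ hq
      have h3 := Finset.mem_filter.1 (Finset.mem_coe.1 hq)
      rw [Finset.mem_product, Finset.mem_product, Finset.mem_product] at h3
      obtain ⟨⟨⟨g1, g2⟩, g3, g4⟩, g5⟩ := h3
      dsimp only at g1 g2 g3 g4 g5
      rw [Finset.mem_coe, mem_trip]
      refine ⟨⟨g1, g4, g2⟩, y3, g3, ?_⟩
      have g6 := hadd y1 g1 y2 g2 y3 g3 y4 g4 g5
      have g7 : (y1 : ℤ) + y4 - y2 + 0 - y3 = 0 := by
        have : (y1 : ℤ) + y4 = y2 + y3 := by exact_mod_cast g6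
        linarith
      dsimp only
      rw [g7]
      exact dvd_zero _
    · rintro ⟨⟨y1, y2⟩, ⟨y3, y4⟩⟩ hq ⟨⟨z1, z2⟩, ⟨z3, z4⟩⟩ hq' heq
      have h3 := Finset.mem_filter.1 (Finset.mem_coe.1 hq)
      rw [Finset.mem_product, Finset.mem_product, Finset.mem_product] at h3
      obtain ⟨⟨⟨g1, g2⟩, g3, g4⟩, g5⟩ := h3
      have h3' := Finset.mem_filter.1 (Finset.mem_coe.1 hq')
      rw [Finset.mem_product, Finset.mem_product, Finset.mem_product] at h3'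
      obtain ⟨⟨⟨k1, k2⟩, k3, k4⟩, k5⟩ := h3'
      dsimp only at g1 g2 g3 g4 g5 k1 k2 k3 k4 k5 heq
      have g6 := hadd y1 g1 y2 g2 y3 g3 y4 g4 g5
      have k6 := hadd z1 k1 z2 k2 z3 k3 z4 k4 k5
      simp only [Prod.mk.injEq] at heq ⊢
      omega
  have hB : ∑ κ ∈ S, rB κ ^ 2 ≤
      (((B ×ˢ B) ×ˢ (B ×ˢ B)).filter fun s => dB s.1.1 s.1.2 = dB s.2.1 s.2.2).card := by
    have h0 : ∑ κ ∈ S, rB κ ^ 2 ≤ ∑ κ ∈ S, ((((B ×ˢ B) ×ˢ (B ×ˢ B)).filter fun q =>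
        dB q.1.1 q.1.2 = dB q.2.1 q.2.2).filter fun q => dB q.1.1 q.1.2 = κ).card := by
      apply Finset.sum_le_sum
      intro κ _
      rw [hrB]
      dsimp only
      rw [sq, ← Finset.card_product]
      apply Finset.card_le_card
      intro q hq
      rw [Finset.mem_product] at hq
      have ha := Finset.mem_filter.1 hq.1
      have hb := Finset.mem_filter.1 hq.2
      rw [Finset.mem_filter, Finset.mem_filter, Finset.mem_product]
      exact ⟨⟨⟨ha.1, hb.1⟩, by rw [ha.2, hb.2]⟩, ha.2⟩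
    refine h0.trans ?_
    rw [← Finset.card_biUnion]
    · apply Finset.card_le_card
      intro q hq
      rw [Finset.mem_biUnion] at hq
      obtain ⟨κ, _, hq⟩ := hq
      exact (Finset.mem_filter.1 hq).1
    · intro κ _ κ' _ hne
      rw [Function.onFun, Finset.disjoint_left]
      intro q hq hq'
      exact hne ((Finset.mem_filter.1 hq).2.symm.trans (Finset.mem_filter.1 hq').2)
  have hCS : (∑ κ ∈ S, rY κ * rB κ) ^ 2 ≤ (∑ κ ∈ S, rY κ ^ 2) * ∑ κ ∈ S, rB κ ^ 2 :=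
    Finset.sum_mul_sq_le_sq_mul_sq S rY rB
  calc T.card ^ 2 ≤ (∑ κ ∈ S, rY κ * rB κ) ^ 2 := Nat.pow_le_pow_left hT1 2
    _ ≤ _ := hCS
    _ ≤ _ := Nat.mul_le_mul hY hB

/-- **the place of the cut** -/
theorem cut (b : ℕ) (hb : 2 ≤ b) (ε : ℝ) (hε : 0 < ε) : ∃ ε1 η c : ℝ, 0 < ε1 ∧ 0 < η ∧ 0 < c ∧
    ∃ P : ℕ, ∀ p : ℕ, P ≤ p → ∀ (k : ℕ) (D : ℕ → Finset ℕ), Prp b k D →
      (p : ℝ) ^ ε ≤ ((SD b k D).card : ℝ) →
      ∃ j m : ℕ, j + m = k ∧ 1 ≤ m ∧ (p : ℝ) ^ ε1 ≤ ((SD b m (fun i => D (j + i))).card : ℝ) ∧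
        ∀ N F : ℝ, 0 ≤ N → 0 ≤ F → (p : ℝ) ^ (1 - c) * F ≤ ((SD b k D).card : ℝ) * N ^ 4 →
          ((trip (SD b j D) (b ^ j) 0).card : ℝ) * F ≤
            ((p : ℝ) ^ (-(1 / 2) - η) * (((SD b j D).card : ℝ) * N) ^ 2) ^ 2 := by
  classical
  have hb0 : (0 : ℝ) < b := by exact_mod_cast (by omega : 0 < b)
  have hb2 : (2 : ℝ) ≤ b := by exact_mod_cast hb
  set ρ : ℝ := 1 - 1 / (b : ℝ) ^ 6 with hρ
  have hb6 : (1 : ℝ) < (b : ℝ) ^ 6 := one_lt_pow₀ (by linarith) (by norm_num)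
  have hρ0 : 0 < ρ := by
    rw [hρ, sub_pos, div_lt_one (by positivity)]
    exact hb6
  have hρ1 : ρ < 1 := by
    rw [hρ]
    have : 0 < 1 / (b : ℝ) ^ 6 := by positivity
    linarith
  have hL : 0 < Real.log b := Real.log_pos (by linarith)
  have hlρ : Real.log ρ < 0 := Real.log_neg hρ0 hρ1
  set c0 : ℝ := (ε / 4) * (-Real.log ρ) / Real.log b with hc0
  have hc0p : 0 < c0 := by
    rw [hc0]
    apply div_pos _ hL
    apply mul_pos (by linarith)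
    linarith
  obtain ⟨P0, hP0⟩ : ∃ P0 : ℕ, ∀ p : ℕ, P0 ≤ p → (b : ℝ) / ρ ≤ (p : ℝ) ^ (c0 / 2) := by
    have h1 := (tendsto_rpow_atTop (y := c0 / 2) (by linarith)).comp
      (tendsto_natCast_atTop_atTop (R := ℝ))
    have h2 := (Filter.tendsto_atTop.1 h1 ((b : ℝ) / ρ))
    obtain ⟨P0, hP0⟩ := Filter.eventually_atTop.1 h2
    exact ⟨P0, fun p hp => hP0 p hp⟩
  refine ⟨min (ε / 2) (c0 / 8), c0 / 8, c0 / 8, by
    apply lt_min <;> linarith, by linarith, by linarith, max P0 2, ?_⟩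
  set ε1 : ℝ := min (ε / 2) (c0 / 8) with hε1
  have hε1p : 0 < ε1 := by
    apply lt_min <;> linarith
  have hε1a : ε1 ≤ ε / 2 := min_le_left _ _
  have hε1b : ε1 ≤ c0 / 8 := min_le_right _ _
  intro p hp k D h hA
  have hp2 : 2 ≤ p := (le_max_right _ _).trans hp
  have hp1 : (1 : ℝ) < p := by exact_mod_cast (by omega : 1 < p)
  have hp0 : (0 : ℝ) < p := by linarith
  have hbρ := hP0 p ((le_max_left _ _).trans hp)
  -- the least number of top digits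
  have hex : ∃ m : ℕ, m ≤ k ∧ (p : ℝ) ^ ε1 ≤ ((SD b m (fun i => D (k - m + i))).card : ℝ) := by
    refine ⟨k, le_rfl, ?_⟩
    have e : (fun i => D (k - k + i)) = D := by
      funext i
      rw [Nat.sub_self, Nat.zero_add]
    rw [e]
    refine le_trans ?_ hA
    exact Real.rpow_le_rpow_of_exponent_le hp1.le (by linarith)
  obtain ⟨hmk, hm⟩ := Nat.find_spec hex
  have hmin := fun m' (hm' : m' < Nat.find hex) => Nat.find_min hex hm'
  set m := Nat.find hex with hmdef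
  have hm1 : 1 ≤ m := by
    by_contra hcon
    have h0 : m = 0 := by omega
    rw [h0] at hm
    simp only [SD, Finset.card_singleton, Nat.cast_one] at hm
    have := Real.one_lt_rpow hp1 hε1p
    linarith
  have hjm : k - m + m = k := by omega
  set j := k - m with hj
  have hprop : Prp b (j + m) D := by rw [hjm]; exact h
  have hpm : Prp b m (fun i => D (j + i)) := h.shift j (by omega)
  have hpj : Prp b j D := h.mono (by omega)
  -- the number of top digits is not large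
  have hq : ((SD b m (fun i => D (j + i))).card : ℝ) ≤ b * (p : ℝ) ^ ε1 := by
    obtain ⟨m', hm'⟩ : ∃ m', m = m' + 1 := ⟨m - 1, by omega⟩
    have h1 := hmin m' (by omega)
    push Not at h1
    have h2 := h1 (by omega)
    have e : (fun i => D (k - m' + i)) = (fun i => D (j + (i + 1))) := by
      funext i
      congr 1
      omega
    rw [e] at h2
    rw [hm'] at hpm ⊢
    rw [SD, comb_card hpm.lt]
    push_cast
    have h3 : ((D (j + 0)).card : ℝ) ≤ b := by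
      have h8 : D (j + 0) ⊆ range b := fun d hd => Finset.mem_range.2 (hpm.lt d hd)
      have := Finset.card_le_card h8
      rw [Finset.card_range] at this
      exact_mod_cast this
    exact mul_le_mul h3 h2.le (Nat.cast_nonneg _) hb0.le
  have hsplit : ((SD b k D).card : ℝ) =
      ((SD b j D).card : ℝ) * ((SD b m (fun i => D (j + i))).card : ℝ) := by
    have h1 := SD_add b j m D hprop
    rw [hjm] at h1
    rw [h1, comb_card (SD_lt b j D hpj)]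
    push_cast
    ring
  refine ⟨j, m, hjm, hm1, hm, ?_⟩
  intro N F hN hF hAN
  set Y := SD b j D with hY
  set q : ℝ := ((SD b m (fun i => D (j + i))).card : ℝ) with hqdef
  have hpe : 0 < (p : ℝ) ^ ε1 := Real.rpow_pos_of_pos hp0 _
  have hY0 : (0 : ℝ) ≤ (Y.card : ℝ) := Nat.cast_nonneg _
  -- the low part is large
  have hYbig : (p : ℝ) ^ (ε / 2) ≤ b * (Y.card : ℝ) := by
    have h1 : (p : ℝ) ^ ε ≤ (Y.card : ℝ) * (b * (p : ℝ) ^ ε1) := by
      calc (p : ℝ) ^ ε ≤ ((SD b k D).card : ℝ) := hA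
        _ = (Y.card : ℝ) * q := hsplit
        _ ≤ _ := mul_le_mul_of_nonneg_left hq hY0
    have h2 : (p : ℝ) ^ (ε / 2) * (p : ℝ) ^ ε1 ≤ (p : ℝ) ^ ε := by
      rw [← Real.rpow_add hp0]
      exact Real.rpow_le_rpow_of_exponent_le hp1.le (by linarith)
    have h3 : (p : ℝ) ^ (ε / 2) * (p : ℝ) ^ ε1 ≤ (b * (Y.card : ℝ)) * (p : ℝ) ^ ε1 := by
      calc (p : ℝ) ^ (ε / 2) * (p : ℝ) ^ ε1 ≤ (Y.card : ℝ) * (b * (p : ℝ) ^ ε1) := h2.trans h1
        _ = _ := by ring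
    exact le_of_mul_le_mul_right h3 hpe
  -- the number of good places
  have hG : (ε / 2) * Real.log p ≤ ((Gd D j : ℝ) + 1) * Real.log b := by
    have h1 : (Y.card : ℝ) ≤ (b : ℝ) ^ (Gd D j) := by
      exact_mod_cast card_le_Gd b j D hpj
    have h2 : (p : ℝ) ^ (ε / 2) ≤ (b : ℝ) ^ (Gd D j + 1) := by
      rw [pow_succ, mul_comm]
      exact hYbig.trans (mul_le_mul_of_nonneg_left h1 hb0.le)
    have h3 := Real.log_le_log (Real.rpow_pos_of_pos hp0 _) h2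
    rw [Real.log_rpow hp0, Real.log_pow] at h3
    push_cast at h3
    exact h3
  have hpow : ρ ^ (Gd D j / 2) ≤ (p : ℝ) ^ (-c0) / ρ := by
    have h1 : ρ ^ (Gd D j / 2) = Real.exp (Real.log ρ * ((Gd D j / 2 : ℕ) : ℝ)) := by
      rw [← Real.rpow_natCast, Real.rpow_def_of_pos hρ0]
    have h2 : (p : ℝ) ^ (-c0) / ρ = Real.exp (Real.log p * (-c0) - Real.log ρ) := by
      rw [Real.exp_sub, Real.exp_log hρ0, Real.rpow_def_of_pos hp0]
    rw [h1, h2, Real.exp_le_exp]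
    have h3 : ((Gd D j : ℝ) - 1) / 2 ≤ ((Gd D j / 2 : ℕ) : ℝ) := by
      have h4 : Gd D j ≤ 2 * (Gd D j / 2) + 1 := by omega
      have h5 : (Gd D j : ℝ) ≤ 2 * ((Gd D j / 2 : ℕ) : ℝ) + 1 := by exact_mod_cast h4
      linarith
    have h6 : Real.log p * c0 = (ε / 4) * (-Real.log ρ) * Real.log p / Real.log b := by
      rw [hc0]
      ring
    have h7 : (ε / 4) * Real.log p / Real.log b ≤ ((Gd D j : ℝ) + 1) / 2 := by
      rw [div_le_iff₀ hL]
      linarith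
    have h8 : Real.log p * c0 ≤ (-Real.log ρ) * (((Gd D j : ℝ) + 1) / 2) := by
      rw [h6]
      calc (ε / 4) * (-Real.log ρ) * Real.log p / Real.log b =
            (-Real.log ρ) * ((ε / 4) * Real.log p / Real.log b) := by ring
        _ ≤ _ := mul_le_mul_of_nonneg_left h7 (by linarith)
    have h9 : (-Real.log ρ) * (((Gd D j : ℝ) - 1) / 2) ≤ (-Real.log ρ) *
        ((Gd D j / 2 : ℕ) : ℝ) := mul_le_mul_of_nonneg_left h3 (by linarith)
    linarith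
  have hen : ((trip Y (b ^ j) 0).card : ℝ) ≤ ρ ^ (Gd D j / 2) * (Y.card : ℝ) ^ 3 :=
    energy b hb j D hpj 0 (by norm_num)
  set z : ℝ := (Y.card : ℝ) * N ^ 4 with hz
  have hz0 : 0 ≤ z := mul_nonneg hY0 (pow_nonneg hN 4)
  have hpc : 0 < (p : ℝ) ^ (-c0) := Real.rpow_pos_of_pos hp0 _
  -- the product of the sizes
  have hzbig : (p : ℝ) ^ (1 - c0 / 8) * F ≤ z * (b * (p : ℝ) ^ ε1) := by
    calc (p : ℝ) ^ (1 - c0 / 8) * F ≤ ((SD b k D).card : ℝ) * N ^ 4 := hAN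
      _ = z * q := by rw [hsplit, hz]; ring
      _ ≤ _ := mul_le_mul_of_nonneg_left hq hz0
  have hkey : ((p : ℝ) ^ (-c0) / ρ) * F ≤ (p : ℝ) ^ (-1 - 2 * (c0 / 8)) * z := by
    have h1 : (p : ℝ) ^ (-c0) * ((b : ℝ) / ρ) ≤ (p : ℝ) ^ (-(c0 / 2)) := by
      calc (p : ℝ) ^ (-c0) * ((b : ℝ) / ρ) ≤ (p : ℝ) ^ (-c0) * (p : ℝ) ^ (c0 / 2) :=
            mul_le_mul_of_nonneg_left hbρ hpc.le
        _ = _ := by
            rw [← Real.rpow_add hp0]
            congr 1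
            ring
    have h2 : (p : ℝ) ^ (-(c0 / 2)) ≤ (p : ℝ) ^ (-1 - 2 * (c0 / 8)) *
        ((p : ℝ) ^ (1 - c0 / 8) * (p : ℝ) ^ (-ε1)) := by
      rw [← Real.rpow_add hp0, ← Real.rpow_add hp0]
      exact Real.rpow_le_rpow_of_exponent_le hp1.le (by linarith)
    have h3 : (p : ℝ) ^ (1 - c0 / 8) * (p : ℝ) ^ (-ε1) * F ≤ z * b := by
      calc (p : ℝ) ^ (1 - c0 / 8) * (p : ℝ) ^ (-ε1) * F =
            ((p : ℝ) ^ (1 - c0 / 8) * F) * (p : ℝ) ^ (-ε1) := by ring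
        _ ≤ (z * (b * (p : ℝ) ^ ε1)) * (p : ℝ) ^ (-ε1) :=
            mul_le_mul_of_nonneg_right hzbig (Real.rpow_nonneg hp0.le _)
        _ = z * b * ((p : ℝ) ^ ε1 * (p : ℝ) ^ (-ε1)) := by ring
        _ = z * b := by
            rw [← Real.rpow_add hp0, add_neg_cancel, Real.rpow_zero, mul_one]
    have h4 : (b : ℝ) * (((p : ℝ) ^ (-c0) / ρ) * F) ≤
        b * ((p : ℝ) ^ (-1 - 2 * (c0 / 8)) * z) := by
      calc (b : ℝ) * (((p : ℝ) ^ (-c0) / ρ) * F) = ((p : ℝ) ^ (-c0) * ((b : ℝ) / ρ)) * F := by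
            ring
        _ ≤ (p : ℝ) ^ (-(c0 / 2)) * F := mul_le_mul_of_nonneg_right h1 hF
        _ ≤ (p : ℝ) ^ (-1 - 2 * (c0 / 8)) * ((p : ℝ) ^ (1 - c0 / 8) * (p : ℝ) ^ (-ε1)) * F :=
            mul_le_mul_of_nonneg_right h2 hF
        _ = (p : ℝ) ^ (-1 - 2 * (c0 / 8)) * ((p : ℝ) ^ (1 - c0 / 8) * (p : ℝ) ^ (-ε1) * F) := by
            ring
        _ ≤ (p : ℝ) ^ (-1 - 2 * (c0 / 8)) * (z * b) :=
            mul_le_mul_of_nonneg_left h3 (Real.rpow_nonneg hp0.le _)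
        _ = _ := by ring
    exact le_of_mul_le_mul_left h4 hb0
  have hY3 : (0 : ℝ) ≤ (Y.card : ℝ) ^ 3 := pow_nonneg hY0 3
  calc ((trip Y (b ^ j) 0).card : ℝ) * F
      ≤ (((p : ℝ) ^ (-c0) / ρ) * (Y.card : ℝ) ^ 3) * F := by
        have h1 : ρ ^ (Gd D j / 2) * (Y.card : ℝ) ^ 3 ≤
            ((p : ℝ) ^ (-c0) / ρ) * (Y.card : ℝ) ^ 3 := mul_le_mul_of_nonneg_right hpow hY3
        exact mul_le_mul_of_nonneg_right (hen.trans h1) hF
    _ = (((p : ℝ) ^ (-c0) / ρ) * F) * (Y.card : ℝ) ^ 3 := by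
        generalize (p : ℝ) ^ (-c0) / ρ = w
        ring
    _ ≤ ((p : ℝ) ^ (-1 - 2 * (c0 / 8)) * z) * (Y.card : ℝ) ^ 3 :=
        mul_le_mul_of_nonneg_right hkey hY3
    _ = _ := by
        have h1 : (p : ℝ) ^ (-1 - 2 * (c0 / 8)) = ((p : ℝ) ^ (-(1 / 2) - c0 / 8)) ^ 2 := by
          rw [← Real.rpow_natCast, ← Real.rpow_mul hp0.le]
          congr 1
          push_cast
          ring
        rw [h1, hz]
        generalize (p : ℝ) ^ (-(1 / 2) - c0 / 8) = w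
        ring

end Pool.Agent.Q263.PG
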