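import Mathlib
import Pool.Agent.Q263.PG.E3
import Pool.Agent.Q263.PG.Cut

/-!
The place of the cut, for the third moment.
-/

set_option autoImplicit false

open Finset

namespace Pool.Agent.Q263.PG

/-- the place of the cut, general form -/
theorem cut0 (b : ℕ) (hb : 2 ≤ b) (ε : ℝ) (hε : 0 < ε) : ∃ c0 ρ : ℝ, 0 < c0 ∧ 0 < ρ ∧
    ∀ ε1 : ℝ, 0 < ε1 → ε1 ≤ ε / 2 → ∀ p : ℕ, 2 ≤ p → ∀ (k : ℕ) (D : ℕ → Finset ℕ), Prp b k D →
      (p : ℝ) ^ ε ≤ ((SD b k D).card : ℝ) →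
      ∃ j m : ℕ, j + m = k ∧ 1 ≤ m ∧ (p : ℝ) ^ ε1 ≤ ((SD b m (fun i => D (j + i))).card : ℝ) ∧
        ((SD b k D).card : ℝ) ≤ ((SD b j D).card : ℝ) * (b * (p : ℝ) ^ ε1) ∧
        ((trip (SD b j D) (b ^ j) 0).card : ℝ) ≤
          ((p : ℝ) ^ (-c0) / ρ) * ((SD b j D).card : ℝ) ^ 3 := by
  classical
  have hb0 : (0 : ℝ) < b := by exact_mod_cast (by omega : 0 < b)
  have hb2 : (2 : ℝ) ≤ b := by exact_mod_cast hb
  set ρ : ℝ := 1 - 1 / (b : ℝ) ^ 6 with hρ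
  have hb6 : (1 : ℝ) < (b : ℝ) ^ 6 := one_lt_pow₀ (by linarith) (by norm_num)
  have hρ0 : 0 < ρ := by
    rw [hρ, sub_pos, div_lt_one (by positivity)]
    exact hb6
  have hρ1 : ρ < 1 := by
    rw [hρ]
    have : 0 < 1 / (b : ℝ) ^ 6 := by positivity
    linarith
  have hL : 0 < Real.log b := Real.log_pos (by linarith)
  have hlρ : Real.log ρ < 0 := Real.log_neg hρ0 hρ1
  set c0 : ℝ := (ε / 4) * (-Real.log ρ) / Real.log b with hc0
  have hc0p : 0 < c0 := by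
    rw [hc0]
    apply div_pos _ hL
    apply mul_pos (by linarith)
    linarith
  refine ⟨c0, ρ, hc0p, hρ0, ?_⟩
  intro ε1 hε1p hε1a p hp2 k D h hA
  have hp1 : (1 : ℝ) < p := by exact_mod_cast (by omega : 1 < p)
  have hp0 : (0 : ℝ) < p := by linarith
  -- the least number of top digits
  have hex : ∃ m : ℕ, m ≤ k ∧ (p : ℝ) ^ ε1 ≤ ((SD b m (fun i => D (k - m + i))).card : ℝ) := by
    refine ⟨k, le_rfl, ?_⟩
    have e : (fun i => D (k - k + i)) = D := by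
      funext i
      rw [Nat.sub_self, Nat.zero_add]
    rw [e]
    refine le_trans ?_ hA
    exact Real.rpow_le_rpow_of_exponent_le hp1.le (by linarith)
  obtain ⟨hmk, hm⟩ := Nat.find_spec hex
  have hmin := fun m' (hm' : m' < Nat.find hex) => Nat.find_min hex hm'
  set m := Nat.find hex with hmdef
  have hm1 : 1 ≤ m := by
    by_contra hcon
    have h0 : m = 0 := by omega
    rw [h0] at hm
    simp only [SD, Finset.card_singleton, Nat.cast_one] at hm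
    have := Real.one_lt_rpow hp1 hε1p
    linarith
  have hjm : k - m + m = k := by omega
  set j := k - m with hj
  have hprop : Prp b (j + m) D := by rw [hjm]; exact h
  have hpm : Prp b m (fun i => D (j + i)) := h.shift j (by omega)
  have hpj : Prp b j D := h.mono (by omega)
  -- the number of top digits is not large
  have hq : ((SD b m (fun i => D (j + i))).card : ℝ) ≤ b * (p : ℝ) ^ ε1 := by
    obtain ⟨m', hm'⟩ : ∃ m', m = m' + 1 := ⟨m - 1, by omega⟩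
    have h1 := hmin m' (by omega)
    push Not at h1
    have h2 := h1 (by omega)
    have e : (fun i => D (k - m' + i)) = (fun i => D (j + (i + 1))) := by
      funext i
      congr 1
      omega
    rw [e] at h2
    rw [hm'] at hpm ⊢
    rw [SD, comb_card hpm.lt]
    push_cast
    have h3 : ((D (j + 0)).card : ℝ) ≤ b := by
      have h8 : D (j + 0) ⊆ range b := fun d hd => Finset.mem_range.2 (hpm.lt d hd)
      have := Finset.card_le_card h8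
      rw [Finset.card_range] at this
      exact_mod_cast this
    exact mul_le_mul h3 h2.le (Nat.cast_nonneg _) hb0.le
  have hsplit : ((SD b k D).card : ℝ) =
      ((SD b j D).card : ℝ) * ((SD b m (fun i => D (j + i))).card : ℝ) := by
    have h1 := SD_add b j m D hprop
    rw [hjm] at h1
    rw [h1, comb_card (SD_lt b j D hpj)]
    push_cast
    ring
  refine ⟨j, m, hjm, hm1, hm, ?_⟩
  set Y := SD b j D with hY
  set q : ℝ := ((SD b m (fun i => D (j + i))).card : ℝ) with hqdef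
  have hpe : 0 < (p : ℝ) ^ ε1 := Real.rpow_pos_of_pos hp0 _
  have hY0 : (0 : ℝ) ≤ (Y.card : ℝ) := Nat.cast_nonneg _
  -- the low part is large
  have hYbig : (p : ℝ) ^ (ε / 2) ≤ b * (Y.card : ℝ) := by
    have h1 : (p : ℝ) ^ ε ≤ (Y.card : ℝ) * (b * (p : ℝ) ^ ε1) := by
      calc (p : ℝ) ^ ε ≤ ((SD b k D).card : ℝ) := hA
        _ = (Y.card : ℝ) * q := hsplit
        _ ≤ _ := mul_le_mul_of_nonneg_left hq hY0
    have h2 : (p : ℝ) ^ (ε / 2) * (p : ℝ) ^ ε1 ≤ (p : ℝ) ^ ε := by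
      rw [← Real.rpow_add hp0]
      exact Real.rpow_le_rpow_of_exponent_le hp1.le (by linarith)
    have h3 : (p : ℝ) ^ (ε / 2) * (p : ℝ) ^ ε1 ≤ (b * (Y.card : ℝ)) * (p : ℝ) ^ ε1 := by
      calc (p : ℝ) ^ (ε / 2) * (p : ℝ) ^ ε1 ≤ (Y.card : ℝ) * (b * (p : ℝ) ^ ε1) := h2.trans h1
        _ = _ := by ring
    exact le_of_mul_le_mul_right h3 hpe
  -- the number of good places
  have hG : (ε / 2) * Real.log p ≤ ((Gd D j : ℝ) + 1) * Real.log b := by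
    have h1 : (Y.card : ℝ) ≤ (b : ℝ) ^ (Gd D j) := by
      exact_mod_cast card_le_Gd b j D hpj
    have h2 : (p : ℝ) ^ (ε / 2) ≤ (b : ℝ) ^ (Gd D j + 1) := by
      rw [pow_succ, mul_comm]
      exact hYbig.trans (mul_le_mul_of_nonneg_left h1 hb0.le)
    have h3 := Real.log_le_log (Real.rpow_pos_of_pos hp0 _) h2
    rw [Real.log_rpow hp0, Real.log_pow] at h3
    push_cast at h3
    exact h3
  have hpow : ρ ^ (Gd D j / 2) ≤ (p : ℝ) ^ (-c0) / ρ := by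
    have h1 : ρ ^ (Gd D j / 2) = Real.exp (Real.log ρ * ((Gd D j / 2 : ℕ) : ℝ)) := by
      rw [← Real.rpow_natCast, Real.rpow_def_of_pos hρ0]
    have h2 : (p : ℝ) ^ (-c0) / ρ = Real.exp (Real.log p * (-c0) - Real.log ρ) := by
      rw [Real.exp_sub, Real.exp_log hρ0, Real.rpow_def_of_pos hp0]
    rw [h1, h2, Real.exp_le_exp]
    have h3 : ((Gd D j : ℝ) - 1) / 2 ≤ ((Gd D j / 2 : ℕ) : ℝ) := by
      have h4 : Gd D j ≤ 2 * (Gd D j / 2) + 1 := by omega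
      have h5 : (Gd D j : ℝ) ≤ 2 * ((Gd D j / 2 : ℕ) : ℝ) + 1 := by exact_mod_cast h4
      linarith
    have h6 : Real.log p * c0 = (ε / 4) * (-Real.log ρ) * Real.log p / Real.log b := by
      rw [hc0]
      ring
    have h7 : (ε / 4) * Real.log p / Real.log b ≤ ((Gd D j : ℝ) + 1) / 2 := by
      rw [div_le_iff₀ hL]
      linarith
    have h8 : Real.log p * c0 ≤ (-Real.log ρ) * (((Gd D j : ℝ) + 1) / 2) := by
      rw [h6]
      calc (ε / 4) * (-Real.log ρ) * Real.log p / Real.log b =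
            (-Real.log ρ) * ((ε / 4) * Real.log p / Real.log b) := by ring
        _ ≤ _ := mul_le_mul_of_nonneg_left h7 (by linarith)
    have h9 : (-Real.log ρ) * (((Gd D j : ℝ) - 1) / 2) ≤ (-Real.log ρ) *
        ((Gd D j / 2 : ℕ) : ℝ) := mul_le_mul_of_nonneg_left h3 (by linarith)
    linarith
  have hen : ((trip Y (b ^ j) 0).card : ℝ) ≤ ρ ^ (Gd D j / 2) * (Y.card : ℝ) ^ 3 :=
    energy b hb j D hpj 0 (by norm_num)
  have hY3 : (0 : ℝ) ≤ (Y.card : ℝ) ^ 3 := pow_nonneg hY0 3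
  refine ⟨?_, hen.trans (mul_le_mul_of_nonneg_right hpow hY3)⟩
  rw [hsplit]
  exact mul_le_mul_of_nonneg_left hq hY0

/-- **the place of the cut** -/
theorem cut3 (b : ℕ) (hb : 2 ≤ b) (ε : ℝ) (hε : 0 < ε) : ∃ ε1 η c : ℝ, 0 < ε1 ∧ 0 < η ∧ 0 < c ∧
    ∃ P : ℕ, ∀ p : ℕ, P ≤ p → ∀ (k : ℕ) (D : ℕ → Finset ℕ), Prp b k D →
      (p : ℝ) ^ ε ≤ ((SD b k D).card : ℝ) →
      ∃ j m : ℕ, j + m = k ∧ 1 ≤ m ∧ (p : ℝ) ^ ε1 ≤ ((SD b m (fun i => D (j + i))).card : ℝ) ∧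
        ∀ N F : ℝ, 0 ≤ N → 0 ≤ F →
          (p : ℝ) ^ (3 - c) * F ^ 2 ≤ ((SD b k D).card : ℝ) ^ 2 * N ^ 12 →
          ((t3 (SD b j D)).card : ℝ) * F ^ 2 ≤
            ((p : ℝ) ^ (-1 - η) * (((SD b j D).card : ℝ) * N ^ 2) ^ 2) ^ 3 := by
  have hb0 : (0 : ℝ) < b := by exact_mod_cast (by omega : 0 < b)
  obtain ⟨c0, ρ, hc0p, hρ0, hcut⟩ := cut0 b hb ε hε
  obtain ⟨P0, hP0⟩ : ∃ P0 : ℕ, ∀ p : ℕ, P0 ≤ p → (b : ℝ) ^ 2 / ρ ≤ (p : ℝ) ^ (c0 / 2) := by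
    have h1 := (tendsto_rpow_atTop (y := c0 / 2) (by linarith)).comp
      (tendsto_natCast_atTop_atTop (R := ℝ))
    have h2 := (Filter.tendsto_atTop.1 h1 ((b : ℝ) ^ 2 / ρ))
    obtain ⟨P0, hP0⟩ := Filter.eventually_atTop.1 h2
    exact ⟨P0, fun p hp => hP0 p hp⟩
  have hε1p : 0 < min (ε / 2) (c0 / 16) := by
    apply lt_min <;> linarith
  have hε1a : min (ε / 2) (c0 / 16) ≤ ε / 2 := min_le_left _ _
  have hε1b : min (ε / 2) (c0 / 16) ≤ c0 / 16 := min_le_right _ _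
  refine ⟨min (ε / 2) (c0 / 16), c0 / 16, c0 / 8, hε1p, by linarith, by linarith, max P0 2, ?_⟩
  generalize min (ε / 2) (c0 / 16) = ε1 at hε1p hε1a hε1b ⊢
  intro p hp k D h hA
  have hp2 : 2 ≤ p := (le_max_right _ _).trans hp
  have hp1 : (1 : ℝ) < p := by exact_mod_cast (by omega : 1 < p)
  have hp0 : (0 : ℝ) < p := by linarith
  have hbρ := hP0 p ((le_max_left _ _).trans hp)
  obtain ⟨j, m, hjm, hm1, hm, hS, htrip⟩ := hcut ε1 hε1p hε1a p hp2 k D h hA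
  refine ⟨j, m, hjm, hm1, hm, ?_⟩
  intro N F hN hF hAN
  have h3 : ((t3 (SD b j D)).card : ℝ) ≤
      ((p : ℝ) ^ (-c0) / ρ) * ((SD b j D).card : ℝ) ^ 4 := by
    have h1 : ((t3 (SD b j D)).card : ℝ) ≤ ((SD b j D).card : ℝ) *
        ((trip (SD b j D) (b ^ j) 0).card : ℝ) := by exact_mod_cast t3_le (SD b j D) (b ^ j)
    calc ((t3 (SD b j D)).card : ℝ) ≤ ((SD b j D).card : ℝ) *
        ((trip (SD b j D) (b ^ j) 0).card : ℝ) := h1
      _ ≤ ((SD b j D).card : ℝ) * (((p : ℝ) ^ (-c0) / ρ) * ((SD b j D).card : ℝ) ^ 3) :=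
          mul_le_mul_of_nonneg_left htrip (Nat.cast_nonneg _)
      _ = _ := by
          generalize (p : ℝ) ^ (-c0) / ρ = w
          ring
  generalize ((t3 (SD b j D)).card : ℝ) = T at h3 ⊢
  have hY0 : (0 : ℝ) ≤ ((SD b j D).card : ℝ) := Nat.cast_nonneg _
  generalize ((SD b j D).card : ℝ) = Y at h3 hS hY0 ⊢
  have hS0 : (0 : ℝ) ≤ ((SD b k D).card : ℝ) := Nat.cast_nonneg _
  generalize ((SD b k D).card : ℝ) = S at hS hAN hS0
  have hpe : 0 < (p : ℝ) ^ ε1 := Real.rpow_pos_of_pos hp0 _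
  set x : ℝ := (p : ℝ) ^ ε1 with hx
  have hN12 : 0 ≤ N ^ 12 := by positivity
  -- the hypothesis in terms of `Y`
  have h4 : (p : ℝ) ^ (3 - c0 / 8) * F ^ 2 ≤ (Y ^ 2 * N ^ 12) * (b ^ 2 * x ^ 2) := by
    calc (p : ℝ) ^ (3 - c0 / 8) * F ^ 2 ≤ S ^ 2 * N ^ 12 := hAN
      _ ≤ (Y * (b * x)) ^ 2 * N ^ 12 :=
          mul_le_mul_of_nonneg_right (pow_le_pow_left₀ hS0 hS 2) hN12
      _ = _ := by ring
  have hz0 : 0 ≤ Y ^ 2 * N ^ 12 := by positivity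
  have h5 : ((p : ℝ) ^ (-c0) / ρ) * F ^ 2 ≤ (p : ℝ) ^ (-3 - 3 * (c0 / 16)) * (Y ^ 2 * N ^ 12) := by
    have h6 : (p : ℝ) ^ (-c0) * ((b : ℝ) ^ 2 / ρ) ≤ (p : ℝ) ^ (-(c0 / 2)) := by
      calc (p : ℝ) ^ (-c0) * ((b : ℝ) ^ 2 / ρ) ≤ (p : ℝ) ^ (-c0) * (p : ℝ) ^ (c0 / 2) :=
            mul_le_mul_of_nonneg_left hbρ (Real.rpow_nonneg hp0.le _)
        _ = _ := by
            rw [← Real.rpow_add hp0]
            congr 1
            ring
    have h7 : (p : ℝ) ^ (-(c0 / 2)) ≤ (p : ℝ) ^ (-3 - 3 * (c0 / 16)) *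
        ((p : ℝ) ^ (3 - c0 / 8) * (p : ℝ) ^ (-(2 * ε1))) := by
      rw [← Real.rpow_add hp0, ← Real.rpow_add hp0]
      exact Real.rpow_le_rpow_of_exponent_le hp1.le (by linarith)
    have hx2 : x ^ 2 * (p : ℝ) ^ (-(2 * ε1)) = 1 := by
      rw [hx, ← Real.rpow_natCast, ← Real.rpow_mul hp0.le, ← Real.rpow_add hp0]
      have : ε1 * ((2 : ℕ) : ℝ) + -(2 * ε1) = 0 := by push_cast; ring
      rw [this, Real.rpow_zero]
    have h8 : (p : ℝ) ^ (3 - c0 / 8) * (p : ℝ) ^ (-(2 * ε1)) * F ^ 2 ≤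
        (Y ^ 2 * N ^ 12) * b ^ 2 := by
      calc (p : ℝ) ^ (3 - c0 / 8) * (p : ℝ) ^ (-(2 * ε1)) * F ^ 2 =
            ((p : ℝ) ^ (3 - c0 / 8) * F ^ 2) * (p : ℝ) ^ (-(2 * ε1)) := by ring
        _ ≤ ((Y ^ 2 * N ^ 12) * (b ^ 2 * x ^ 2)) * (p : ℝ) ^ (-(2 * ε1)) :=
            mul_le_mul_of_nonneg_right h4 (Real.rpow_nonneg hp0.le _)
        _ = (Y ^ 2 * N ^ 12) * b ^ 2 * (x ^ 2 * (p : ℝ) ^ (-(2 * ε1))) := by ring
        _ = _ := by rw [hx2, mul_one]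
    have hb2 : (0 : ℝ) < (b : ℝ) ^ 2 := by positivity
    have h9 : (b : ℝ) ^ 2 * (((p : ℝ) ^ (-c0) / ρ) * F ^ 2) ≤
        b ^ 2 * ((p : ℝ) ^ (-3 - 3 * (c0 / 16)) * (Y ^ 2 * N ^ 12)) := by
      calc (b : ℝ) ^ 2 * (((p : ℝ) ^ (-c0) / ρ) * F ^ 2) =
            ((p : ℝ) ^ (-c0) * ((b : ℝ) ^ 2 / ρ)) * F ^ 2 := by ring
        _ ≤ (p : ℝ) ^ (-(c0 / 2)) * F ^ 2 := mul_le_mul_of_nonneg_right h6 (by positivity)
        _ ≤ (p : ℝ) ^ (-3 - 3 * (c0 / 16)) *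
            ((p : ℝ) ^ (3 - c0 / 8) * (p : ℝ) ^ (-(2 * ε1))) * F ^ 2 :=
            mul_le_mul_of_nonneg_right h7 (by positivity)
        _ = (p : ℝ) ^ (-3 - 3 * (c0 / 16)) *
            ((p : ℝ) ^ (3 - c0 / 8) * (p : ℝ) ^ (-(2 * ε1)) * F ^ 2) := by ring
        _ ≤ (p : ℝ) ^ (-3 - 3 * (c0 / 16)) * ((Y ^ 2 * N ^ 12) * b ^ 2) :=
            mul_le_mul_of_nonneg_left h8 (Real.rpow_nonneg hp0.le _)
        _ = _ := by ring
    exact le_of_mul_le_mul_left h9 hb2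
  calc T * F ^ 2 ≤ (((p : ℝ) ^ (-c0) / ρ) * Y ^ 4) * F ^ 2 :=
        mul_le_mul_of_nonneg_right h3 (by positivity)
    _ = (((p : ℝ) ^ (-c0) / ρ) * F ^ 2) * Y ^ 4 := by
        generalize (p : ℝ) ^ (-c0) / ρ = w
        ring
    _ ≤ ((p : ℝ) ^ (-3 - 3 * (c0 / 16)) * (Y ^ 2 * N ^ 12)) * Y ^ 4 :=
        mul_le_mul_of_nonneg_right h5 (by positivity)
    _ = _ := by
        have h1 : (p : ℝ) ^ (-3 - 3 * (c0 / 16)) = ((p : ℝ) ^ (-1 - c0 / 16)) ^ 3 := by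
          rw [← Real.rpow_natCast, ← Real.rpow_mul hp0.le]
          congr 1
          push_cast
          ring
        rw [h1]
        generalize (p : ℝ) ^ (-1 - c0 / 16) = w
        ring

/-- **the place of the cut**, Sidon sets of digits -/
theorem cut_sid (b : ℕ) (hb : 3 ≤ b) (ε : ℝ) (hε : 0 < ε) : ∃ ε1 η : ℝ, 0 < ε1 ∧ 0 < η ∧
    ∃ P : ℕ, ∀ p : ℕ, P ≤ p → ∀ (k : ℕ) (D : ℕ → Finset ℕ), Sid b k D →
      (p : ℝ) ^ ε ≤ ((SD b k D).card : ℝ) →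
      ∃ j m : ℕ, j + m = k ∧ 1 ≤ m ∧ (p : ℝ) ^ ε1 ≤ ((SD b m (fun i => D (j + i))).card : ℝ) ∧
        ∀ N F : ℝ, 0 ≤ N → 0 ≤ F →
          (p : ℝ) ^ (3 + ε) * F ^ 2 ≤ ((SD b k D).card : ℝ) ^ (107 / 40 : ℝ) * N ^ 12 →
          ((t3 (SD b j D)).card : ℝ) * F ^ 2 ≤
            ((p : ℝ) ^ (-1 - η) * (((SD b j D).card : ℝ) * N ^ 2) ^ 2) ^ 3 := by
  have hb0 : (0 : ℝ) < b := by exact_mod_cast (by omega : 0 < b)
  obtain ⟨c0, ρ, hc0p, hρ0, hcut⟩ := cut0 b (by omega) ε hε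
  obtain ⟨P0, hP0⟩ : ∃ P0 : ℕ, ∀ p : ℕ, P0 ≤ p → (b : ℝ) ^ (107 / 40 : ℝ) ≤ (p : ℝ) ^ (ε / 4) := by
    have h1 := (tendsto_rpow_atTop (y := ε / 4) (by linarith)).comp
      (tendsto_natCast_atTop_atTop (R := ℝ))
    have h2 := (Filter.tendsto_atTop.1 h1 ((b : ℝ) ^ (107 / 40 : ℝ)))
    obtain ⟨P0, hP0⟩ := Filter.eventually_atTop.1 h2
    exact ⟨P0, fun p hp => hP0 p hp⟩
  refine ⟨ε / 8, ε / 12, by linarith, by linarith, max P0 2, ?_⟩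
  intro p hp k D h hA
  have hp2 : 2 ≤ p := (le_max_right _ _).trans hp
  have hp1 : (1 : ℝ) < p := by exact_mod_cast (by omega : 1 < p)
  have hp0 : (0 : ℝ) < p := by linarith
  have hbp := hP0 p ((le_max_left _ _).trans hp)
  obtain ⟨j, m, hjm, hm1, hm, hS, _⟩ := hcut (ε / 8) (by linarith) (by linarith) p hp2 k D
    (h.prp hb) hA
  refine ⟨j, m, hjm, hm1, hm, ?_⟩
  intro N F hN hF hAN
  have h3 := t3_digits b j D (h.mono (by omega))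
  generalize ((t3 (SD b j D)).card : ℝ) = T at h3 ⊢
  have hY0 : (0 : ℝ) ≤ ((SD b j D).card : ℝ) := Nat.cast_nonneg _
  generalize ((SD b j D).card : ℝ) = Y at h3 hS hY0 ⊢
  have hS0 : (0 : ℝ) ≤ ((SD b k D).card : ℝ) := Nat.cast_nonneg _
  generalize ((SD b k D).card : ℝ) = S at hS hAN hS0
  have hN12 : 0 ≤ N ^ 12 := by positivity
  have h4 : (p : ℝ) ^ (3 + ε) * F ^ 2 ≤
      (Y ^ (107 / 40 : ℝ) * N ^ 12) * (p : ℝ) ^ (ε / 4 + ε / 8 * (107 / 40)) := by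
    calc (p : ℝ) ^ (3 + ε) * F ^ 2 ≤ S ^ (107 / 40 : ℝ) * N ^ 12 := hAN
      _ ≤ (Y * (b * (p : ℝ) ^ (ε / 8))) ^ (107 / 40 : ℝ) * N ^ 12 :=
          mul_le_mul_of_nonneg_right (Real.rpow_le_rpow hS0 hS (by norm_num)) hN12
      _ = (Y ^ (107 / 40 : ℝ) * N ^ 12) *
          ((b : ℝ) ^ (107 / 40 : ℝ) * (p : ℝ) ^ (ε / 8 * (107 / 40))) := by
          rw [Real.mul_rpow hY0 (by positivity), Real.mul_rpow hb0.le (by positivity),
            ← Real.rpow_mul hp0.le]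
          ring
      _ ≤ (Y ^ (107 / 40 : ℝ) * N ^ 12) *
          ((p : ℝ) ^ (ε / 4) * (p : ℝ) ^ (ε / 8 * (107 / 40))) := by
          apply mul_le_mul_of_nonneg_left _ (by positivity)
          exact mul_le_mul_of_nonneg_right hbp (by positivity)
      _ = _ := by rw [Real.rpow_add hp0]
  have h5 : F ^ 2 ≤ (p : ℝ) ^ (-3 - ε / 4) * (Y ^ (107 / 40 : ℝ) * N ^ 12) := by
    have h6 : (p : ℝ) ^ (3 + ε) * F ^ 2 ≤
        (p : ℝ) ^ (3 + ε) * ((p : ℝ) ^ (-3 - ε / 4) * (Y ^ (107 / 40 : ℝ) * N ^ 12)) := by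
      refine h4.trans ?_
      rw [← mul_assoc, ← Real.rpow_add hp0, mul_comm]
      apply mul_le_mul_of_nonneg_right _ (by positivity)
      exact Real.rpow_le_rpow_of_exponent_le hp1.le (by linarith)
    exact le_of_mul_le_mul_left h6 (by positivity)
  calc T * F ^ 2 ≤ Y ^ (133 / 40 : ℝ) * F ^ 2 := mul_le_mul_of_nonneg_right h3 (by positivity)
    _ ≤ Y ^ (133 / 40 : ℝ) * ((p : ℝ) ^ (-3 - ε / 4) * (Y ^ (107 / 40 : ℝ) * N ^ 12)) :=
        mul_le_mul_of_nonneg_left h5 (by positivity)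
    _ = (p : ℝ) ^ (-3 - ε / 4) * ((Y ^ (133 / 40 : ℝ) * Y ^ (107 / 40 : ℝ)) * N ^ 12) := by ring
    _ = _ := by
        have h1 : (p : ℝ) ^ (-3 - ε / 4) = ((p : ℝ) ^ (-1 - ε / 12)) ^ 3 := by
          rw [← Real.rpow_natCast, ← Real.rpow_mul hp0.le]
          congr 1
          push_cast
          ring
        have h2 : Y ^ (133 / 40 : ℝ) * Y ^ (107 / 40 : ℝ) = Y ^ 6 := by
          rw [← Real.rpow_add_of_nonneg hY0 (by norm_num) (by norm_num), ← Real.rpow_natCast]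
          norm_num
        rw [h1, h2]
        generalize (p : ℝ) ^ (-1 - ε / 12) = w
        ring

end Pool.Agent.Q263.PG
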