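import Mathlib
import Pool.Agent.Q263.PG.Cut3
import Pool.Agent.Q263.PG.Col3

/-!
Bilinear forms with arbitrary weights over sets with restricted digits.
-/

set_option autoImplicit false

open Finset

namespace Pool.Agent.Q263.PG

/-- the estimate for pairs of values of `f(y, x)` -/
lemma use_core2 (ε1 η : ℝ) (hε1 : 0 < ε1) (hη : 0 < η) : ∃ τ : ℝ, 0 < τ ∧ ∃ P : ℕ,
    ∀ p : ℕ, ∀ _ : Fact p.Prime, P ≤ p → ∀ χ : DirichletCharacter ℂ p, χ ≠ 1 →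
      ∀ W : Finset (ZMod p), (p : ℝ) ^ ε1 ≤ W.card →
        ∀ (β : Type) [DecidableEq β] (Y : Finset ℕ) (B : Finset β) (f : ℕ → β → ZMod p)
          (dY : ℕ → ℕ → ZMod p) (dB : β → β → ZMod p) (F : ℕ),
          (∀ y1 ∈ Y, ∀ y2 ∈ Y, ∀ x1 ∈ B, ∀ x2 ∈ B, f y1 x1 = f y2 x2 → dY y1 y2 = dB x1 x2) →
          (∀ y1 ∈ Y, ∀ y2 ∈ Y, ∀ y3 ∈ Y, ∀ y4 ∈ Y, dY y1 y2 = dY y3 y4 → y1 + y4 = y2 + y3) →
          (((B ×ˢ B) ×ˢ (B ×ˢ B) ×ˢ (B ×ˢ B)).filter fun s =>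
            dB s.1.1 s.1.2 = dB s.2.1.1 s.2.1.2 ∧ dB s.1.1 s.1.2 = dB s.2.2.1 s.2.2.2).card ≤ F →
          ((t3 Y).card : ℝ) * (F : ℝ) ^ 2 ≤
            ((p : ℝ) ^ (-1 - η) * ((Y.card : ℝ) * (B.card : ℝ) ^ 2) ^ 2) ^ 3 →
          ∑ y ∈ Y, ∑ x ∈ B, ∑ x' ∈ B,
              ‖∑ w ∈ W, χ (f y x + w) * (starRingEnd ℂ) (χ (f y x' + w))‖ ≤
            (p : ℝ) ^ (-τ) * ((Y.card : ℝ) * (B.card : ℝ) ^ 2 * W.card) := by
  classical
  obtain ⟨τ, hτ, P, h⟩ := core2_fun ε1 η hε1 hη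
  refine ⟨τ, hτ, P, ?_⟩
  intro p _ hp χ hχ W hW β _ Y B f dY dB F hf hadd hF hE
  have h1 := h p inferInstance hp χ hχ W hW (ℕ × β × β) (Y ×ˢ B ×ˢ B)
    (fun t => (f t.1 t.2.1, f t.1 t.2.2))
  have h2 := coll3 Y B dY dB hadd
  rw [Finset.card_product, Finset.card_product] at h1
  push_cast at h1
  have h3 := h1 (by
    have h5 : (((Y ×ˢ B ×ˢ B) ×ˢ (Y ×ˢ B ×ˢ B)).filter
        fun t => (f t.1.1 t.1.2.1, f t.1.1 t.1.2.2) = (f t.2.1 t.2.2.1, f t.2.1 t.2.2.2)).card ≤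
        (((Y ×ˢ B ×ˢ B) ×ˢ (Y ×ˢ B ×ˢ B)).filter fun t => dY t.1.1 t.2.1 = dB t.1.2.1 t.2.2.1 ∧
          dY t.1.1 t.2.1 = dB t.1.2.2 t.2.2.2).card := by
      apply Finset.card_le_card
      intro t ht
      have h6 := Finset.mem_filter.1 ht
      have h7 := h6.1
      rw [Finset.mem_product, Finset.mem_product, Finset.mem_product, Finset.mem_product,
        Finset.mem_product] at h7
      have h8 := Prod.ext_iff.1 h6.2
      exact Finset.mem_filter.2 ⟨h6.1, hf _ h7.1.1 _ h7.2.1 _ h7.1.2.1 _ h7.2.2.1 h8.1,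
        hf _ h7.1.1 _ h7.2.1 _ h7.1.2.2 _ h7.2.2.2 h8.2⟩
    have h8 := (Nat.pow_le_pow_left h5 3).trans (h2.trans (Nat.mul_le_mul_left _
      (Nat.pow_le_pow_left hF 2)))
    have h4 : (((((Y ×ˢ B ×ˢ B) ×ˢ (Y ×ˢ B ×ˢ B)).filter
        fun t => (f t.1.1 t.1.2.1, f t.1.1 t.1.2.2) =
          (f t.2.1 t.2.2.1, f t.2.1 t.2.2.2)).card : ℕ) : ℝ) ^ 3 ≤
        ((p : ℝ) ^ (-1 - η) * ((Y.card : ℝ) * (B.card : ℝ) ^ 2) ^ 2) ^ 3 := by
      refine le_trans ?_ hE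
      exact_mod_cast h8
    have h9 := (pow_le_pow_iff_left₀ (Nat.cast_nonneg _) (by positivity) (by norm_num)).1 h4
    rw [sq (B.card : ℝ)] at h9
    exact h9)
  rw [Finset.sum_product] at h3
  have e : ∀ y ∈ Y, ∑ t ∈ B ×ˢ B, ‖∑ w ∈ W, χ (f y t.1 + w) * (starRingEnd ℂ) (χ (f y t.2 + w))‖ =
      ∑ x ∈ B, ∑ x' ∈ B, ‖∑ w ∈ W, χ (f y x + w) * (starRingEnd ℂ) (χ (f y x' + w))‖ :=
    fun y _ => Finset.sum_product _ _ _
  rw [Finset.sum_congr rfl e] at h3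
  rw [sq (B.card : ℝ)]
  exact h3

/-- the Cauchy-Schwarz inequality for a bilinear form with weights -/
lemma bil_cs {α β : Type} (S : Finset α) (B : Finset β) (f : α → ℂ) (g : β → ℂ)
    (K : α → β → ℂ) (hf : ∀ n, ‖f n‖ ≤ 1) (hg : ∀ x, ‖g x‖ ≤ 1) :
    ‖∑ n ∈ S, ∑ x ∈ B, f n * g x * K n x‖ ^ 2 ≤
      S.card * ∑ x ∈ B, ∑ x' ∈ B, ‖∑ n ∈ S, K n x * (starRingEnd ℂ) (K n x')‖ := by
  have h1 : ‖∑ n ∈ S, ∑ x ∈ B, f n * g x * K n x‖ ≤ ∑ n ∈ S, ‖∑ x ∈ B, g x * K n x‖ := by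
    refine (norm_sum_le _ _).trans (Finset.sum_le_sum fun n _ => ?_)
    have e : ∑ x ∈ B, f n * g x * K n x = f n * ∑ x ∈ B, g x * K n x := by
      rw [Finset.mul_sum]
      exact Finset.sum_congr rfl fun x _ => by ring
    rw [e, norm_mul]
    exact mul_le_of_le_one_left (norm_nonneg _) (hf n)
  have h2 : (∑ n ∈ S, ‖∑ x ∈ B, g x * K n x‖) ^ 2 ≤
      S.card * ∑ n ∈ S, ‖∑ x ∈ B, g x * K n x‖ ^ 2 := sq_sum_le_card_mul_sum_sq
  have h3 : ((∑ n ∈ S, ‖∑ x ∈ B, g x * K n x‖ ^ 2 : ℝ) : ℂ) =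
      ∑ x ∈ B, ∑ x' ∈ B, g x * (starRingEnd ℂ) (g x') *
        ∑ n ∈ S, K n x * (starRingEnd ℂ) (K n x') := by
    push_cast
    have e1 : ∀ n ∈ S, ((‖∑ x ∈ B, g x * K n x‖ : ℝ) : ℂ) ^ 2 =
        ∑ x ∈ B, ∑ x' ∈ B, (g x * (starRingEnd ℂ) (g x')) *
          (K n x * (starRingEnd ℂ) (K n x')) := by
      intro n _
      rw [← Complex.mul_conj', map_sum, Finset.sum_mul_sum]
      refine Finset.sum_congr rfl fun x _ => Finset.sum_congr rfl fun x' _ => ?_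
      rw [map_mul]
      ring
    rw [Finset.sum_congr rfl e1, Finset.sum_comm]
    refine Finset.sum_congr rfl fun x _ => ?_
    rw [Finset.sum_comm]
    refine Finset.sum_congr rfl fun x' _ => ?_
    rw [Finset.mul_sum]
  have h4 : ∑ n ∈ S, ‖∑ x ∈ B, g x * K n x‖ ^ 2 ≤
      ∑ x ∈ B, ∑ x' ∈ B, ‖∑ n ∈ S, K n x * (starRingEnd ℂ) (K n x')‖ := by
    have h5 : ∑ n ∈ S, ‖∑ x ∈ B, g x * K n x‖ ^ 2 =
        ‖((∑ n ∈ S, ‖∑ x ∈ B, g x * K n x‖ ^ 2 : ℝ) : ℂ)‖ := by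
      rw [Complex.norm_real, Real.norm_of_nonneg]
      exact Finset.sum_nonneg fun n _ => by positivity
    rw [h5, h3]
    refine (norm_sum_le _ _).trans (Finset.sum_le_sum fun x _ => ?_)
    refine (norm_sum_le _ _).trans (Finset.sum_le_sum fun x' _ => ?_)
    rw [norm_mul, norm_mul, RCLike.norm_conj]
    apply mul_le_of_le_one_left (norm_nonneg _)
    exact mul_le_one₀ (hg x) (norm_nonneg _) (hg x')
  calc ‖∑ n ∈ S, ∑ x ∈ B, f n * g x * K n x‖ ^ 2 ≤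
        (∑ n ∈ S, ‖∑ x ∈ B, g x * K n x‖) ^ 2 := pow_le_pow_left₀ (norm_nonneg _) h1 2
    _ ≤ _ := h2
    _ ≤ _ := mul_le_mul_of_nonneg_left h4 (Nat.cast_nonneg _)

/-- from the estimate of the correlations to that of the bilinear form -/
lemma bil_of {α β : Type} (p : ℕ) (hp : 0 < p) (τ : ℝ) (S : Finset α) (B : Finset β)
    (f : α → ℂ) (g : β → ℂ) (K : α → β → ℂ) (hf : ∀ n, ‖f n‖ ≤ 1) (hg : ∀ x, ‖g x‖ ≤ 1)
    (h : ∑ x ∈ B, ∑ x' ∈ B, ‖∑ n ∈ S, K n x * (starRingEnd ℂ) (K n x')‖ ≤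
      (p : ℝ) ^ (-τ) * ((S.card : ℝ) * (B.card : ℝ) ^ 2)) :
    ‖∑ n ∈ S, ∑ x ∈ B, f n * g x * K n x‖ ≤
      (p : ℝ) ^ (-(τ / 2)) * ((S.card : ℝ) * (B.card : ℝ)) := by
  have hp0 : (0 : ℝ) < p := by exact_mod_cast hp
  have h1 := bil_cs S B f g K hf hg
  have h2 : ‖∑ n ∈ S, ∑ x ∈ B, f n * g x * K n x‖ ^ 2 ≤
      ((p : ℝ) ^ (-(τ / 2)) * ((S.card : ℝ) * (B.card : ℝ))) ^ 2 := by
    refine h1.trans ((mul_le_mul_of_nonneg_left h (Nat.cast_nonneg _)).trans (le_of_eq ?_))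
    have e : (p : ℝ) ^ (-τ) = ((p : ℝ) ^ (-(τ / 2))) ^ 2 := by
      rw [← Real.rpow_natCast, ← Real.rpow_mul hp0.le]
      congr 1
      push_cast
      ring
    rw [e]
    ring
  exact (pow_le_pow_iff_left₀ (norm_nonneg _) (by positivity) (by norm_num)).1 h2

/-- **bilinear forms over the residues with restricted digits** -/
theorem bil_add (b : ℕ) (hb : 2 ≤ b) (ε1 η : ℝ) (hε1 : 0 < ε1) (hη : 0 < η) :
    ∃ τ : ℝ, 0 < τ ∧ ∃ P : ℕ,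
    ∀ p : ℕ, ∀ _ : Fact p.Prime, P ≤ p → ∀ χ : DirichletCharacter ℂ p, χ ≠ 1 →
      ∀ (j m : ℕ) (D : ℕ → Finset ℕ), Prp b (j + m) D → 1 ≤ m → b ^ (j + m) ≤ p →
        (p : ℝ) ^ ε1 ≤ ((SD b m (fun i => D (j + i))).card : ℝ) →
        ∀ (β : Type) [DecidableEq β] (B : Finset β) (φ : β → ZMod p) (F : ℕ),
          (((B ×ˢ B) ×ˢ (B ×ˢ B) ×ˢ (B ×ˢ B)).filter fun s =>
            φ s.1.1 - φ s.1.2 = φ s.2.1.1 - φ s.2.1.2 ∧
              φ s.1.1 - φ s.1.2 = φ s.2.2.1 - φ s.2.2.2).card ≤ F →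
          ((t3 (SD b j D)).card : ℝ) * (F : ℝ) ^ 2 ≤
            ((p : ℝ) ^ (-1 - η) * (((SD b j D).card : ℝ) * (B.card : ℝ) ^ 2) ^ 2) ^ 3 →
          ∀ (f : ℕ → ℂ) (g : β → ℂ), (∀ n, ‖f n‖ ≤ 1) → (∀ x, ‖g x‖ ≤ 1) →
            ‖∑ n ∈ SD b (j + m) D, ∑ x ∈ B, f n * g x * χ ((n : ZMod p) - φ x)‖ ≤
              (p : ℝ) ^ (-τ) * (((SD b (j + m) D).card : ℝ) * B.card) := by
  classical
  obtain ⟨τ, hτ, P, h⟩ := use_core2 ε1 η hε1 hη
  refine ⟨τ / 2, by linarith, P, ?_⟩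
  intro p _ hp χ hχ j m D hD hm hbp hH β _ B φ F hF hE f g hf hg
  set H := SD b m (fun i => D (j + i)) with hHdef
  set Y := SD b j D with hY
  have hpj : Prp b j D := hD.mono (by omega)
  have hpm : Prp b m (fun i => D (j + i)) := hD.shift j le_rfl
  have hb0 : 0 < b := by omega
  have hcast : ∀ n n' : ℕ, n < p → n' < p → (n : ZMod p) = n' → n = n' := by
    intro n n' hn hn' he
    rw [ZMod.natCast_eq_natCast_iff', Nat.mod_eq_of_lt hn, Nat.mod_eq_of_lt hn'] at he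
    exact he
  have hpow : b ^ j * b ^ m ≤ p := by rw [← pow_add]; exact hbp
  have hj2 : 2 * b ^ j ≤ p := by
    refine le_trans ?_ hpow
    rw [mul_comm]
    apply Nat.mul_le_mul_left
    calc 2 ≤ b := hb
      _ = b ^ 1 := (pow_one b).symm
      _ ≤ b ^ m := Nat.pow_le_pow_right hb0 hm
  have hWinj : Set.InjOn (fun w : ℕ => ((b ^ j * w : ℕ) : ZMod p)) (H : Set ℕ) := by
    intro w hw w' hw' he
    have h1 : ∀ w ∈ H, b ^ j * w < p := fun w hw =>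
      lt_of_lt_of_le (Nat.mul_lt_mul_of_pos_left (SD_lt b m _ hpm w hw)
        (Nat.pow_pos hb0)) hpow
    have h2 := hcast _ _ (h1 w hw) (h1 w' hw') he
    exact Nat.eq_of_mul_eq_mul_left (Nat.pow_pos hb0) h2
  set W : Finset (ZMod p) := H.image (fun w : ℕ => ((b ^ j * w : ℕ) : ZMod p)) with hW
  have hWc : W.card = H.card := Finset.card_image_of_injOn hWinj
  have h1 := h p inferInstance hp χ hχ W (by rw [hWc]; exact hH) β Y B
    (fun y x => (y : ZMod p) - φ x) (fun y y' => (y : ZMod p) - y') (fun x x' => φ x - φ x')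
    F (by
      intro y1 _ y2 _ x1 _ x2 _ he
      linear_combination he) (by
      intro y1 h1 y2 h2 y3 h3 y4 h4 e1
      have g1 := SD_lt b j D hpj y1 h1
      have g2 := SD_lt b j D hpj y2 h2
      have g3 := SD_lt b j D hpj y3 h3
      have g4 := SD_lt b j D hpj y4 h4
      apply hcast _ _ (by omega) (by omega)
      push_cast
      linear_combination e1) hF hE
  have hcard : (SD b (j + m) D).card = Y.card * W.card := by
    rw [SD_add b j m D hD, comb_card (SD_lt b j D hpj), hWc]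
  apply bil_of p (Nat.Prime.pos Fact.out) τ _ B f g (fun n x => χ ((n : ZMod p) - φ x)) hf hg
  calc ∑ x ∈ B, ∑ x' ∈ B, ‖∑ n ∈ SD b (j + m) D,
          χ ((n : ZMod p) - φ x) * (starRingEnd ℂ) (χ ((n : ZMod p) - φ x'))‖
      ≤ ∑ x ∈ B, ∑ x' ∈ B, ∑ y ∈ Y, ‖∑ w ∈ W, χ ((y : ZMod p) - φ x + w) *
          (starRingEnd ℂ) (χ ((y : ZMod p) - φ x' + w))‖ := by
        apply Finset.sum_le_sum
        intro x _
        apply Finset.sum_le_sum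
        intro x' _
        rw [SD_add b j m D hD, comb_sum (SD_lt b j D hpj)]
        refine (norm_sum_le _ _).trans (Finset.sum_le_sum fun y _ => le_of_eq ?_)
        congr 1
        rw [hW, Finset.sum_image hWinj]
        apply Finset.sum_congr rfl
        intro w _
        have e : ∀ z : ZMod p, (((y + b ^ j * w : ℕ) : ZMod p)) - z =
            (y : ZMod p) - z + ((b ^ j * w : ℕ) : ZMod p) := by
          intro z
          push_cast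
          ring
        rw [e, e]
    _ = ∑ y ∈ Y, ∑ x ∈ B, ∑ x' ∈ B, ‖∑ w ∈ W, χ ((y : ZMod p) - φ x + w) *
          (starRingEnd ℂ) (χ ((y : ZMod p) - φ x' + w))‖ := by
        rw [Finset.sum_comm]
        have e : ∀ x ∈ B, ∑ x' ∈ B, ∑ y ∈ Y, ‖∑ w ∈ W, χ ((y : ZMod p) - φ x' + w) *
            (starRingEnd ℂ) (χ ((y : ZMod p) - φ x + w))‖ =
            ∑ y ∈ Y, ∑ x' ∈ B, ‖∑ w ∈ W, χ ((y : ZMod p) - φ x' + w) *
            (starRingEnd ℂ) (χ ((y : ZMod p) - φ x + w))‖ := fun x _ => Finset.sum_comm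
        rw [Finset.sum_congr rfl e, Finset.sum_comm]
        exact Finset.sum_congr rfl fun y _ => Finset.sum_comm
    _ ≤ _ := h1
    _ = _ := by
        rw [hcard]
        push_cast
        ring

/-- **bilinear forms over the powers whose exponents have restricted digits** -/
theorem bil_mul (b : ℕ) (hb : 2 ≤ b) (ε1 η : ℝ) (hε1 : 0 < ε1) (hη : 0 < η) :
    ∃ τ : ℝ, 0 < τ ∧ ∃ P : ℕ,
    ∀ p : ℕ, ∀ _ : Fact p.Prime, P ≤ p → ∀ χ : DirichletCharacter ℂ p, χ ≠ 1 →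
      ∀ (θ : (ZMod p)ˣ) (j m : ℕ) (D : ℕ → Finset ℕ), Prp b (j + m) D → 1 ≤ m →
        b ^ (j + m) ≤ orderOf θ →
        (p : ℝ) ^ ε1 ≤ ((SD b m (fun i => D (j + i))).card : ℝ) →
        ∀ (β : Type) [DecidableEq β] (B : Finset β) (φ : β → ZMod p) (F : ℕ),
          (∀ x ∈ B, φ x ≠ 0) →
          (((B ×ˢ B) ×ˢ (B ×ˢ B) ×ˢ (B ×ˢ B)).filter fun s =>
            φ s.1.1 * (φ s.1.2)⁻¹ = φ s.2.1.1 * (φ s.2.1.2)⁻¹ ∧
              φ s.1.1 * (φ s.1.2)⁻¹ = φ s.2.2.1 * (φ s.2.2.2)⁻¹).card ≤ F →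
          ((t3 (SD b j D)).card : ℝ) * (F : ℝ) ^ 2 ≤
            ((p : ℝ) ^ (-1 - η) * (((SD b j D).card : ℝ) * (B.card : ℝ) ^ 2) ^ 2) ^ 3 →
          ∀ (f : ℕ → ℂ) (g : β → ℂ), (∀ n, ‖f n‖ ≤ 1) → (∀ x, ‖g x‖ ≤ 1) →
            ‖∑ n ∈ SD b (j + m) D, ∑ x ∈ B,
                f n * g x * χ (((θ ^ n : (ZMod p)ˣ) : ZMod p) - φ x)‖ ≤
              (p : ℝ) ^ (-τ) * (((SD b (j + m) D).card : ℝ) * B.card) := by
  classical
  obtain ⟨τ, hτ, P, h⟩ := use_core2 ε1 η hε1 hη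
  refine ⟨τ / 2, by linarith, P, ?_⟩
  intro p _ hp χ hχ θ j m D hD hm hbp hH β _ B φ F hφ hF hE f g hf hg
  set H := SD b m (fun i => D (j + i)) with hHdef
  set Y := SD b j D with hY
  have hpj : Prp b j D := hD.mono (by omega)
  have hpm : Prp b m (fun i => D (j + i)) := hD.shift j le_rfl
  have hb0 : 0 < b := by omega
  have hcast : ∀ n n' : ℕ, n < orderOf θ → n' < orderOf θ → θ ^ n = θ ^ n' → n = n' := by
    intro n n' hn hn' he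
    rw [pow_inj_mod, Nat.mod_eq_of_lt hn, Nat.mod_eq_of_lt hn'] at he
    exact he
  have hpow : b ^ j * b ^ m ≤ orderOf θ := by rw [← pow_add]; exact hbp
  have hj2 : 2 * b ^ j ≤ orderOf θ := by
    refine le_trans ?_ hpow
    rw [mul_comm]
    apply Nat.mul_le_mul_left
    calc 2 ≤ b := hb
      _ = b ^ 1 := (pow_one b).symm
      _ ≤ b ^ m := Nat.pow_le_pow_right hb0 hm
  have hWinj : Set.InjOn (fun w : ℕ => ((θ ^ (b ^ j * w) : (ZMod p)ˣ) : ZMod p)) (H : Set ℕ) := by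
    intro w hw w' hw' he
    have h1 : ∀ w ∈ H, b ^ j * w < orderOf θ := fun w hw =>
      lt_of_lt_of_le (Nat.mul_lt_mul_of_pos_left (SD_lt b m _ hpm w hw)
        (Nat.pow_pos hb0)) hpow
    have h2 := hcast _ _ (h1 w hw) (h1 w' hw') (Units.ext he)
    exact Nat.eq_of_mul_eq_mul_left (Nat.pow_pos hb0) h2
  set W : Finset (ZMod p) := H.image (fun w : ℕ => ((θ ^ (b ^ j * w) : (ZMod p)ˣ) : ZMod p))
    with hW
  have hWc : W.card = H.card := Finset.card_image_of_injOn hWinj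
  have hu : ∀ y : ℕ, ((θ ^ y : (ZMod p)ˣ) : ZMod p) * (((θ ^ y)⁻¹ : (ZMod p)ˣ) : ZMod p) = 1 :=
    fun y => by rw [← Units.val_mul, mul_inv_cancel, Units.val_one]
  have h1 := h p inferInstance hp χ hχ W (by rw [hWc]; exact hH) β Y B
    (fun y x => -((((θ ^ y)⁻¹ : (ZMod p)ˣ) : ZMod p) * φ x))
    (fun y y' => ((θ ^ y : (ZMod p)ˣ) : ZMod p) * (((θ ^ y')⁻¹ : (ZMod p)ˣ) : ZMod p))
    (fun x x' => φ x * (φ x')⁻¹) F (by
      intro y1 _ y2 _ x1 hx1 x2 hx2 he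
      have hx2' : φ x2 ≠ 0 := hφ x2 hx2
      have he' := neg_inj.1 he
      have h3 : φ x1 = ((θ ^ y1 : (ZMod p)ˣ) : ZMod p) *
          ((((θ ^ y2)⁻¹ : (ZMod p)ˣ) : ZMod p) * φ x2) := by
        rw [← he', ← mul_assoc, hu, one_mul]
      change _ = φ x1 * (φ x2)⁻¹
      rw [h3, mul_assoc, mul_assoc, mul_inv_cancel₀ hx2', mul_one]) (by
      intro y1 h1 y2 h2 y3 h3 y4 h4 e1
      have g1 := SD_lt b j D hpj y1 h1
      have g2 := SD_lt b j D hpj y2 h2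
      have g3 := SD_lt b j D hpj y3 h3
      have g4 := SD_lt b j D hpj y4 h4
      apply hcast _ _ (by omega) (by omega)
      have e6 : θ ^ y1 * (θ ^ y2)⁻¹ = θ ^ y3 * (θ ^ y4)⁻¹ := by
        apply Units.ext
        rw [Units.val_mul, Units.val_mul]
        exact e1
      have e7 : θ ^ y1 * θ ^ y4 = θ ^ y2 * θ ^ y3 := by
        rw [mul_inv_eq_iff_eq_mul] at e6
        rw [e6]
        rw [mul_comm (θ ^ y2)]
        calc θ ^ y3 * (θ ^ y4)⁻¹ * θ ^ y2 * θ ^ y4 = θ ^ y3 * θ ^ y2 * ((θ ^ y4)⁻¹ * θ ^ y4) := by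
              rw [mul_assoc (θ ^ y3), mul_comm ((θ ^ y4)⁻¹) (θ ^ y2), mul_assoc, mul_assoc,
                mul_assoc]
          _ = _ := by rw [inv_mul_cancel, mul_one]
      rw [pow_add, pow_add]
      exact e7) hF hE
  have hcard : (SD b (j + m) D).card = Y.card * W.card := by
    rw [SD_add b j m D hD, comb_card (SD_lt b j D hpj), hWc]
  apply bil_of p (Nat.Prime.pos Fact.out) τ _ B f g
    (fun n x => χ (((θ ^ n : (ZMod p)ˣ) : ZMod p) - φ x)) hf hg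
  calc ∑ x ∈ B, ∑ x' ∈ B, ‖∑ n ∈ SD b (j + m) D,
          χ (((θ ^ n : (ZMod p)ˣ) : ZMod p) - φ x) *
            (starRingEnd ℂ) (χ (((θ ^ n : (ZMod p)ˣ) : ZMod p) - φ x'))‖
      ≤ ∑ x ∈ B, ∑ x' ∈ B, ∑ y ∈ Y,
          ‖∑ w ∈ W, χ (-((((θ ^ y)⁻¹ : (ZMod p)ˣ) : ZMod p) * φ x) + w) *
          (starRingEnd ℂ) (χ (-((((θ ^ y)⁻¹ : (ZMod p)ˣ) : ZMod p) * φ x') + w))‖ := by
        apply Finset.sum_le_sum
        intro x _
        apply Finset.sum_le_sum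
        intro x' _
        rw [SD_add b j m D hD, comb_sum (SD_lt b j D hpj)]
        refine (norm_sum_le _ _).trans (Finset.sum_le_sum fun y _ => ?_)
        have e : ∀ (w : ℕ) (z : ZMod p), χ (((θ ^ (y + b ^ j * w) : (ZMod p)ˣ) : ZMod p) - z) =
            χ ((θ ^ y : (ZMod p)ˣ) : ZMod p) * χ (-((((θ ^ y)⁻¹ : (ZMod p)ˣ) : ZMod p) * z) +
              ((θ ^ (b ^ j * w) : (ZMod p)ˣ) : ZMod p)) := by
          intro w z
          rw [← map_mul]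
          congr 1
          rw [pow_add, Units.val_mul]
          linear_combination z * hu y
        have e2 : ∀ w ∈ H, χ (((θ ^ (y + b ^ j * w) : (ZMod p)ˣ) : ZMod p) - φ x) *
            (starRingEnd ℂ) (χ (((θ ^ (y + b ^ j * w) : (ZMod p)ˣ) : ZMod p) - φ x')) =
            (χ ((θ ^ y : (ZMod p)ˣ) : ZMod p) *
              (starRingEnd ℂ) (χ ((θ ^ y : (ZMod p)ˣ) : ZMod p))) *
            (χ (-((((θ ^ y)⁻¹ : (ZMod p)ˣ) : ZMod p) * φ x) +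
              ((θ ^ (b ^ j * w) : (ZMod p)ˣ) : ZMod p)) *
            (starRingEnd ℂ) (χ (-((((θ ^ y)⁻¹ : (ZMod p)ˣ) : ZMod p) * φ x') +
              ((θ ^ (b ^ j * w) : (ZMod p)ˣ) : ZMod p)))) := by
          intro w _
          rw [e, e, map_mul]
          ring
        rw [Finset.sum_congr rfl e2, ← Finset.mul_sum, norm_mul, hW,
          Finset.sum_image hWinj]
        apply mul_le_of_le_one_left (norm_nonneg _)
        rw [norm_mul, RCLike.norm_conj]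
        exact mul_le_one₀ (χ.norm_le_one _) (norm_nonneg _) (χ.norm_le_one _)
    _ = ∑ y ∈ Y, ∑ x ∈ B, ∑ x' ∈ B,
          ‖∑ w ∈ W, χ (-((((θ ^ y)⁻¹ : (ZMod p)ˣ) : ZMod p) * φ x) + w) *
          (starRingEnd ℂ) (χ (-((((θ ^ y)⁻¹ : (ZMod p)ˣ) : ZMod p) * φ x') + w))‖ := by
        rw [Finset.sum_comm]
        have e : ∀ x ∈ B, ∑ x' ∈ B, ∑ y ∈ Y,
            ‖∑ w ∈ W, χ (-((((θ ^ y)⁻¹ : (ZMod p)ˣ) : ZMod p) * φ x') + w) *
            (starRingEnd ℂ) (χ (-((((θ ^ y)⁻¹ : (ZMod p)ˣ) : ZMod p) * φ x) + w))‖ =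
            ∑ y ∈ Y, ∑ x' ∈ B,
            ‖∑ w ∈ W, χ (-((((θ ^ y)⁻¹ : (ZMod p)ˣ) : ZMod p) * φ x') + w) *
            (starRingEnd ℂ) (χ (-((((θ ^ y)⁻¹ : (ZMod p)ˣ) : ZMod p) * φ x) + w))‖ :=
          fun x _ => Finset.sum_comm
        rw [Finset.sum_congr rfl e, Finset.sum_comm]
        exact Finset.sum_congr rfl fun y _ => Finset.sum_comm
    _ ≤ _ := h1
    _ = _ := by
        rw [hcard]
        push_cast
        ring

end Pool.Agent.Q263.PG
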