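import Mathlib
import Pool.Agent.Q263.PG.Main3

/-!
Bilinear forms with arbitrary weights over sets with restricted digits: the theorems.
-/

set_option autoImplicit false

open Finset

namespace Pool.Agent.Q263.PG

/-- the third moment of an arbitrary set -/
lemma third_le {β K : Type} [DecidableEq β] [DecidableEq K] (B : Finset β) (dB : β → β → K)
    (hinj : ∀ x ∈ B, ∀ y ∈ B, ∀ z ∈ B, dB x y = dB x z → y = z) :
    (((B ×ˢ B) ×ˢ (B ×ˢ B) ×ˢ (B ×ˢ B)).filter fun s =>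
      dB s.1.1 s.1.2 = dB s.2.1.1 s.2.1.2 ∧ dB s.1.1 s.1.2 = dB s.2.2.1 s.2.2.2).card ≤
      B.card ^ 4 := by
  have h1 : (((B ×ˢ B) ×ˢ (B ×ˢ B) ×ˢ (B ×ˢ B)).filter fun s =>
      dB s.1.1 s.1.2 = dB s.2.1.1 s.2.1.2 ∧ dB s.1.1 s.1.2 = dB s.2.2.1 s.2.2.2).card ≤
      (B ×ˢ B ×ˢ B ×ˢ B).card := by
    apply Finset.card_le_card_of_injOn (fun s : (β × β) × (β × β) × (β × β) =>
      (s.1.1, s.1.2, s.2.1.1, s.2.2.1))
    · rintro ⟨⟨x1, x2⟩, ⟨x3, x4⟩, ⟨x5, x6⟩⟩ hs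
      have h6 := (Finset.mem_filter.1 (Finset.mem_coe.1 hs)).1
      simp only [Finset.mem_product] at h6
      simp only [Finset.mem_coe, Finset.mem_product]
      exact ⟨h6.1.1, h6.1.2, h6.2.1.1, h6.2.2.1⟩
    · rintro ⟨⟨x1, x2⟩, ⟨x3, x4⟩, ⟨x5, x6⟩⟩ hs ⟨⟨z1, z2⟩, ⟨z3, z4⟩, ⟨z5, z6⟩⟩ hs' heq
      have h6 := Finset.mem_filter.1 (Finset.mem_coe.1 hs)
      have h7 := Finset.mem_filter.1 (Finset.mem_coe.1 hs')
      obtain ⟨g1, g2, g3⟩ := h6
      obtain ⟨k1, k2, k3⟩ := h7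
      simp only [Finset.mem_product] at g1 k1
      simp only [Prod.mk.injEq] at heq
      dsimp only at g2 g3 k2 k3
      obtain ⟨rfl, rfl, rfl, rfl⟩ := heq
      have e1 := hinj x3 g1.2.1.1 x4 g1.2.1.2 z4 k1.2.1.2 (g2.symm.trans k2)
      have e2 := hinj x5 g1.2.2.1 x6 g1.2.2.2 z6 k1.2.2.2 (g3.symm.trans k3)
      subst e1
      subst e2
      rfl
  refine h1.trans (le_of_eq ?_)
  rw [Finset.card_product, Finset.card_product, Finset.card_product]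
  ring

/-- general digits, arbitrary sets and arbitrary weights -/
theorem partA (b : ℕ) (hb : 2 ≤ b) (ε : ℝ) (hε : 0 < ε) : ∃ c δ : ℝ, 0 < c ∧ 0 < δ ∧ ∃ P : ℕ,
    ∀ p : ℕ, ∀ _ : Fact p.Prime, P ≤ p → ∀ χ : DirichletCharacter ℂ p, χ ≠ 1 →
      ∀ (k : ℕ) (D : ℕ → Finset ℕ), Prp b k D → (p : ℝ) ^ ε ≤ ((SD b k D).card : ℝ) →
        (b ^ k ≤ p → ∀ B : Finset (ZMod p),
          (p : ℝ) ^ (3 / 2 - c) ≤ ((SD b k D).card : ℝ) * (B.card : ℝ) ^ 2 →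
          ∀ (f : ℕ → ℂ) (g : ZMod p → ℂ), (∀ n, ‖f n‖ ≤ 1) → (∀ x, ‖g x‖ ≤ 1) →
            ‖∑ n ∈ SD b k D, ∑ x ∈ B, f n * g x * χ ((n : ZMod p) - x)‖ ≤
              (p : ℝ) ^ (-δ) * (((SD b k D).card : ℝ) * B.card)) ∧
        (∀ θ : (ZMod p)ˣ, b ^ k ≤ orderOf θ → ∀ B : Finset (ZMod p), (0 : ZMod p) ∉ B →
          (p : ℝ) ^ (3 / 2 - c) ≤ ((SD b k D).card : ℝ) * (B.card : ℝ) ^ 2 →
          ∀ (f : ℕ → ℂ) (g : ZMod p → ℂ), (∀ n, ‖f n‖ ≤ 1) → (∀ x, ‖g x‖ ≤ 1) →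
            ‖∑ n ∈ SD b k D, ∑ x ∈ B, f n * g x * χ (((θ ^ n : (ZMod p)ˣ) : ZMod p) - x)‖ ≤
              (p : ℝ) ^ (-δ) * (((SD b k D).card : ℝ) * B.card)) := by
  obtain ⟨ε1, η, c, hε1, hη, hc, P1, hP1⟩ := cut3 b hb ε hε
  obtain ⟨δ1, hδ1, P2, hP2⟩ := bil_add b hb ε1 η hε1 hη
  obtain ⟨δ2, hδ2, P3, hP3⟩ := bil_mul b hb ε1 η hε1 hη
  refine ⟨c / 2, min δ1 δ2, by linarith, lt_min hδ1 hδ2, max (max P1 P2) (max P3 1), ?_⟩
  intro p _ hp χ hχ k D hD hA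
  have hp1 : P1 ≤ p := ((le_max_left _ _).trans (le_max_left _ _)).trans hp
  have hp2 : P2 ≤ p := ((le_max_right _ _).trans (le_max_left _ _)).trans hp
  have hp3 : P3 ≤ p := ((le_max_left _ _).trans (le_max_right _ _)).trans hp
  have hp4 : (1 : ℝ) ≤ p := by
    exact_mod_cast ((le_max_right _ _).trans (le_max_right _ _)).trans hp
  have hp0 : (0 : ℝ) < p := by linarith
  obtain ⟨j, m, hjm, hm, hH, hcut⟩ := hP1 p hp1 k D hD hA
  subst hjm
  have hcond : ∀ N : ℝ, 0 ≤ N → (p : ℝ) ^ (3 / 2 - c / 2) ≤ ((SD b (j + m) D).card : ℝ) * N ^ 2 →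
      (p : ℝ) ^ (3 - c) * (N ^ 4) ^ 2 ≤ ((SD b (j + m) D).card : ℝ) ^ 2 * N ^ 12 := by
    intro N hN h
    have e : (p : ℝ) ^ (3 - c) = ((p : ℝ) ^ (3 / 2 - c / 2)) ^ 2 := by
      rw [← Real.rpow_natCast, ← Real.rpow_mul hp0.le]
      congr 1
      push_cast
      ring
    rw [e]
    calc ((p : ℝ) ^ (3 / 2 - c / 2)) ^ 2 * (N ^ 4) ^ 2 ≤
          (((SD b (j + m) D).card : ℝ) * N ^ 2) ^ 2 * (N ^ 4) ^ 2 :=
          mul_le_mul_of_nonneg_right (pow_le_pow_left₀ (by positivity) h 2) (by positivity)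
      _ = _ := by ring
  constructor
  · intro hbk B hB f g hf hg
    have h1 := hcut (B.card : ℝ) ((B.card ^ 4 : ℕ) : ℝ) (Nat.cast_nonneg _) (Nat.cast_nonneg _)
      (by push_cast; exact hcond _ (Nat.cast_nonneg _) hB)
    refine (hP2 p inferInstance hp2 χ hχ j m D hD hm hbk hH (ZMod p) B (fun x => x) (B.card ^ 4)
      (third_le B (fun x y => x - y) (by
        intro x _ y _ z _ h
        linear_combination -h)) h1 f g hf hg).trans ?_
    apply mul_le_mul_of_nonneg_right _ (by positivity)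
    exact Real.rpow_le_rpow_of_exponent_le hp4 (neg_le_neg (min_le_left _ _))
  · intro θ hbk B h0 hB f g hf hg
    have h1 := hcut (B.card : ℝ) ((B.card ^ 4 : ℕ) : ℝ) (Nat.cast_nonneg _) (Nat.cast_nonneg _)
      (by push_cast; exact hcond _ (Nat.cast_nonneg _) hB)
    have hne : ∀ x ∈ B, x ≠ 0 := fun x hx h => h0 (h ▸ hx)
    refine (hP3 p inferInstance hp3 χ hχ θ j m D hD hm hbk hH (ZMod p) B (fun x => x)
      (B.card ^ 4) hne
      (third_le B (fun x y => x * y⁻¹) (by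
        intro x hx y hy z hz h
        exact inv_injective (mul_left_cancel₀ (hne x hx) h))) h1 f g hf hg).trans ?_
    apply mul_le_mul_of_nonneg_right _ (by positivity)
    exact Real.rpow_le_rpow_of_exponent_le hp4 (neg_le_neg (min_le_right _ _))

/-- Sidon sets of digits, arbitrary sets and arbitrary weights -/
theorem partB (b : ℕ) (hb : 3 ≤ b) (ε : ℝ) (hε : 0 < ε) : ∃ δ : ℝ, 0 < δ ∧ ∃ P : ℕ,
    ∀ p : ℕ, ∀ _ : Fact p.Prime, P ≤ p → ∀ χ : DirichletCharacter ℂ p, χ ≠ 1 →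
      ∀ (k : ℕ) (D : ℕ → Finset ℕ), Sid b k D → (p : ℝ) ^ ε ≤ ((SD b k D).card : ℝ) →
        (b ^ k ≤ p → ∀ B : Finset (ZMod p),
          (p : ℝ) ^ (3 + ε) ≤ ((SD b k D).card : ℝ) ^ (107 / 40 : ℝ) * (B.card : ℝ) ^ 4 →
          ∀ (f : ℕ → ℂ) (g : ZMod p → ℂ), (∀ n, ‖f n‖ ≤ 1) → (∀ x, ‖g x‖ ≤ 1) →
            ‖∑ n ∈ SD b k D, ∑ x ∈ B, f n * g x * χ ((n : ZMod p) - x)‖ ≤
              (p : ℝ) ^ (-δ) * (((SD b k D).card : ℝ) * B.card)) ∧
        (∀ θ : (ZMod p)ˣ, b ^ k ≤ orderOf θ → ∀ B : Finset (ZMod p), (0 : ZMod p) ∉ B →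
          (p : ℝ) ^ (3 + ε) ≤ ((SD b k D).card : ℝ) ^ (107 / 40 : ℝ) * (B.card : ℝ) ^ 4 →
          ∀ (f : ℕ → ℂ) (g : ZMod p → ℂ), (∀ n, ‖f n‖ ≤ 1) → (∀ x, ‖g x‖ ≤ 1) →
            ‖∑ n ∈ SD b k D, ∑ x ∈ B, f n * g x * χ (((θ ^ n : (ZMod p)ˣ) : ZMod p) - x)‖ ≤
              (p : ℝ) ^ (-δ) * (((SD b k D).card : ℝ) * B.card)) := by
  obtain ⟨ε1, η, hε1, hη, P1, hP1⟩ := cut_sid b hb ε hε
  obtain ⟨δ1, hδ1, P2, hP2⟩ := bil_add b (by omega) ε1 η hε1 hη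
  obtain ⟨δ2, hδ2, P3, hP3⟩ := bil_mul b (by omega) ε1 η hε1 hη
  refine ⟨min δ1 δ2, lt_min hδ1 hδ2, max (max P1 P2) (max P3 1), ?_⟩
  intro p _ hp χ hχ k D hD hA
  have hp1 : P1 ≤ p := ((le_max_left _ _).trans (le_max_left _ _)).trans hp
  have hp2 : P2 ≤ p := ((le_max_right _ _).trans (le_max_left _ _)).trans hp
  have hp3 : P3 ≤ p := ((le_max_left _ _).trans (le_max_right _ _)).trans hp
  have hp4 : (1 : ℝ) ≤ p := by
    exact_mod_cast ((le_max_right _ _).trans (le_max_right _ _)).trans hp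
  obtain ⟨j, m, hjm, hm, hH, hcut⟩ := hP1 p hp1 k D hD hA
  subst hjm
  have hcond : ∀ N : ℝ, 0 ≤ N →
      (p : ℝ) ^ (3 + ε) ≤ ((SD b (j + m) D).card : ℝ) ^ (107 / 40 : ℝ) * N ^ 4 →
      (p : ℝ) ^ (3 + ε) * (N ^ 4) ^ 2 ≤
        ((SD b (j + m) D).card : ℝ) ^ (107 / 40 : ℝ) * N ^ 12 := by
    intro N hN h
    calc (p : ℝ) ^ (3 + ε) * (N ^ 4) ^ 2 ≤
          (((SD b (j + m) D).card : ℝ) ^ (107 / 40 : ℝ) * N ^ 4) * (N ^ 4) ^ 2 :=
          mul_le_mul_of_nonneg_right h (by positivity)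
      _ = _ := by ring
  constructor
  · intro hbk B hB f g hf hg
    have h1 := hcut (B.card : ℝ) ((B.card ^ 4 : ℕ) : ℝ) (Nat.cast_nonneg _) (Nat.cast_nonneg _)
      (by push_cast; exact hcond _ (Nat.cast_nonneg _) hB)
    refine (hP2 p inferInstance hp2 χ hχ j m D (hD.prp hb) hm hbk hH (ZMod p) B (fun x => x)
      (B.card ^ 4) (third_le B (fun x y => x - y) (by
        intro x _ y _ z _ h
        linear_combination -h)) h1 f g hf hg).trans ?_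
    apply mul_le_mul_of_nonneg_right _ (by positivity)
    exact Real.rpow_le_rpow_of_exponent_le hp4 (neg_le_neg (min_le_left _ _))
  · intro θ hbk B h0 hB f g hf hg
    have h1 := hcut (B.card : ℝ) ((B.card ^ 4 : ℕ) : ℝ) (Nat.cast_nonneg _) (Nat.cast_nonneg _)
      (by push_cast; exact hcond _ (Nat.cast_nonneg _) hB)
    have hne : ∀ x ∈ B, x ≠ 0 := fun x hx h => h0 (h ▸ hx)
    refine (hP3 p inferInstance hp3 χ hχ θ j m D (hD.prp hb) hm hbk hH (ZMod p) B (fun x => x)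
      (B.card ^ 4) hne
      (third_le B (fun x y => x * y⁻¹) (by
        intro x hx y hy z hz h
        exact inv_injective (mul_left_cancel₀ (hne x hx) h))) h1 f g hf hg).trans ?_
    apply mul_le_mul_of_nonneg_right _ (by positivity)
    exact Real.rpow_le_rpow_of_exponent_le hp4 (neg_le_neg (min_le_right _ _))

/-- the last digit of the second variable -/
lemma split_last {M : Type} [AddCommMonoid M] (b k : ℕ) (D : ℕ → Finset ℕ) (h : Prp b (k + 1) D)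
    (G : ℕ → M) : ∑ n ∈ SD b (k + 1) D, G n =
      ∑ w ∈ SD b 1 (fun i => D (k + i)), ∑ s ∈ SD b k D, G (s + b ^ k * w) := by
  have h1 : Prp b k D := h.mono (by omega)
  rw [SD_add b k 1 D h, comb_sum (SD_lt b k D h1), Finset.sum_comm]

/-- Sidon sets of digits, difference sets -/
theorem partC (b : ℕ) (hb : 3 ≤ b) : ∃ δ : ℝ, 0 < δ ∧ ∃ P : ℕ,
    ∀ p : ℕ, ∀ _ : Fact p.Prime, P ≤ p → ∀ χ : DirichletCharacter ℂ p, χ ≠ 1 →
      ∀ (k : ℕ) (D : ℕ → Finset ℕ), Sid b k D →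
        (p : ℝ) ^ (187 / 500 : ℝ) ≤ ((SD b k D).card : ℝ) →
        (b ^ k ≤ p → ∀ f g : ℕ → ℂ, (∀ n, ‖f n‖ ≤ 1) → (∀ n, ‖g n‖ ≤ 1) →
          ‖∑ m ∈ SD b k D, ∑ n ∈ SD b k D, f m * g n * χ ((m : ZMod p) - (n : ZMod p))‖ ≤
            (p : ℝ) ^ (-δ) * ((SD b k D).card : ℝ) ^ 2) ∧
        (∀ θ : (ZMod p)ˣ, b ^ k ≤ orderOf θ → ∀ f g : ℕ → ℂ, (∀ n, ‖f n‖ ≤ 1) → (∀ n, ‖g n‖ ≤ 1) →
          ‖∑ m ∈ SD b k D, ∑ n ∈ SD b k D, f m * g n *
              χ (((θ ^ m : (ZMod p)ˣ) : ZMod p) - ((θ ^ n : (ZMod p)ˣ) : ZMod p))‖ ≤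
            (p : ℝ) ^ (-δ) * ((SD b k D).card : ℝ) ^ 2) := by
  classical
  obtain ⟨ε1, η, hε1, hη, P1, hP1⟩ := cut_sid b hb (1 / 1000) (by norm_num)
  obtain ⟨δ1, hδ1, P2, hP2⟩ := bil_add b (by omega) ε1 η hε1 hη
  obtain ⟨δ2, hδ2, P3, hP3⟩ := bil_mul b (by omega) ε1 η hε1 hη
  obtain ⟨P0, hP0⟩ : ∃ P0 : ℕ, ∀ p : ℕ, P0 ≤ p →
      (b : ℝ) ^ (107 / 20 : ℝ) ≤ (p : ℝ) ^ (7 / 20000 : ℝ) := by
    have h1 := (tendsto_rpow_atTop (y := (7 / 20000 : ℝ)) (by norm_num)).comp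
      (tendsto_natCast_atTop_atTop (R := ℝ))
    have h2 := (Filter.tendsto_atTop.1 h1 ((b : ℝ) ^ (107 / 20 : ℝ)))
    obtain ⟨P0, hP0⟩ := Filter.eventually_atTop.1 h2
    exact ⟨P0, fun p hp => hP0 p hp⟩
  refine ⟨min δ1 δ2, lt_min hδ1 hδ2, max (max P1 P2) (max P3 (max P0 2)), ?_⟩
  intro p _ hp χ hχ k D hD hA
  have hp1 : P1 ≤ p := ((le_max_left _ _).trans (le_max_left _ _)).trans hp
  have hp2 : P2 ≤ p := ((le_max_right _ _).trans (le_max_left _ _)).trans hp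
  have hp3 : P3 ≤ p := ((le_max_left _ _).trans (le_max_right _ _)).trans hp
  have hpP0 : P0 ≤ p :=
    ((le_max_left _ _).trans ((le_max_right _ _).trans (le_max_right _ _))).trans hp
  have hp22 : 2 ≤ p :=
    ((le_max_right _ _).trans ((le_max_right _ _).trans (le_max_right _ _))).trans hp
  have hp5 : (1 : ℝ) < p := by exact_mod_cast (by omega : 1 < p)
  have hp4 : (1 : ℝ) ≤ p := hp5.le
  have hp0 : (0 : ℝ) < p := by linarith
  have hb0 : 0 < b := by omega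
  have hbR : (0 : ℝ) < b := by exact_mod_cast hb0
  have hbp := hP0 p hpP0
  have hDp := hD.prp hb
  -- there is at least one digit
  obtain ⟨k', rfl⟩ : ∃ k', k = k' + 1 := by
    refine ⟨k - 1, ?_⟩
    by_contra hcon
    have h0 : k = 0 := by omega
    rw [h0] at hA
    simp only [SD, Finset.card_singleton, Nat.cast_one] at hA
    have := Real.one_lt_rpow hp5 (show (0 : ℝ) < 187 / 500 by norm_num)
    linarith
  have hD' : Sid b k' D := hD.mono (by omega)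
  have hDp' := hD'.prp hb
  set S := SD b (k' + 1) D with hS
  set S' := SD b k' D with hS'
  set V := SD b 1 (fun i => D (k' + i)) with hV
  have hcard : S.card = S'.card * V.card := by
    rw [hS, SD_add b k' 1 D hDp, comb_card (SD_lt b k' D hDp')]
  have hVb : ∀ w ∈ V, w < b := by
    intro w hw
    have := SD_lt b 1 _ (hDp.shift k' le_rfl) w hw
    rwa [pow_one] at this
  have hVc : V.card ≤ b := by
    have h1 : V ⊆ range b := fun w hw => Finset.mem_range.2 (hVb w hw)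
    have := Finset.card_le_card h1
    rwa [Finset.card_range] at this
  have hSN : (S.card : ℝ) ≤ b * S'.card := by
    have h1 : S.card ≤ b * S'.card := by
      rw [hcard, mul_comm]
      exact Nat.mul_le_mul_right _ hVc
    exact_mod_cast h1
  obtain ⟨j, m, hjm, hm, hH, hcut⟩ := hP1 p hp1 (k' + 1) D hD
    ((Real.rpow_le_rpow_of_exponent_le hp4 (by norm_num)).trans hA)
  have ht3 := t3_digits b k' D hD'
  -- the condition of the cut
  have hN0 : (0 : ℝ) ≤ (S'.card : ℝ) := Nat.cast_nonneg _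
  have hcond : (p : ℝ) ^ (3 + 1 / 1000 : ℝ) * ((t3 S').card : ℝ) ^ 2 ≤
      (S.card : ℝ) ^ (107 / 40 : ℝ) * (S'.card : ℝ) ^ 12 := by
    have h1 : ((t3 S').card : ℝ) ^ 2 ≤ (S'.card : ℝ) ^ (133 / 20 : ℝ) := by
      calc ((t3 S').card : ℝ) ^ 2 ≤ ((S'.card : ℝ) ^ (133 / 40 : ℝ)) ^ 2 :=
            pow_le_pow_left₀ (Nat.cast_nonneg _) ht3 2
        _ = _ := by
            rw [← Real.rpow_natCast, ← Real.rpow_mul hN0]
            norm_num
    have h2 : (p : ℝ) ^ (187 / 500 * (107 / 40) : ℝ) ≤ (S.card : ℝ) ^ (107 / 40 : ℝ) := by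
      rw [Real.rpow_mul hp0.le]
      exact Real.rpow_le_rpow (by positivity) hA (by norm_num)
    have h3 : (p : ℝ) ^ (187 / 500 * (107 / 20) : ℝ) ≤
        (p : ℝ) ^ (7 / 20000 : ℝ) * (S'.card : ℝ) ^ (107 / 20 : ℝ) := by
      calc (p : ℝ) ^ (187 / 500 * (107 / 20) : ℝ) ≤ (b * (S'.card : ℝ)) ^ (107 / 20 : ℝ) := by
            rw [Real.rpow_mul hp0.le]
            exact Real.rpow_le_rpow (by positivity) (hA.trans hSN) (by norm_num)
        _ = (b : ℝ) ^ (107 / 20 : ℝ) * (S'.card : ℝ) ^ (107 / 20 : ℝ) :=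
            Real.mul_rpow hbR.le hN0
        _ ≤ _ := mul_le_mul_of_nonneg_right hbp (by positivity)
    have h4 : (p : ℝ) ^ (3 + 1 / 1000 : ℝ) ≤
        (S.card : ℝ) ^ (107 / 40 : ℝ) * (S'.card : ℝ) ^ (107 / 20 : ℝ) := by
      have h5 : (p : ℝ) ^ (7 / 20000 : ℝ) * (p : ℝ) ^ (3 + 1 / 1000 : ℝ) ≤
          (p : ℝ) ^ (7 / 20000 : ℝ) *
            ((S.card : ℝ) ^ (107 / 40 : ℝ) * (S'.card : ℝ) ^ (107 / 20 : ℝ)) := by
        calc (p : ℝ) ^ (7 / 20000 : ℝ) * (p : ℝ) ^ (3 + 1 / 1000 : ℝ) =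
              (p : ℝ) ^ (187 / 500 * (107 / 40) : ℝ) * (p : ℝ) ^ (187 / 500 * (107 / 20) : ℝ) := by
              rw [← Real.rpow_add hp0, ← Real.rpow_add hp0]
              congr 1
              norm_num
          _ ≤ (S.card : ℝ) ^ (107 / 40 : ℝ) *
              ((p : ℝ) ^ (7 / 20000 : ℝ) * (S'.card : ℝ) ^ (107 / 20 : ℝ)) :=
              mul_le_mul h2 h3 (by positivity) (by positivity)
          _ = _ := by ring
      exact le_of_mul_le_mul_left h5 (by positivity)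
    calc (p : ℝ) ^ (3 + 1 / 1000 : ℝ) * ((t3 S').card : ℝ) ^ 2 ≤
          ((S.card : ℝ) ^ (107 / 40 : ℝ) * (S'.card : ℝ) ^ (107 / 20 : ℝ)) *
            (S'.card : ℝ) ^ (133 / 20 : ℝ) := mul_le_mul h4 h1 (by positivity) (by positivity)
      _ = (S.card : ℝ) ^ (107 / 40 : ℝ) *
            ((S'.card : ℝ) ^ (107 / 20 : ℝ) * (S'.card : ℝ) ^ (133 / 20 : ℝ)) := by ring
      _ = _ := by
          rw [← Real.rpow_add_of_nonneg hN0 (by norm_num) (by norm_num), ← Real.rpow_natCast]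
          norm_num
  have hE := hcut (S'.card : ℝ) ((t3 S').card : ℝ) hN0 (Nat.cast_nonneg _) hcond
  -- the sum of the pieces
  have hsum : ∀ (δ' : ℝ) (G : ℕ → ℕ → ℂ), min δ1 δ2 ≤ δ' →
      (∀ w ∈ V, ‖∑ u ∈ S, ∑ s ∈ S', G u (s + b ^ k' * w)‖ ≤
        (p : ℝ) ^ (-δ') * ((S.card : ℝ) * S'.card)) →
      ‖∑ u ∈ S, ∑ v ∈ S, G u v‖ ≤ (p : ℝ) ^ (-(min δ1 δ2)) * (S.card : ℝ) ^ 2 := by
    intro δ' G hδ' hG
    have e1 : ∑ u ∈ S, ∑ v ∈ S, G u v = ∑ w ∈ V, ∑ u ∈ S, ∑ s ∈ S', G u (s + b ^ k' * w) := by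
      rw [Finset.sum_comm (s := V)]
      refine Finset.sum_congr rfl fun u _ => ?_
      exact split_last b k' D hDp (fun v => G u v)
    rw [e1]
    calc ‖∑ w ∈ V, ∑ u ∈ S, ∑ s ∈ S', G u (s + b ^ k' * w)‖ ≤
          ∑ w ∈ V, ‖∑ u ∈ S, ∑ s ∈ S', G u (s + b ^ k' * w)‖ := norm_sum_le _ _
      _ ≤ ∑ w ∈ V, (p : ℝ) ^ (-δ') * ((S.card : ℝ) * S'.card) := Finset.sum_le_sum hG
      _ = (p : ℝ) ^ (-δ') * ((S.card : ℝ) * (S'.card * V.card)) := by
          rw [Finset.sum_const, nsmul_eq_mul]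
          ring
      _ = (p : ℝ) ^ (-δ') * (S.card : ℝ) ^ 2 := by
          have : ((S'.card : ℝ) * V.card) = S.card := by exact_mod_cast hcard.symm
          rw [this]
          ring
      _ ≤ _ := by
          apply mul_le_mul_of_nonneg_right _ (by positivity)
          exact Real.rpow_le_rpow_of_exponent_le hp4 (neg_le_neg hδ')
  have h2b : 2 * b ^ k' ≤ b ^ (k' + 1) := by
    rw [pow_succ, mul_comm]
    exact Nat.mul_le_mul_left _ (by omega)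
  have hlt := SD_lt b k' D hDp'
  constructor
  · intro hbk f g hf hg
    apply hsum δ1 (fun u v => f u * g v * χ ((u : ZMod p) - (v : ZMod p))) (min_le_left _ _)
    intro w hw
    have hcast : ∀ n n' : ℕ, n < p → n' < p → (n : ZMod p) = n' → n = n' := by
      intro n n' hn hn' he
      rw [ZMod.natCast_eq_natCast_iff', Nat.mod_eq_of_lt hn, Nat.mod_eq_of_lt hn'] at he
      exact he
    have h1 := hP2 p inferInstance hp2 χ hχ j m D (by rw [hjm]; exact hDp) hm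
      (by rw [hjm]; exact hbk) hH ℕ S' (fun s => ((s + b ^ k' * w : ℕ) : ZMod p)) (t3 S').card (by
        apply Finset.card_le_card
        rintro ⟨⟨y1, y2⟩, ⟨y3, y4⟩, ⟨y5, y6⟩⟩ hs
        have h6 := Finset.mem_filter.1 hs
        obtain ⟨g1, g2, g3⟩ := h6
        simp only [Finset.mem_product] at g1
        dsimp only at g2 g3
        rw [mem_t3]
        have q1 := hlt y1 g1.1.1
        have q2 := hlt y2 g1.1.2
        have q3 := hlt y3 g1.2.1.1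
        have q4 := hlt y4 g1.2.1.2
        have q5 := hlt y5 g1.2.2.1
        have q6 := hlt y6 g1.2.2.2
        refine ⟨g1, ?_, ?_⟩
        · apply hcast _ _ (by dsimp only; omega) (by dsimp only; omega)
          push_cast at g2 ⊢
          linear_combination g2
        · apply hcast _ _ (by dsimp only; omega) (by dsimp only; omega)
          push_cast at g3 ⊢
          linear_combination g3) hE f (fun s => g (s + b ^ k' * w)) hf (fun s => hg _)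
    rw [hjm] at h1
    exact h1
  · intro θ hbk f g hf hg
    apply hsum δ2 (fun u v => f u * g v *
      χ (((θ ^ u : (ZMod p)ˣ) : ZMod p) - ((θ ^ v : (ZMod p)ˣ) : ZMod p))) (min_le_right _ _)
    intro w hw
    have hcast : ∀ n n' : ℕ, n < orderOf θ → n' < orderOf θ → θ ^ n = θ ^ n' → n = n' := by
      intro n n' hn hn' he
      rw [pow_inj_mod, Nat.mod_eq_of_lt hn, Nat.mod_eq_of_lt hn'] at he
      exact he
    have hkey : ∀ y1 y2 y3 y4 : ℕ, y1 + y4 < orderOf θ → y2 + y3 < orderOf θ →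
        ((θ ^ (y1 + b ^ k' * w) : (ZMod p)ˣ) : ZMod p) *
          (((θ ^ (y2 + b ^ k' * w) : (ZMod p)ˣ) : ZMod p))⁻¹ =
        ((θ ^ (y3 + b ^ k' * w) : (ZMod p)ˣ) : ZMod p) *
          (((θ ^ (y4 + b ^ k' * w) : (ZMod p)ˣ) : ZMod p))⁻¹ → y1 + y4 = y2 + y3 := by
      intro y1 y2 y3 y4 h1 h2 he
      apply hcast _ _ h1 h2
      apply Units.ext
      have n2 : ((θ ^ (y2 + b ^ k' * w) : (ZMod p)ˣ) : ZMod p) ≠ 0 := Units.ne_zero _
      have n4 : ((θ ^ (y4 + b ^ k' * w) : (ZMod p)ˣ) : ZMod p) ≠ 0 := Units.ne_zero _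
      have h3 : ((θ ^ (y1 + b ^ k' * w) : (ZMod p)ˣ) : ZMod p) *
          ((θ ^ (y4 + b ^ k' * w) : (ZMod p)ˣ) : ZMod p) =
          ((θ ^ (y3 + b ^ k' * w) : (ZMod p)ˣ) : ZMod p) *
          ((θ ^ (y2 + b ^ k' * w) : (ZMod p)ˣ) : ZMod p) := by
        field_simp at he
        linear_combination he
      have n0 : ((θ ^ (b ^ k' * w) : (ZMod p)ˣ) : ZMod p) *
          ((θ ^ (b ^ k' * w) : (ZMod p)ˣ) : ZMod p) ≠ 0 :=
        mul_ne_zero (Units.ne_zero _) (Units.ne_zero _)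
      apply mul_right_cancel₀ n0
      simp only [pow_add, Units.val_mul] at h3 ⊢
      linear_combination h3
    have h1 := hP3 p inferInstance hp3 χ hχ θ j m D (by rw [hjm]; exact hDp) hm
      (by rw [hjm]; exact hbk) hH ℕ S'
      (fun s => ((θ ^ (s + b ^ k' * w) : (ZMod p)ˣ) : ZMod p)) (t3 S').card
      (fun s _ => Units.ne_zero _) (by
        apply Finset.card_le_card
        rintro ⟨⟨y1, y2⟩, ⟨y3, y4⟩, ⟨y5, y6⟩⟩ hs
        have h6 := Finset.mem_filter.1 hs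
        obtain ⟨g1, g2, g3⟩ := h6
        simp only [Finset.mem_product] at g1
        dsimp only at g2 g3
        rw [mem_t3]
        have q1 := hlt y1 g1.1.1
        have q2 := hlt y2 g1.1.2
        have q3 := hlt y3 g1.2.1.1
        have q4 := hlt y4 g1.2.1.2
        have q5 := hlt y5 g1.2.2.1
        have q6 := hlt y6 g1.2.2.2
        exact ⟨g1, hkey y1 y2 y3 y4 (by omega) (by omega) g2,
          hkey y1 y2 y5 y6 (by omega) (by omega) g3⟩) hE f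
      (fun s => g (s + b ^ k' * w)) hf (fun s => hg _)
    rw [hjm] at h1
    exact h1

end Pool.Agent.Q263.PG
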