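import Mathlib
import Pool.Agent.Q263.PG.Set

/-!
Sets of integers with two possible digits at every place.
-/

set_option autoImplicit false

open Finset

namespace Pool.Agent.Q263.PG

/-- two digits at every place, which do not differ by `b / 2` -/
def Two (b k : ℕ) (D : ℕ → Finset ℕ) : Prop :=
  ∀ i < k, (D i).card = 2 ∧ (∀ d ∈ D i, d < b) ∧ ∀ u ∈ D i, ∀ v ∈ D i, 2 * u ≠ 2 * v + b

lemma Two.tail {b k : ℕ} {D : ℕ → Finset ℕ} (h : Two b (k + 1) D) :
    Two b k (fun i => D (i + 1)) := fun i hi => h (i + 1) (by omega)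

lemma Two.mono {b k m : ℕ} {D : ℕ → Finset ℕ} (h : Two b k D) (hm : m ≤ k) :
    Two b m D := fun i hi => h i (by omega)

lemma Two.prp {b k : ℕ} (hb : 3 ≤ b) {D : ℕ → Finset ℕ} (h : Two b k D) : Prp b k D := by
  intro i hi
  obtain ⟨h1, h2, _⟩ := h i hi
  refine ⟨Finset.card_pos.1 (by omega), h2, ?_⟩
  by_contra hcon
  push Not at hcon
  have h3 : range b ⊆ D i := fun d hd => hcon d (Finset.mem_range.1 hd)
  have h4 := Finset.card_le_card h3
  rw [Finset.card_range] at h4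
  omega

lemma Two.card {b k : ℕ} (hb : 3 ≤ b) {D : ℕ → Finset ℕ} (h : Two b k D) :
    (SD b k D).card = 2 ^ k := by
  rw [SD_card b k D (h.prp hb), Finset.prod_congr rfl (fun i hi => (h i (Finset.mem_range.1 hi)).1),
    Finset.prod_const, Finset.card_range]

/-- the energy of a set with two digits -/
theorem energy2 (b : ℕ) (hb : 3 ≤ b) : ∀ (k : ℕ) (D : ℕ → Finset ℕ), Two b k D →
    (trip (SD b k D) (b ^ k) 0).card ≤ 6 ^ k := by
  intro k
  induction k with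
  | zero =>
    intro D _
    refine (trip_card _ _ _).trans ?_
    simp [SD]
  | succ k ih =>
    intro D h
    obtain ⟨h1, h2, h3⟩ := h 0 (by omega)
    -- no carry
    have hno : ∀ x ∈ D 0, ∀ y ∈ D 0, ∀ z ∈ D 0, ∀ w ∈ D 0,
        (b : ℤ) ∣ (x : ℤ) + y - z - w → (x : ℤ) + y - z - w = 0 := by
      obtain ⟨u, v, huv, hD⟩ := Finset.card_eq_two.1 h1
      have hu : u ∈ D 0 := by rw [hD]; simp
      have hv : v ∈ D 0 := by rw [hD]; simp
      have g1 := h3 u hu v hv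
      have g2 := h3 v hv u hu
      have g3 := h2 u hu
      have g4 := h2 v hv
      intro x hx y hy z hz w hw hd
      rw [hD, Finset.mem_insert, Finset.mem_singleton] at hx hy hz hw
      obtain ⟨s, hs⟩ := hd
      have hb0 : (0 : ℤ) < b := by exact_mod_cast (by omega : 0 < b)
      have hs1 : -2 < s := by
        by_contra hcon
        push Not at hcon
        have : (b : ℤ) * s ≤ b * (-2) := mul_le_mul_of_nonneg_left hcon hb0.le
        rcases hx with rfl | rfl <;> rcases hy with rfl | rfl <;> rcases hz with rfl | rfl <;>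
          rcases hw with rfl | rfl <;> omega
      have hs2 : s < 2 := by
        by_contra hcon
        push Not at hcon
        have : (b : ℤ) * 2 ≤ b * s := mul_le_mul_of_nonneg_left hcon hb0.le
        rcases hx with rfl | rfl <;> rcases hy with rfl | rfl <;> rcases hz with rfl | rfl <;>
          rcases hw with rfl | rfl <;> omega
      have hs3 : s = -1 ∨ s = 0 ∨ s = 1 := by omega
      rcases hs3 with rfl | rfl | rfl
      · exfalso
        rcases hx with rfl | rfl <;> rcases hy with rfl | rfl <;> rcases hz with rfl | rfl <;>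
          rcases hw with rfl | rfl <;> omega
      · rw [hs]; ring
      · exfalso
        rcases hx with rfl | rfl <;> rcases hy with rfl | rfl <;> rcases hz with rfl | rfl <;>
          rcases hw with rfl | rfl <;> omega
    have h4 : (trip (D 0) b 0).card ≤ 6 := by
      rcases two b (D 0) h1 with h5 | ⟨x, hx, y, hy, z, hz, w, hw, hd, hne⟩
      · omega
      · exact absurd (hno x hx y hy z hz w hw hd) hne
    have h5 := step' b (b ^ k) (D 0) (SD b k (fun i => D (i + 1))) h2 0 (by norm_num) (6 ^ k) (by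
      rintro c' _ ⟨x, hx, y, hy, z, hz, w, hw, he⟩
      have h6 := hno x hx y hy z hz w hw ⟨c', by linear_combination he⟩
      have hb0 : (b : ℤ) ≠ 0 := by exact_mod_cast (by omega : b ≠ 0)
      have h7 : c' = 0 := by
        have h8 : (b : ℤ) * c' = 0 := by linear_combination h6 - he
        exact (mul_eq_zero.1 h8).resolve_left hb0
      rw [h7]
      exact ih _ h.tail)
    rw [SD, pow_succ', pow_succ]
    exact h5.trans (Nat.mul_le_mul_left _ h4)

/-- **the place of the cut** -/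
theorem cut2 (b : ℕ) (hb : 3 ≤ b) (ε : ℝ) (hε : 0 < ε) : ∃ ε1 η : ℝ, 0 < ε1 ∧ 0 < η ∧
    ∃ P : ℕ, ∀ p : ℕ, P ≤ p → ∀ (k : ℕ) (D : ℕ → Finset ℕ), Two b k D →
      (p : ℝ) ^ ε ≤ (8 / 3) ^ k →
      ∃ j m : ℕ, j + m = k ∧ 1 ≤ m ∧ (p : ℝ) ^ ε1 ≤ ((SD b m (fun i => D (j + i))).card : ℝ) ∧
        ∀ N F : ℝ, 0 ≤ N → 0 ≤ F → (p : ℝ) ^ (1 + ε) * F ≤ (8 / 3) ^ k * N ^ 4 →
          ((trip (SD b j D) (b ^ j) 0).card : ℝ) * F ≤
            ((p : ℝ) ^ (-(1 / 2) - η) * (((SD b j D).card : ℝ) * N) ^ 2) ^ 2 := by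
  classical
  obtain ⟨P0, hP0⟩ : ∃ P0 : ℕ, ∀ p : ℕ, P0 ≤ p → (4 : ℝ) ≤ (p : ℝ) ^ (ε / 2) := by
    have h1 := (tendsto_rpow_atTop (y := ε / 2) (by linarith)).comp
      (tendsto_natCast_atTop_atTop (R := ℝ))
    have h2 := (Filter.tendsto_atTop.1 h1 (4 : ℝ))
    obtain ⟨P0, hP0⟩ := Filter.eventually_atTop.1 h2
    exact ⟨P0, fun p hp => hP0 p hp⟩
  refine ⟨ε / 8, ε / 8, by linarith, by linarith, max P0 2, ?_⟩
  intro p hp k D h hk8
  have hp2 : 2 ≤ p := (le_max_right _ _).trans hp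
  have hp1 : (1 : ℝ) < p := by exact_mod_cast (by omega : 1 < p)
  have hp0 : (0 : ℝ) < p := by linarith
  have h4p := hP0 p ((le_max_left _ _).trans hp)
  set w : ℝ := (p : ℝ) ^ (ε / 8) with hw
  have hw0 : 0 < w := Real.rpow_pos_of_pos hp0 _
  have hw1 : 1 < w := Real.one_lt_rpow hp1 (by linarith)
  have hwpow : ∀ n : ℕ, w ^ n = (p : ℝ) ^ (ε / 8 * n) := by
    intro n
    rw [hw, ← Real.rpow_natCast, ← Real.rpow_mul hp0.le]
  have hw8 : w ^ 8 = (p : ℝ) ^ ε := by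
    rw [hwpow]
    congr 1
    push_cast
    ring
  have hw4 : w ^ 4 = (p : ℝ) ^ (ε / 2) := by
    rw [hwpow]
    congr 1
    push_cast
    ring
  have hp1ε : (p : ℝ) ^ (1 + ε) = p * w ^ 8 := by
    rw [Real.rpow_add hp0, Real.rpow_one, hw8]
  rw [← hw8] at hk8
  rw [← hw4] at h4p
  -- the number of digits is large
  have hk2 : w ≤ (2 : ℝ) ^ k := by
    have h1 : (8 / 3 : ℝ) ^ k ≤ ((2 : ℝ) ^ k) ^ 2 := by
      rw [← pow_mul, mul_comm, pow_mul]
      exact pow_le_pow_left₀ (by norm_num) (by norm_num) k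
    have h3 : w ^ 8 ≤ ((2 : ℝ) ^ k) ^ 2 := hk8.trans h1
    have h4 : w ^ 2 ≤ w ^ 8 := pow_le_pow_right₀ hw1.le (by norm_num)
    exact (sq_le_sq₀ hw0.le (by positivity)).1 (h4.trans h3)
  have hex : ∃ m : ℕ, w ≤ (2 : ℝ) ^ m := ⟨k, hk2⟩
  have hm := Nat.find_spec hex
  have hmk : Nat.find hex ≤ k := Nat.find_min' hex hk2
  have hmin := fun m' (hm' : m' < Nat.find hex) => Nat.find_min hex hm'
  set m := Nat.find hex with hmdef
  have hm1 : 1 ≤ m := by
    by_contra hcon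
    have h0 : m = 0 := by omega
    rw [h0, pow_zero] at hm
    linarith
  have hm2 : (2 : ℝ) ^ m ≤ 2 * w := by
    obtain ⟨m', hm'⟩ : ∃ m', m = m' + 1 := ⟨m - 1, by omega⟩
    have h1 := hmin m' (by omega)
    push Not at h1
    rw [hm', pow_succ]
    linarith
  have hjm : k - m + m = k := by omega
  set j := k - m with hj
  refine ⟨j, m, hjm, hm1, ?_, ?_⟩
  · have h1 : Two b m (fun i => D (j + i)) := fun i hi => h (j + i) (by omega)
    rw [h1.card hb]
    push_cast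
    exact hm
  · intro N F hN hF hkN
    rw [hp1ε] at hkN
    have hpj : Two b j D := h.mono (by omega)
    rw [hpj.card hb]
    have h1 : ((trip (SD b j D) (b ^ j) 0).card : ℝ) ≤ 6 ^ j := by
      exact_mod_cast energy2 b hb j D hpj
    have h2 : (p : ℝ) ^ (-(1 / 2) - ε / 8) = (p : ℝ) ^ (-(1 / 2 : ℝ)) * w⁻¹ := by
      rw [hw, ← Real.rpow_neg hp0.le, ← Real.rpow_add hp0]
      congr 1
    have h3 : ((p : ℝ) ^ (-(1 / 2 : ℝ))) ^ 2 = (p : ℝ)⁻¹ := by
      rw [← Real.rpow_natCast, ← Real.rpow_mul hp0.le, ← Real.rpow_neg_one]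
      congr 1
      norm_num
    have h4 : (p : ℝ) * w ^ 2 * F ≤ (8 / 3) ^ j * N ^ 4 := by
      have h5 : (8 / 3 : ℝ) ^ k = (8 / 3) ^ j * (8 / 3) ^ m := by
        rw [← pow_add, hjm]
      have h6 : (8 / 3 : ℝ) ^ m ≤ (2 * w) ^ 2 := by
        calc (8 / 3 : ℝ) ^ m ≤ (4 : ℝ) ^ m := pow_le_pow_left₀ (by norm_num) (by norm_num) m
          _ = ((2 : ℝ) ^ m) ^ 2 := by
              rw [← pow_mul, mul_comm, pow_mul]
              norm_num
          _ ≤ _ := pow_le_pow_left₀ (by positivity) hm2 2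
      have h7 : (p : ℝ) * w ^ 8 * F ≤ ((8 / 3) ^ j * N ^ 4) * (2 * w) ^ 2 := by
        calc (p : ℝ) * w ^ 8 * F ≤ (8 / 3) ^ k * N ^ 4 := hkN
          _ = ((8 / 3) ^ j * N ^ 4) * (8 / 3) ^ m := by rw [h5]; ring
          _ ≤ _ := mul_le_mul_of_nonneg_left h6 (by positivity)
      have h8 : ((p : ℝ) * w ^ 2 * F) * (2 * w) ^ 2 ≤ (p : ℝ) * w ^ 8 * F := by
        calc ((p : ℝ) * w ^ 2 * F) * (2 * w) ^ 2 = (p * w ^ 4 * F) * 4 := by ring
          _ ≤ (p * w ^ 4 * F) * w ^ 4 := mul_le_mul_of_nonneg_left h4p (by positivity)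
          _ = _ := by ring
      exact le_of_mul_le_mul_right (h8.trans h7) (by positivity)
    rw [h2]
    push_cast
    calc ((trip (SD b j D) (b ^ j) 0).card : ℝ) * F ≤ 6 ^ j * F :=
          mul_le_mul_of_nonneg_right h1 hF
      _ = ((p : ℝ)⁻¹ * (w⁻¹) ^ 2) * 6 ^ j * (p * w ^ 2 * F) := by
          field_simp
      _ ≤ ((p : ℝ)⁻¹ * (w⁻¹) ^ 2) * 6 ^ j * ((8 / 3) ^ j * N ^ 4) :=
          mul_le_mul_of_nonneg_left h4 (by positivity)
      _ = ((p : ℝ) ^ (-(1 / 2 : ℝ)) * w⁻¹ * (2 ^ j * N) ^ 2) ^ 2 := by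
          have h10 : (8 / 3 : ℝ) ^ j * 6 ^ j = (2 ^ j) ^ 4 := by
            rw [← mul_pow, ← pow_mul, mul_comm j 4, pow_mul]
            norm_num
          calc ((p : ℝ)⁻¹ * (w⁻¹) ^ 2) * 6 ^ j * ((8 / 3) ^ j * N ^ 4) =
                (p : ℝ)⁻¹ * (w⁻¹) ^ 2 * ((8 / 3 : ℝ) ^ j * 6 ^ j) * N ^ 4 := by ring
            _ = (p : ℝ)⁻¹ * (w⁻¹) ^ 2 * (2 ^ j) ^ 4 * N ^ 4 := by rw [h10]
            _ = _ := by
                rw [← h3]
                ring

end Pool.Agent.Q263.PG
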