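import Mathlib
import Pool.Agent.Q263.PG.Cut
import Pool.Agent.Q263.PG.Two
import Pool.Agent.TH322.CS.Tri

/-!
Character sums over sets with restricted digits and arbitrary sets.
-/

set_option autoImplicit false

open Finset

namespace Pool.Agent.Q263.PG

/-- the estimate for `f(y, x)` -/
lemma use_core (ε1 η : ℝ) (hε1 : 0 < ε1) (hη : 0 < η) : ∃ τ : ℝ, 0 < τ ∧ ∃ P : ℕ,
    ∀ p : ℕ, ∀ _ : Fact p.Prime, P ≤ p → ∀ χ : DirichletCharacter ℂ p, χ ≠ 1 →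
      ∀ W : Finset (ZMod p), (p : ℝ) ^ ε1 ≤ W.card →
        ∀ (Y : Finset ℕ) (B : Finset (ZMod p)) (f : ℕ → ZMod p → ZMod p)
          (dY : ℕ → ℕ → ZMod p) (dB : ZMod p → ZMod p → ZMod p) (Q F : ℕ),
          (∀ y1 ∈ Y, ∀ y2 ∈ Y, ∀ x1 ∈ B, ∀ x2 ∈ B, f y1 x1 = f y2 x2 → dY y1 y2 = dB x1 x2) →
          (∀ y1 ∈ Y, ∀ y2 ∈ Y, ∀ y3 ∈ Y, ∀ y4 ∈ Y, dY y1 y2 = dY y3 y4 → y1 + y4 = y2 + y3) →
          (((B ×ˢ B) ×ˢ (B ×ˢ B)).filter fun s => dB s.1.1 s.1.2 = dB s.2.1 s.2.2).card ≤ F →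
          ((trip Y Q 0).card : ℝ) * F ≤
            ((p : ℝ) ^ (-(1 / 2) - η) * ((Y.card : ℝ) * B.card) ^ 2) ^ 2 →
          ∑ y ∈ Y, ∑ x ∈ B, ‖∑ w ∈ W, χ (f y x + w)‖ ≤
            (p : ℝ) ^ (-τ) * ((Y.card : ℝ) * B.card * W.card) := by
  classical
  obtain ⟨τ, hτ, P, h⟩ := Pool.Agent.TH322.CS.core_fun ε1 η hε1 hη
  refine ⟨τ, hτ, P, ?_⟩
  intro p _ hp χ hχ W hW Y B f dY dB Q F hf hadd hF hE
  have h1 := h p inferInstance hp χ hχ W hW (fun _ => 1) (fun _ => by simp) (ℕ × ZMod p) (Y ×ˢ B)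
    (fun t => f t.1 t.2)
  have h2 := coll Y B dY dB Q hadd
  rw [Finset.card_product] at h1
  push_cast at h1
  have h3 := h1 (by
    have h5 : (((Y ×ˢ B) ×ˢ (Y ×ˢ B)).filter
        fun t => f t.1.1 t.1.2 = f t.2.1 t.2.2).card ≤
        (((Y ×ˢ B) ×ˢ (Y ×ˢ B)).filter fun t => dY t.1.1 t.2.1 = dB t.1.2 t.2.2).card := by
      apply Finset.card_le_card
      intro t ht
      have h6 := Finset.mem_filter.1 ht
      have h7 := h6.1
      rw [Finset.mem_product, Finset.mem_product, Finset.mem_product] at h7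
      exact Finset.mem_filter.2 ⟨h6.1, hf _ h7.1.1 _ h7.2.1 _ h7.1.2 _ h7.2.2 h6.2⟩
    have h8 := (Nat.pow_le_pow_left h5 2).trans (h2.trans (Nat.mul_le_mul_left _ hF))
    have h4 : (((((Y ×ˢ B) ×ˢ (Y ×ˢ B)).filter
        fun t => f t.1.1 t.1.2 = f t.2.1 t.2.2).card : ℕ) : ℝ) ^ 2 ≤
        ((p : ℝ) ^ (-(1 / 2) - η) * ((Y.card : ℝ) * B.card) ^ 2) ^ 2 := by
      refine le_trans ?_ hE
      exact_mod_cast h8
    exact (sq_le_sq₀ (Nat.cast_nonneg _) (by positivity)).1 h4)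
  rw [Finset.sum_product] at h3
  simpa using h3

/-- **sums over the residues with restricted digits** -/
theorem add_split (b : ℕ) (hb : 2 ≤ b) (ε1 η : ℝ) (hε1 : 0 < ε1) (hη : 0 < η) :
    ∃ τ : ℝ, 0 < τ ∧ ∃ P : ℕ,
    ∀ p : ℕ, ∀ _ : Fact p.Prime, P ≤ p → ∀ χ : DirichletCharacter ℂ p, χ ≠ 1 →
      ∀ (j m : ℕ) (D : ℕ → Finset ℕ), Prp b (j + m) D → 1 ≤ m → b ^ (j + m) ≤ p →
        (p : ℝ) ^ ε1 ≤ ((SD b m (fun i => D (j + i))).card : ℝ) →
        ∀ B : Finset (ZMod p), ((trip (SD b j D) (b ^ j) 0).card : ℝ) * (B.addEnergy B : ℝ) ≤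
            ((p : ℝ) ^ (-(1 / 2) - η) * (((SD b j D).card : ℝ) * B.card) ^ 2) ^ 2 →
          ∑ x ∈ B, ‖∑ n ∈ SD b (j + m) D, χ ((n : ZMod p) + x)‖ ≤
            (p : ℝ) ^ (-τ) * (((SD b (j + m) D).card : ℝ) * B.card) := by
  classical
  obtain ⟨τ, hτ, P, h⟩ := use_core ε1 η hε1 hη
  refine ⟨τ, hτ, P, ?_⟩
  intro p _ hp χ hχ j m D hD hm hbp hH B hE
  set H := SD b m (fun i => D (j + i)) with hHdef
  set Y := SD b j D with hY
  have hpj : Prp b j D := hD.mono (by omega)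
  have hpm : Prp b m (fun i => D (j + i)) := hD.shift j le_rfl
  have hb0 : 0 < b := by omega
  have hcast : ∀ n n' : ℕ, n < p → n' < p → (n : ZMod p) = n' → n = n' := by
    intro n n' hn hn' he
    rw [ZMod.natCast_eq_natCast_iff', Nat.mod_eq_of_lt hn, Nat.mod_eq_of_lt hn'] at he
    exact he
  have hpow : b ^ j * b ^ m ≤ p := by rw [← pow_add]; exact hbp
  have hj2 : 2 * b ^ j ≤ p := by
    refine le_trans ?_ hpow
    rw [mul_comm]
    apply Nat.mul_le_mul_left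
    calc 2 ≤ b := hb
      _ = b ^ 1 := (pow_one b).symm
      _ ≤ b ^ m := Nat.pow_le_pow_right hb0 hm
  have hWinj : Set.InjOn (fun w : ℕ => ((b ^ j * w : ℕ) : ZMod p)) (H : Set ℕ) := by
    intro w hw w' hw' he
    have h1 : ∀ w ∈ H, b ^ j * w < p := fun w hw =>
      lt_of_lt_of_le (Nat.mul_lt_mul_of_pos_left (SD_lt b m _ hpm w hw)
        (Nat.pow_pos hb0)) hpow
    have h2 := hcast _ _ (h1 w hw) (h1 w' hw') he
    exact Nat.eq_of_mul_eq_mul_left (Nat.pow_pos hb0) h2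
  set W : Finset (ZMod p) := H.image (fun w : ℕ => ((b ^ j * w : ℕ) : ZMod p)) with hW
  have hWc : W.card = H.card := Finset.card_image_of_injOn hWinj
  have h1 := h p inferInstance hp χ hχ W (by rw [hWc]; exact hH) Y B
    (fun y x => (y : ZMod p) + x) (fun y y' => (y : ZMod p) - y') (fun x x' => x' - x) (b ^ j)
    (B.addEnergy B) (by
      intro y1 _ y2 _ x1 _ x2 _ he
      linear_combination he) (by
      intro y1 h1 y2 h2 y3 h3 y4 h4 e1
      have g1 := SD_lt b j D hpj y1 h1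
      have g2 := SD_lt b j D hpj y2 h2
      have g3 := SD_lt b j D hpj y3 h3
      have g4 := SD_lt b j D hpj y4 h4
      apply hcast _ _ (by omega) (by omega)
      push_cast
      linear_combination e1) (by
      unfold Finset.addEnergy
      apply Finset.card_le_card_of_injOn (fun s : (ZMod p × ZMod p) × (ZMod p × ZMod p) =>
        ((s.1.2, s.1.1), (s.2.1, s.2.2)))
      · rintro ⟨⟨x1, x2⟩, ⟨x3, x4⟩⟩ hs
        have h6 := Finset.mem_filter.1 (Finset.mem_coe.1 hs)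
        rw [Finset.mem_product, Finset.mem_product, Finset.mem_product] at h6
        obtain ⟨⟨⟨g1, g2⟩, g3, g4⟩, g5⟩ := h6
        dsimp only at g1 g2 g3 g4 g5
        rw [Finset.mem_coe, Finset.mem_filter, Finset.mem_product, Finset.mem_product,
          Finset.mem_product]
        exact ⟨⟨⟨g2, g1⟩, g3, g4⟩, by linear_combination g5⟩
      · rintro ⟨⟨x1, x2⟩, ⟨x3, x4⟩⟩ _ ⟨⟨z1, z2⟩, ⟨z3, z4⟩⟩ _ heq
        simp only [Prod.mk.injEq] at heq ⊢
        tauto) hE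
  have hcard : (SD b (j + m) D).card = Y.card * W.card := by
    rw [SD_add b j m D hD, comb_card (SD_lt b j D hpj), hWc]
  calc ∑ x ∈ B, ‖∑ n ∈ SD b (j + m) D, χ ((n : ZMod p) + x)‖
      ≤ ∑ x ∈ B, ∑ y ∈ Y, ‖∑ w ∈ W, χ ((y : ZMod p) + x + w)‖ := by
        apply Finset.sum_le_sum
        intro x _
        rw [SD_add b j m D hD, comb_sum (SD_lt b j D hpj)]
        refine (norm_sum_le _ _).trans (Finset.sum_le_sum fun y _ => le_of_eq ?_)
        congr 1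
        rw [hW, Finset.sum_image hWinj]
        apply Finset.sum_congr rfl
        intro w _
        congr 1
        push_cast
        ring
    _ = ∑ y ∈ Y, ∑ x ∈ B, ‖∑ w ∈ W, χ ((y : ZMod p) + x + w)‖ := Finset.sum_comm
    _ ≤ _ := h1
    _ = _ := by
        rw [hcard]
        push_cast
        ring

/-- **sums over the powers whose exponents have restricted digits** -/
theorem mul_split (b : ℕ) (hb : 2 ≤ b) (ε1 η : ℝ) (hε1 : 0 < ε1) (hη : 0 < η) :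
    ∃ τ : ℝ, 0 < τ ∧ ∃ P : ℕ,
    ∀ p : ℕ, ∀ _ : Fact p.Prime, P ≤ p → ∀ χ : DirichletCharacter ℂ p, χ ≠ 1 →
      ∀ (θ : (ZMod p)ˣ) (j m : ℕ) (D : ℕ → Finset ℕ), Prp b (j + m) D → 1 ≤ m →
        b ^ (j + m) ≤ orderOf θ →
        (p : ℝ) ^ ε1 ≤ ((SD b m (fun i => D (j + i))).card : ℝ) →
        ∀ B : Finset (ZMod p), (0 : ZMod p) ∉ B →
          ((trip (SD b j D) (b ^ j) 0).card : ℝ) * (B.mulEnergy B : ℝ) ≤
            ((p : ℝ) ^ (-(1 / 2) - η) * (((SD b j D).card : ℝ) * B.card) ^ 2) ^ 2 →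
          ∑ x ∈ B, ‖∑ n ∈ SD b (j + m) D, χ (((θ ^ n : (ZMod p)ˣ) : ZMod p) + x)‖ ≤
            (p : ℝ) ^ (-τ) * (((SD b (j + m) D).card : ℝ) * B.card) := by
  classical
  obtain ⟨τ, hτ, P, h⟩ := use_core ε1 η hε1 hη
  refine ⟨τ, hτ, P, ?_⟩
  intro p _ hp χ hχ θ j m D hD hm hbp hH B hB hE
  set H := SD b m (fun i => D (j + i)) with hHdef
  set Y := SD b j D with hY
  have hpj : Prp b j D := hD.mono (by omega)
  have hpm : Prp b m (fun i => D (j + i)) := hD.shift j le_rfl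
  have hb0 : 0 < b := by omega
  have hcast : ∀ n n' : ℕ, n < orderOf θ → n' < orderOf θ → θ ^ n = θ ^ n' → n = n' := by
    intro n n' hn hn' he
    rw [pow_inj_mod, Nat.mod_eq_of_lt hn, Nat.mod_eq_of_lt hn'] at he
    exact he
  have hpow : b ^ j * b ^ m ≤ orderOf θ := by rw [← pow_add]; exact hbp
  have hj2 : 2 * b ^ j ≤ orderOf θ := by
    refine le_trans ?_ hpow
    rw [mul_comm]
    apply Nat.mul_le_mul_left
    calc 2 ≤ b := hb
      _ = b ^ 1 := (pow_one b).symm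
      _ ≤ b ^ m := Nat.pow_le_pow_right hb0 hm
  have hWinj : Set.InjOn (fun w : ℕ => ((θ ^ (b ^ j * w) : (ZMod p)ˣ) : ZMod p)) (H : Set ℕ) := by
    intro w hw w' hw' he
    have h1 : ∀ w ∈ H, b ^ j * w < orderOf θ := fun w hw =>
      lt_of_lt_of_le (Nat.mul_lt_mul_of_pos_left (SD_lt b m _ hpm w hw)
        (Nat.pow_pos hb0)) hpow
    have h2 := hcast _ _ (h1 w hw) (h1 w' hw') (Units.ext he)
    exact Nat.eq_of_mul_eq_mul_left (Nat.pow_pos hb0) h2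
  set W : Finset (ZMod p) := H.image (fun w : ℕ => ((θ ^ (b ^ j * w) : (ZMod p)ˣ) : ZMod p))
    with hW
  have hWc : W.card = H.card := Finset.card_image_of_injOn hWinj
  have hu : ∀ y : ℕ, ((θ ^ y : (ZMod p)ˣ) : ZMod p) * (((θ ^ y)⁻¹ : (ZMod p)ˣ) : ZMod p) = 1 :=
    fun y => by rw [← Units.val_mul, mul_inv_cancel, Units.val_one]
  have h1 := h p inferInstance hp χ hχ W (by rw [hWc]; exact hH) Y B
    (fun y x => (((θ ^ y)⁻¹ : (ZMod p)ˣ) : ZMod p) * x)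
    (fun y y' => ((θ ^ y : (ZMod p)ˣ) : ZMod p) * (((θ ^ y')⁻¹ : (ZMod p)ˣ) : ZMod p))
    (fun x x' => x * x'⁻¹) (b ^ j) (B.mulEnergy B) (by
      intro y1 _ y2 _ x1 hx1 x2 hx2 he
      have hx2' : x2 ≠ 0 := fun h0 => hB (h0 ▸ hx2)
      have h3 : x1 = ((θ ^ y1 : (ZMod p)ˣ) : ZMod p) *
          ((((θ ^ y2)⁻¹ : (ZMod p)ˣ) : ZMod p) * x2) := by
        rw [← he, ← mul_assoc, hu, one_mul]
      change _ = x1 * x2⁻¹
      rw [h3, mul_assoc, mul_assoc, mul_inv_cancel₀ hx2', mul_one]) (by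
      intro y1 h1 y2 h2 y3 h3 y4 h4 e1
      have g1 := SD_lt b j D hpj y1 h1
      have g2 := SD_lt b j D hpj y2 h2
      have g3 := SD_lt b j D hpj y3 h3
      have g4 := SD_lt b j D hpj y4 h4
      apply hcast _ _ (by omega) (by omega)
      have e6 : θ ^ y1 * (θ ^ y2)⁻¹ = θ ^ y3 * (θ ^ y4)⁻¹ := by
        apply Units.ext
        rw [Units.val_mul, Units.val_mul]
        exact e1
      have e7 : θ ^ y1 * θ ^ y4 = θ ^ y2 * θ ^ y3 := by
        rw [mul_inv_eq_iff_eq_mul] at e6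
        rw [e6]
        rw [mul_comm (θ ^ y2)]
        calc θ ^ y3 * (θ ^ y4)⁻¹ * θ ^ y2 * θ ^ y4 = θ ^ y3 * θ ^ y2 * ((θ ^ y4)⁻¹ * θ ^ y4) := by
              rw [mul_assoc (θ ^ y3), mul_comm ((θ ^ y4)⁻¹) (θ ^ y2), mul_assoc, mul_assoc,
                mul_assoc]
          _ = _ := by rw [inv_mul_cancel, mul_one]
      rw [pow_add, pow_add]
      exact e7) (by
      unfold Finset.mulEnergy
      apply Finset.card_le_card_of_injOn (fun s : (ZMod p × ZMod p) × (ZMod p × ZMod p) =>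
        ((s.1.1, s.2.1), (s.2.2, s.1.2)))
      · rintro ⟨⟨x1, x2⟩, ⟨x3, x4⟩⟩ hs
        have h6 := Finset.mem_filter.1 (Finset.mem_coe.1 hs)
        rw [Finset.mem_product, Finset.mem_product, Finset.mem_product] at h6
        obtain ⟨⟨⟨g1, g2⟩, g3, g4⟩, g5⟩ := h6
        dsimp only at g1 g2 g3 g4 g5
        rw [Finset.mem_coe, Finset.mem_filter, Finset.mem_product, Finset.mem_product,
          Finset.mem_product]
        have k2 : x2 ≠ 0 := fun h0 => hB (h0 ▸ g2)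
        have k4 : x4 ≠ 0 := fun h0 => hB (h0 ▸ g4)
        refine ⟨⟨⟨g1, g3⟩, g4, g2⟩, ?_⟩
        dsimp only
        field_simp at g5
        exact g5.trans (mul_comm _ _)
      · rintro ⟨⟨x1, x2⟩, ⟨x3, x4⟩⟩ _ ⟨⟨z1, z2⟩, ⟨z3, z4⟩⟩ _ heq
        simp only [Prod.mk.injEq] at heq ⊢
        tauto) hE
  have hcard : (SD b (j + m) D).card = Y.card * W.card := by
    rw [SD_add b j m D hD, comb_card (SD_lt b j D hpj), hWc]
  calc ∑ x ∈ B, ‖∑ n ∈ SD b (j + m) D, χ (((θ ^ n : (ZMod p)ˣ) : ZMod p) + x)‖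
      ≤ ∑ x ∈ B, ∑ y ∈ Y, ‖∑ w ∈ W, χ ((((θ ^ y)⁻¹ : (ZMod p)ˣ) : ZMod p) * x + w)‖ := by
        apply Finset.sum_le_sum
        intro x _
        rw [SD_add b j m D hD, comb_sum (SD_lt b j D hpj)]
        refine (norm_sum_le _ _).trans (Finset.sum_le_sum fun y _ => ?_)
        have e : ∀ w : ℕ, χ (((θ ^ (y + b ^ j * w) : (ZMod p)ˣ) : ZMod p) + x) =
            χ ((θ ^ y : (ZMod p)ˣ) : ZMod p) * χ ((((θ ^ y)⁻¹ : (ZMod p)ˣ) : ZMod p) * x +
              ((θ ^ (b ^ j * w) : (ZMod p)ˣ) : ZMod p)) := by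
          intro w
          rw [← map_mul]
          congr 1
          rw [pow_add, Units.val_mul]
          linear_combination (-x) * hu y
        rw [Finset.sum_congr rfl (fun w _ => e w), ← Finset.mul_sum, norm_mul, hW,
          Finset.sum_image hWinj]
        exact mul_le_of_le_one_left (norm_nonneg _) (χ.norm_le_one _)
    _ = ∑ y ∈ Y, ∑ x ∈ B, ‖∑ w ∈ W, χ ((((θ ^ y)⁻¹ : (ZMod p)ˣ) : ZMod p) * x + w)‖ :=
        Finset.sum_comm
    _ ≤ _ := h1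
    _ = _ := by
        rw [hcard]
        push_cast
        ring

end Pool.Agent.Q263.PG
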